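import Mathlib

/-!
The exponential map of a complete normed algebra over the `p`-adic numbers near `0`, and the
Lie algebra of a closed submonoid of a finite-dimensional such algebra (closed subgroup theorem).
-/

namespace Pool.Agent.Lib.MP_dd16b7_nt

open NormedSpace Filter Topology Metric Set
open scoped Nat

variable {p : ℕ} [hp : Fact p.Prime]

theorem norm_inv_natCast_eq (k : ℕ) (hk : k ≠ 0) :
    ‖((k : ℚ_[p]))⁻¹‖ = (p : ℝ) ^ padicValNat p k := by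
  rw [norm_inv, Padic.norm_eq_zpow_neg_valuation (by exact_mod_cast hk), Padic.valuation_natCast]
  simp

theorem norm_inv_factorial_le (n : ℕ) : ‖((n ! : ℚ_[p]))⁻¹‖ ≤ (p : ℝ) ^ n := by
  rw [norm_inv_natCast_eq _ n.factorial_ne_zero]
  exact pow_le_pow_right₀ (by exact_mod_cast hp.out.one_le) (padicValNat_factorial_le p n)

theorem norm_inv_natCast_le (k : ℕ) : ‖((k : ℚ_[p]))⁻¹‖ ≤ (p : ℝ) ^ k := by
  by_cases hk : k = 0
  · simp [hk]
  rw [norm_inv_natCast_eq _ hk]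
  apply pow_le_pow_right₀ (by exact_mod_cast hp.out.one_le)
  exact (padicValNat_le_nat_log k).trans (Nat.log_le_self p k)

theorem ofScalars_radius_pos (𝔸 : Type*) [NormedRing 𝔸] [NormedAlgebra ℚ_[p] 𝔸]
    (c : ℕ → ℚ_[p]) (hc : ∀ n, ‖c n‖ ≤ (p : ℝ) ^ n) :
    (((p : NNReal)⁻¹ : NNReal) : ENNReal) ≤ (FormalMultilinearSeries.ofScalars 𝔸 c).radius := by
  apply FormalMultilinearSeries.le_radius_of_eventually_le _ 1
  filter_upwards [eventually_gt_atTop 0] with n hn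
  have h1 := FormalMultilinearSeries.ofScalars_norm_le 𝔸 c n hn
  have hp0 : (0 : ℝ) < p := by exact_mod_cast hp.out.pos
  calc _ ≤ (p : ℝ) ^ n * (((p : NNReal)⁻¹ : NNReal) : ℝ) ^ n :=
        mul_le_mul_of_nonneg_right (h1.trans (hc n)) (by positivity)
    _ = 1 := by
        rw [← mul_pow]; simp [hp0.ne']

section Exp

variable (p)
variable (𝔸 : Type*) [NormedRing 𝔸] [NormedAlgebra ℚ_[p] 𝔸]

theorem exp_radius_pos : 0 < (expSeries ℚ_[p] 𝔸).radius := by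
  rw [expSeries_eq_ofScalars]
  refine lt_of_lt_of_le ?_ (ofScalars_radius_pos 𝔸 _ norm_inv_factorial_le)
  have : (0 : NNReal) < p := by exact_mod_cast hp.out.pos
  exact_mod_cast inv_pos.mpr this

/-- A ball on which the exponential converges and is injective. -/
structure ExpBall (r : ℝ) : Prop where
  pos : 0 < r
  mem : ∀ x : 𝔸, ‖x‖ < r → x ∈ eball (0 : 𝔸) (expSeries ℚ_[p] 𝔸).radius
  inj : ∀ x y : 𝔸, ‖x‖ < r → ‖y‖ < r → exp x = exp y → x = y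

variable [CompleteSpace 𝔸]

theorem exp_strict : HasStrictFDerivAt (exp : 𝔸 → 𝔸)
    ((ContinuousLinearEquiv.refl ℚ_[p] 𝔸 : 𝔸 ≃L[ℚ_[p]] 𝔸) : 𝔸 →L[ℚ_[p]] 𝔸) 0 :=
  hasStrictFDerivAt_exp_zero_of_radius_pos (exp_radius_pos p 𝔸)

/-- A local logarithm. -/
noncomputable def plog : 𝔸 → 𝔸 := (exp_strict p 𝔸).localInverse _ _ _

theorem plog_strict : HasStrictFDerivAt (plog p 𝔸) (ContinuousLinearMap.id ℚ_[p] 𝔸) 1 := by
  have := (exp_strict p 𝔸).to_localInverse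
  rw [exp_zero] at this
  exact this

theorem plog_one : plog p 𝔸 1 = 0 := by
  have := (exp_strict p 𝔸).localInverse_apply_image
  rwa [exp_zero] at this

theorem eventually_exp_plog : ∀ᶠ y in 𝓝 (1 : 𝔸), exp (plog p 𝔸 y) = y := by
  have := (exp_strict p 𝔸).eventually_right_inverse
  rwa [exp_zero] at this

theorem tendsto_plog : Tendsto (plog p 𝔸) (𝓝 1) (𝓝 0) := by
  have := (exp_strict p 𝔸).localInverse_tendsto
  rwa [exp_zero] at this

include p hp in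
theorem tendsto_exp_zero : Tendsto (exp : 𝔸 → 𝔸) (𝓝 0) (𝓝 1) := by
  have := (exp_strict p 𝔸).continuousAt
  rwa [ContinuousAt, exp_zero] at this

theorem exists_expBall : ∃ r, ExpBall p 𝔸 r := by
  have h1 := (exp_strict p 𝔸).eventually_left_inverse
  have h2 : ∀ᶠ x in 𝓝 (0 : 𝔸), x ∈ eball (0 : 𝔸) (expSeries ℚ_[p] 𝔸).radius :=
    eball_mem_nhds _ (exp_radius_pos p 𝔸)
  obtain ⟨r, hr, h⟩ := Metric.eventually_nhds_iff.mp (h1.and h2)
  simp only [dist_zero_right] at h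
  refine ⟨r, hr, fun x hx => (h hx).2, fun x y hx hy hxy => ?_⟩
  rw [← (h hx).1, ← (h hy).1, hxy]

include p hp in
theorem eventually_exists_exp {r : ℝ} (hr : 0 < r) :
    ∀ᶠ y in 𝓝 (1 : 𝔸), ∃ X : 𝔸, ‖X‖ < r ∧ exp X = y := by
  have h1 : ∀ᶠ y in 𝓝 (1 : 𝔸), ‖plog p 𝔸 y‖ < r := by
    have := (tendsto_plog p 𝔸).eventually (ball_mem_nhds (0 : 𝔸) hr)
    simpa using this
  filter_upwards [h1, eventually_exp_plog p 𝔸] with y h1 h2
  exact ⟨_, h1, h2⟩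

variable {p 𝔸}

omit [CompleteSpace 𝔸] in
theorem ExpBall.mono {r r' : ℝ} (h : ExpBall p 𝔸 r) (h0 : 0 < r') (hle : r' ≤ r) :
    ExpBall p 𝔸 r' :=
  ⟨h0, fun x hx => h.mem x (hx.trans_le hle),
    fun x y hx hy => h.inj x y (hx.trans_le hle) (hy.trans_le hle)⟩

omit [CompleteSpace 𝔸] in
theorem norm_smul_lt {r : ℝ} {X : 𝔸} (hX : ‖X‖ < r) {t : ℚ_[p]} (ht : ‖t‖ ≤ 1) :
    ‖t • X‖ < r := by
  rw [norm_smul]
  exact (mul_le_of_le_one_left (norm_nonneg _) ht).trans_lt hX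

theorem ExpBall.exp_add_smul {r : ℝ} (h : ExpBall p 𝔸 r) {X : 𝔸} (hX : ‖X‖ < r)
    {s t : ℚ_[p]} (hs : ‖s‖ ≤ 1) (ht : ‖t‖ ≤ 1) :
    exp ((s + t) • X) = exp (s • X) * exp (t • X) := by
  rw [add_smul]
  exact exp_add_of_commute_of_mem_ball (((Commute.refl X).smul_left s).smul_right t)
    (h.mem _ (norm_smul_lt hX hs)) (h.mem _ (norm_smul_lt hX ht))

theorem norm_natCast_le (k : ℕ) : ‖(k : ℚ_[p])‖ ≤ 1 := by
  have := Padic.norm_int_le_one (p := p) (k : ℤ)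
  simpa using this

theorem ExpBall.exp_natCast_smul {r : ℝ} (h : ExpBall p 𝔸 r) {X : 𝔸} (hX : ‖X‖ < r) (k : ℕ) :
    exp ((k : ℚ_[p]) • X) = exp X ^ k := by
  induction k with
  | zero => simp
  | succ k ih =>
    rw [Nat.cast_succ, h.exp_add_smul hX (norm_natCast_le k) (by simp), ih, one_smul, pow_succ]

theorem ExpBall.exp_mul_exp_neg {r : ℝ} (h : ExpBall p 𝔸 r) {X : 𝔸} (hX : ‖X‖ < r) :
    exp X * exp (-X) = 1 := by
  have := h.exp_add_smul hX (s := 1) (t := -1) (by simp) (by simp)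
  simpa using this.symm

theorem ExpBall.exp_neg_mul_exp {r : ℝ} (h : ExpBall p 𝔸 r) {X : 𝔸} (hX : ‖X‖ < r) :
    exp (-X) * exp X = 1 := by
  have := h.exp_add_smul hX (s := -1) (t := 1) (by simp) (by simp)
  simpa using this.symm

theorem ExpBall.continuous_smul {r : ℝ} (h : ExpBall p 𝔸 r) {X : 𝔸} (hX : ‖X‖ < r) :
    Continuous fun t : ℤ_[p] => exp ((t : ℚ_[p]) • X) := by
  refine (continuousOn_exp (𝕂 := ℚ_[p])).comp_continuous (by fun_prop) fun t => ?_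
  exact h.mem _ (norm_smul_lt hX t.2)

/-- A closed property of `p`-adic integers that holds on the naturals holds everywhere. -/
theorem padicInt_induction {S : Set ℤ_[p]} (hS : IsClosed S) (h : ∀ k : ℕ, (k : ℤ_[p]) ∈ S)
    (t : ℤ_[p]) : t ∈ S := by
  have : closure (range (Nat.cast : ℕ → ℤ_[p])) ⊆ S :=
    hS.closure_subset_iff.mpr (by rintro _ ⟨k, rfl⟩; exact h k)
  exact this (PadicInt.denseRange_natCast t)

theorem ExpBall.exp_smul_mem {r : ℝ} (h : ExpBall p 𝔸 r) {Γ : Submonoid 𝔸}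
    (hΓ : IsClosed (Γ : Set 𝔸)) {X : 𝔸} (hX : ‖X‖ < r) (hmem : exp X ∈ Γ)
    {t : ℚ_[p]} (ht : ‖t‖ ≤ 1) : exp (t • X) ∈ Γ := by
  have := padicInt_induction (S := (fun t : ℤ_[p] => exp ((t : ℚ_[p]) • X)) ⁻¹' Γ)
    (hΓ.preimage (h.continuous_smul hX)) (fun k => by
      simp only [mem_preimage, PadicInt.coe_natCast, SetLike.mem_coe]
      rw [h.exp_natCast_smul hX]
      exact Γ.pow_mem hmem k) ⟨t, ht⟩
  exact this

theorem eventually_norm_le_one : ∀ᶠ t in 𝓝 (0 : ℚ_[p]), ‖t‖ ≤ 1 := by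
  have := closedBall_mem_nhds (0 : ℚ_[p]) one_pos
  filter_upwards [this] with t ht
  simpa using ht

omit [CompleteSpace 𝔸] in
theorem eventually_norm_smul_lt {E : Type*} [NormedAddCommGroup E] [NormedSpace ℚ_[p] E]
    (X : E) {r : ℝ} (hr : 0 < r) : ∀ᶠ t in 𝓝 (0 : ℚ_[p]), ‖t • X‖ < r := by
  have h : Tendsto (fun t : ℚ_[p] => t • X) (𝓝 0) (𝓝 0) := by
    have : Continuous fun t : ℚ_[p] => t • X := by fun_prop
    simpa using this.tendsto 0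
  have := h.eventually (ball_mem_nhds (0 : E) hr)
  simpa using this

theorem hasDerivAt_exp_smul (X : 𝔸) : HasDerivAt (fun t : ℚ_[p] => exp (t • X)) X 0 := by
  have := hasDerivAt_exp_smul_const_of_mem_ball (𝕂 := ℚ_[p]) X 0
    (by simpa using exp_radius_pos p 𝔸)
  simpa using this

/-- The derivative of a curve with values in a closed submodule lies in the submodule. -/
theorem deriv_mem_of_eventually_mem {E : Type*} [NormedAddCommGroup E] [NormedSpace ℚ_[p] E]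
    (S : Submodule ℚ_[p] E) (hS : IsClosed (S : Set E)) {f : ℚ_[p] → E} {f' : E}
    (hf : HasDerivAt f f' 0) (h : ∀ᶠ t in 𝓝 (0 : ℚ_[p]), f t ∈ S) : f' ∈ S := by
  have h1 := hasDerivAt_iff_tendsto_slope_zero.mp hf
  refine hS.mem_of_tendsto h1 ?_
  filter_upwards [nhdsWithin_le_nhds h] with t ht
  simp only [zero_add, SetLike.mem_coe]
  exact S.smul_mem _ (S.sub_mem ht h.self_of_nhds)

theorem deriv_eq_zero_of_eventually_eq {E : Type*} [NormedAddCommGroup E] [NormedSpace ℚ_[p] E]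
    {f : ℚ_[p] → E} {f' c : E} (hf : HasDerivAt f f' 0) (h : ∀ᶠ t in 𝓝 (0 : ℚ_[p]), f t = c) :
    f' = 0 :=
  hf.unique ((hasDerivAt_const (0 : ℚ_[p]) c).congr_of_eventuallyEq h)

theorem hasDerivAt_conj_exp (X Y : 𝔸) :
    HasDerivAt (fun t : ℚ_[p] => exp (t • Y) * X * exp (t • (-Y))) (Y * X - X * Y) 0 := by
  have h := ((hasDerivAt_exp_smul (p := p) Y).mul_const X).mul (hasDerivAt_exp_smul (p := p) (-Y))
  refine HasDerivAt.congr_deriv h ?_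
  simp [sub_eq_add_neg]

end Exp

section Lie

variable (p)
variable {𝔸 𝔹 : Type*} [NormedRing 𝔸] [NormedAlgebra ℚ_[p] 𝔸] [NormedRing 𝔹]
  [NormedAlgebra ℚ_[p] 𝔹]

/-- The infinitesimal generators of one-parameter subgroups contained in `Γ`. -/
def lieSet (Γ : Set 𝔸) : Set 𝔸 := {X | ∀ᶠ t in 𝓝 (0 : ℚ_[p]), exp (t • X) ∈ Γ}

variable {p}

theorem map_mem_lieSet [CompleteSpace 𝔸] (f : 𝔸 →ₐ[ℚ_[p]] 𝔹) (hf : Continuous f) {Γ : Set 𝔸}
    {Γ' : Set 𝔹} (h : MapsTo f Γ Γ') {X : 𝔸} (hX : X ∈ lieSet p Γ) : f X ∈ lieSet p Γ' := by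
  obtain ⟨r, hr⟩ := exists_expBall p 𝔸
  filter_upwards [hX, eventually_norm_smul_lt (p := p) X hr.pos] with t h1 h2
  rw [← map_smul, ← map_exp_of_mem_ball f hf _ (hr.mem _ h2)]
  exact h h1

/-- Conjugation by a unit, as an algebra homomorphism. -/
def conjAlg (u : 𝔸ˣ) : 𝔸 →ₐ[ℚ_[p]] 𝔸 where
  toFun y := u * y * ↑u⁻¹
  map_one' := by simp
  map_mul' x y := by simp [mul_assoc]
  map_zero' := by simp
  map_add' x y := by simp [mul_add, add_mul]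
  commutes' r := by simp [Algebra.algebraMap_eq_smul_one]

theorem conjAlg_apply (u : 𝔸ˣ) (y : 𝔸) : conjAlg (p := p) u y = u * y * ↑u⁻¹ := rfl

theorem continuous_conjAlg (u : 𝔸ˣ) : Continuous (conjAlg (p := p) u) := by
  show Continuous fun y : 𝔸 => (u : 𝔸) * y * ↑u⁻¹
  fun_prop

theorem conj_mem_lieSet [CompleteSpace 𝔸] (u : 𝔸ˣ) {Γ Γ' : Set 𝔸}
    (h : ∀ y ∈ Γ, (u : 𝔸) * y * ↑u⁻¹ ∈ Γ') {X : 𝔸} (hX : X ∈ lieSet p Γ) :
    (u : 𝔸) * X * ↑u⁻¹ ∈ lieSet p Γ' :=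
  map_mem_lieSet (conjAlg u) (continuous_conjAlg u) h hX

theorem ExpBall.mem_lieSet [CompleteSpace 𝔸] {r : ℝ} (h : ExpBall p 𝔸 r) {Γ : Submonoid 𝔸}
    (hΓ : IsClosed (Γ : Set 𝔸)) {X : 𝔸} (hX : ‖X‖ < r) (hmem : exp X ∈ Γ) :
    X ∈ lieSet p (Γ : Set 𝔸) := by
  filter_upwards [eventually_norm_le_one (p := p)] with t ht
  exact h.exp_smul_mem hΓ hX hmem ht

/-- The Lie algebra of a monoid contained in a closed subspace lies in that subspace. -/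
theorem mem_of_mem_lieSet [CompleteSpace 𝔸] (S : Submodule ℚ_[p] 𝔸) (hS : IsClosed (S : Set 𝔸))
    {Γ : Set 𝔸} (h : Γ ⊆ S) {X : 𝔸} (hX : X ∈ lieSet p Γ) : X ∈ S :=
  deriv_mem_of_eventually_mem S hS (hasDerivAt_exp_smul X) (hX.mono fun _ ht => h ht)

theorem hasStrictFDerivAt_list_prod {E ι : Type*} [NormedAddCommGroup E] [NormedSpace ℚ_[p] E]
    (f : ι → E → 𝔸) (f' : ι → E →L[ℚ_[p]] 𝔸) (x : E) (l : List ι)
    (h : ∀ i, HasStrictFDerivAt (f i) (f' i) x) (h1 : ∀ i, f i x = 1) :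
    HasStrictFDerivAt (fun y => (l.map fun i => f i y).prod) (l.map f').sum x := by
  induction l with
  | nil => simpa using hasStrictFDerivAt_const (1 : 𝔸) x
  | cons i l ih =>
    have := (h i).mul' ih
    simp only [List.map_cons, List.prod_cons, List.sum_cons]
    refine HasStrictFDerivAt.congr_fderiv this ?_
    ext y
    simp [h1, add_comm]

variable [FiniteDimensional ℚ_[p] 𝔸]

theorem exists_exp_mem_of_span {r : ℝ} [CompleteSpace 𝔸] (h : ExpBall p 𝔸 r) {Γ : Submonoid 𝔸}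
    (hΓ : IsClosed (Γ : Set 𝔸)) :
    ∃ ε > 0, ∀ X ∈ Submodule.span ℚ_[p] {X : 𝔸 | ‖X‖ < r ∧ exp X ∈ Γ}, ‖X‖ < ε → exp X ∈ Γ := by
  classical
  set Λ : Set 𝔸 := {X : 𝔸 | ‖X‖ < r ∧ exp X ∈ Γ} with hΛ
  set g := Submodule.span ℚ_[p] Λ with hg
  obtain ⟨b, hbΛ, hbspan, hbli⟩ := exists_linearIndependent ℚ_[p] Λ
  have hbfin : b.Finite := hbli.setFinite
  have : Fintype b := hbfin.fintype
  obtain ⟨q, hq⟩ := g.exists_isCompl
  let P : 𝔸 →L[ℚ_[p]] g := LinearMap.toContinuousLinearMap (g.projectionOnto q hq)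
  have hP : ∀ x : g, P x = x := fun x => Submodule.projectionOnto_apply_left hq x
  have : CompleteSpace g := FiniteDimensional.complete ℚ_[p] g
  let f : b → (b → ℚ_[p]) → 𝔸 := fun i t => exp (t i • (i : 𝔸))
  let f' : b → (b → ℚ_[p]) →L[ℚ_[p]] 𝔸 := fun i =>
    (ContinuousLinearMap.proj i : (b → ℚ_[p]) →L[ℚ_[p]] ℚ_[p]).smulRight (i : 𝔸)
  have hf : ∀ i, HasStrictFDerivAt (f i) (f' i) 0 := by
    intro i
    have h0 : HasStrictFDerivAt (exp : 𝔸 → 𝔸)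
        ((ContinuousLinearEquiv.refl ℚ_[p] 𝔸 : 𝔸 ≃L[ℚ_[p]] 𝔸) : 𝔸 →L[ℚ_[p]] 𝔸) (f' i 0) := by
      rw [map_zero]; exact exp_strict p 𝔸
    exact h0.comp 0 (f' i).hasStrictFDerivAt
  have hf1 : ∀ i, f i 0 = 1 := fun i => by simp [f]
  let l : List b := Finset.univ.toList
  let Pr : (b → ℚ_[p]) → 𝔸 := fun y => (l.map fun i => f i y).prod
  have hPr : HasStrictFDerivAt Pr (l.map f').sum 0 := hasStrictFDerivAt_list_prod f f' 0 l hf hf1
  have hPr0 : Pr 0 = 1 := by simp [Pr, hf1]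
  have hlog : HasStrictFDerivAt (plog p 𝔸) (ContinuousLinearMap.id ℚ_[p] 𝔸) (Pr 0) := by
    rw [hPr0]; exact plog_strict p 𝔸
  have hΨ := (P.hasStrictFDerivAt (x := plog p 𝔸 (Pr 0))).comp 0 (hlog.comp 0 hPr)
  have hsurj : (P.comp ((ContinuousLinearMap.id ℚ_[p] 𝔸).comp (l.map f').sum)).range = ⊤ := by
    rw [eq_top_iff]
    rintro ⟨X, hX⟩ -
    have hX' : X ∈ Submodule.span ℚ_[p] (range ((↑) : b → 𝔸)) := by
      rw [Subtype.range_coe, hbspan]; exact hX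
    obtain ⟨c, hc⟩ := (Submodule.mem_span_range_iff_exists_fun ℚ_[p]).mp hX'
    refine ⟨c, ?_⟩
    have : (l.map f').sum c = X := by
      rw [← hc, Finset.sum_map_toList]
      simp [f']
    simp only [ContinuousLinearMap.coe_coe, ContinuousLinearMap.comp_apply,
      ContinuousLinearMap.id_apply, this]
    exact hP ⟨X, hX⟩
  have hmap := hΨ.map_nhds_eq_of_surj hsurj
  have hT : ∀ᶠ t in 𝓝 (0 : b → ℚ_[p]),
      Pr t ∈ Γ ∧ exp (plog p 𝔸 (Pr t)) = Pr t ∧ ‖plog p 𝔸 (Pr t)‖ < r := by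
    have hc : Tendsto Pr (𝓝 0) (𝓝 1) := by
      have := hPr.continuousAt
      rwa [ContinuousAt, hPr0] at this
    have h1 : ∀ᶠ y in 𝓝 (1 : 𝔸), ‖plog p 𝔸 y‖ < r := by
      have := (tendsto_plog p 𝔸).eventually (ball_mem_nhds (0 : 𝔸) h.pos)
      simpa using this
    filter_upwards [closedBall_mem_nhds (0 : b → ℚ_[p]) one_pos,
      hc.eventually (eventually_exp_plog p 𝔸), hc.eventually h1] with t ht h2 h3
    refine ⟨?_, h2, h3⟩
    apply Γ.list_prod_mem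
    intro y hy
    obtain ⟨i, -, rfl⟩ := List.mem_map.mp hy
    have hi := hbΛ i.2
    refine h.exp_smul_mem hΓ hi.1 hi.2 ?_
    exact (norm_le_pi_norm t i).trans (by simpa using ht)
  have hev : ∀ᶠ X : g in 𝓝 0, exp (X : 𝔸) ∈ Γ := by
    have e0 : P (plog p 𝔸 (Pr 0)) = 0 := by rw [hPr0, plog_one, map_zero]
    have := image_mem_map (m := fun t => P (plog p 𝔸 (Pr t))) hT
    erw [hmap] at this
    rw [e0] at this
    filter_upwards [this] with X hX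
    obtain ⟨t, ⟨h1, h2, h3⟩, rfl⟩ := hX
    have hm : plog p 𝔸 (Pr t) ∈ g := Submodule.subset_span ⟨h3, by rw [h2]; exact h1⟩
    have := hP ⟨_, hm⟩
    simp only at this ⊢
    rw [this]
    simp only
    rw [h2]; exact h1
  obtain ⟨ε, hε, hh⟩ := Metric.eventually_nhds_iff.mp hev
  refine ⟨ε, hε, fun X hX hn => ?_⟩
  exact hh (y := ⟨X, hX⟩) (by simpa using hn)

attribute [local instance 100] LieRing.ofAssociativeRing

/-- `g` is the Lie algebra of `Γ`. -/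
def IsLie (Γ : Set 𝔸) (g : LieSubalgebra ℚ_[p] 𝔸) : Prop := ∀ X, X ∈ g ↔ X ∈ lieSet p Γ

theorem lieSet_eq_span {r : ℝ} [CompleteSpace 𝔸] (h : ExpBall p 𝔸 r) {Γ : Submonoid 𝔸}
    (hΓ : IsClosed (Γ : Set 𝔸)) (X : 𝔸) :
    X ∈ Submodule.span ℚ_[p] {X : 𝔸 | ‖X‖ < r ∧ exp X ∈ Γ} ↔ X ∈ lieSet p (Γ : Set 𝔸) := by
  obtain ⟨ε, hε, hh⟩ := exists_exp_mem_of_span h hΓ
  constructor
  · intro hX
    filter_upwards [eventually_norm_smul_lt (p := p) X hε] with t ht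
    exact hh _ (Submodule.smul_mem _ _ hX) ht
  · intro hX
    have h1 := nhdsWithin_le_nhds (s := {0}ᶜ) (hX.and (eventually_norm_smul_lt (p := p) X h.pos))
    obtain ⟨t, ⟨h2, h3⟩, h4⟩ := (Filter.Eventually.and h1 self_mem_nhdsWithin).exists
    have h5 : t ≠ 0 := h4
    have : X = t⁻¹ • t • X := by rw [smul_smul, inv_mul_cancel₀ h5, one_smul]
    rw [this]
    exact Submodule.smul_mem _ _ (Submodule.subset_span ⟨h3, h2⟩)

omit [FiniteDimensional ℚ_[p] 𝔸] in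
/-- The unit `exp X` for small `X`. -/
noncomputable def ExpBall.unit [CompleteSpace 𝔸] {r : ℝ} (h : ExpBall p 𝔸 r) {X : 𝔸}
    (hX : ‖X‖ < r) : 𝔸ˣ :=
  ⟨exp X, exp (-X), h.exp_mul_exp_neg hX, h.exp_neg_mul_exp hX⟩

theorem exists_isLie {Γ : Submonoid 𝔸} (hΓ : IsClosed (Γ : Set 𝔸)) :
    ∃ g : LieSubalgebra ℚ_[p] 𝔸, IsLie (Γ : Set 𝔸) g := by
  have : CompleteSpace 𝔸 := FiniteDimensional.complete ℚ_[p] 𝔸
  obtain ⟨r, h⟩ := exists_expBall p 𝔸
  set S := Submodule.span ℚ_[p] {X : 𝔸 | ‖X‖ < r ∧ exp X ∈ Γ} with hS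
  have hiff : ∀ X, X ∈ S ↔ X ∈ lieSet p (Γ : Set 𝔸) := lieSet_eq_span h hΓ
  refine ⟨{ S with lie_mem' := ?_ }, hiff⟩
  intro Y X hY hX
  have hY1 : Y ∈ lieSet p (Γ : Set 𝔸) := (hiff Y).mp hY
  have hY2 : -Y ∈ lieSet p (Γ : Set 𝔸) := (hiff _).mp (S.neg_mem hY)
  refine deriv_mem_of_eventually_mem S S.closed_of_finiteDimensional (hasDerivAt_conj_exp X Y) ?_
  filter_upwards [hY1, hY2, eventually_norm_smul_lt (p := p) Y h.pos] with t h1 h2 h3
  rw [hiff]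
  have := conj_mem_lieSet (p := p) (h.unit h3) (Γ := Γ) (Γ' := Γ) (fun y hy => by
    refine Γ.mul_mem (Γ.mul_mem h1 hy) ?_
    show exp (-(t • Y)) ∈ Γ
    rw [← smul_neg]; exact h2) ((hiff X).mp hX)
  rw [smul_neg]
  exact this

theorem IsLie.exists_exp_mem {Γ : Submonoid 𝔸} (hΓ : IsClosed (Γ : Set 𝔸))
    {g : LieSubalgebra ℚ_[p] 𝔸} (hg : IsLie (Γ : Set 𝔸) g) :
    ∃ ε > 0, ∀ X ∈ g, ‖X‖ < ε → exp X ∈ Γ := by
  have : CompleteSpace 𝔸 := FiniteDimensional.complete ℚ_[p] 𝔸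
  obtain ⟨r, h⟩ := exists_expBall p 𝔸
  obtain ⟨ε, hε, hh⟩ := exists_exp_mem_of_span h hΓ
  exact ⟨ε, hε, fun X hX => hh X ((lieSet_eq_span h hΓ X).mpr ((hg X).mp hX))⟩

end Lie

end Pool.Agent.Lib.MP_dd16b7_nt
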