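import Mathlib

/-!
Free pro-`p` groups, their continuous automorphism groups and Weil groups.
-/

namespace Pool.Agent.Lib.MP_dd16b7_nt

/-- A (profinite) group is pro-`p` if all its quotients by open normal subgroups are `p`-groups. -/
def IsProP (p : ℕ) (G : Type) [Group G] [TopologicalSpace G] : Prop :=
  ∀ U : OpenNormalSubgroup G, IsPGroup p (G ⧸ U.toSubgroup)

/-- The (profinite) group `F` is the free pro-`p` group on `x 0, …, x (d-1)`: it is pro-`p` and
every choice of images of the `x i` in a pro-`p` group extends uniquely to a continuous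
homomorphism. -/
def IsFreeProP (p : ℕ) {d : ℕ} {F : Type} [Group F] [TopologicalSpace F] (x : Fin d → F) : Prop :=
  IsProP p F ∧
    ∀ (P : Type) [Group P] [TopologicalSpace P] [IsTopologicalGroup P] [CompactSpace P]
      [TotallyDisconnectedSpace P], IsProP p P →
      ∀ y : Fin d → P, ∃! f : F →* P, Continuous f ∧ ∀ i, f (x i) = y i

/-- The group of continuous automorphisms (with continuous inverse) of a topological group. -/
def ContAut (F : Type) [Group F] [TopologicalSpace F] : Subgroup (MulAut F) where
  carrier := {φ | Continuous φ ∧ Continuous φ.symm}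
  one_mem' := ⟨continuous_id, continuous_id⟩
  mul_mem' := fun h k => ⟨h.1.comp k.1, k.2.comp h.2⟩
  inv_mem' := fun h => ⟨h.2, h.1⟩

/-- The compact-open topology on the group of continuous automorphisms. -/
instance contAutTopology (F : Type) [Group F] [TopologicalSpace F] :
    TopologicalSpace (ContAut F) :=
  TopologicalSpace.induced (fun φ => (⟨φ.1, φ.2.1⟩ : C(F, F))) inferInstance

/-- The Weil group `F ⋊ ℤ`, the generator of `ℤ` acting on `F` by `φ`. -/
abbrev Weil {F : Type} [Group F] [TopologicalSpace F] (φ : ContAut F) : Type :=
  F ⋊[zpowersHom (MulAut F) φ.1] Multiplicative ℤ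

end Pool.Agent.Lib.MP_dd16b7_nt
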