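import Mathlib
import Pool.Agent.Lib.MP_dd16b7_nt.Defs

/-!
Basic facts on free pro-`p` groups of finite rank: generation, Frattini argument, Hopf property,
and the topology of the automorphism group.
-/

namespace Pool.Agent.Lib.MP_dd16b7_nt

open Filter Topology Set

variable {p : ℕ} [hp : Fact p.Prime]

theorem finite_frattini {P : Type*} [Group P] [Finite P] (hP : IsPGroup p P) (H : Subgroup P)
    (hH : H ≠ ⊤) : ∃ U : Subgroup P, U.Normal ∧ U.index = p ∧ H ≤ U := by
  obtain ⟨M, hM, hHM⟩ := (eq_top_or_exists_le_coatom H).resolve_left hH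
  have := hP.isNilpotent
  have hn : M.Normal :=
    Subgroup.NormalizerCondition.normal_of_coatom M Group.normalizerCondition_of_isNilpotent hM
  refine ⟨M, hn, ?_, hHM⟩
  have hQ : IsPGroup p (P ⧸ M) := hP.to_quotient M
  have hnt : Nontrivial (P ⧸ M) := QuotientGroup.nontrivial_iff.mpr hM.1
  obtain ⟨k, hk0, hk⟩ := hQ.nontrivial_iff_card.mp hnt
  obtain ⟨g, hg⟩ := exists_prime_orderOf_dvd_card' (G := P ⧸ M) p
    (by rw [hk]; exact dvd_pow_self p hk0.ne')
  have hg1 : g ≠ 1 := by
    rintro rfl
    rw [orderOf_one] at hg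
    exact hp.out.one_lt.ne hg
  have hK : (Subgroup.zpowers g).comap (QuotientGroup.mk' M) = ⊤ := by
    apply hM.2
    refine lt_of_le_of_ne (fun a ha => ?_) fun h => ?_
    · rw [Subgroup.mem_comap, QuotientGroup.mk'_apply, (QuotientGroup.eq_one_iff a).mpr ha]
      exact one_mem _
    · obtain ⟨a, rfl⟩ := QuotientGroup.mk_surjective g
      apply hg1
      rw [QuotientGroup.eq_one_iff, h]
      exact Subgroup.mem_zpowers _
  have hz : Subgroup.zpowers g = ⊤ := by
    rw [eq_top_iff]
    intro b _
    obtain ⟨a, rfl⟩ := QuotientGroup.mk_surjective b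
    have : a ∈ (Subgroup.zpowers g).comap (QuotientGroup.mk' M) := by rw [hK]; trivial
    exact this
  rw [Subgroup.index_eq_card, ← hg, ← Nat.card_zpowers, hz, Subgroup.card_top]

variable {F : Type} [Group F] [TopologicalSpace F] [IsTopologicalGroup F] [CompactSpace F]
  [TotallyDisconnectedSpace F]

theorem IsProP.frattini (hF : IsProP p F) (H : Subgroup F) (hc : IsClosed (H : Set F))
    (hH : H ≠ ⊤) : ∃ U : Subgroup F, U.Normal ∧ IsOpen (U : Set F) ∧ U.index = p ∧ H ≤ U := by
  have h1 := ProfiniteGrp.closedSubgroup_eq_sInf_open (⟨H, hc⟩ : ClosedSubgroup F)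
  obtain ⟨N, hNo, hHN, hN⟩ : ∃ N : Subgroup F, IsOpen (N : Set F) ∧ H ≤ N ∧ N ≠ ⊤ := by
    by_contra hcon
    push Not at hcon
    apply hH
    rw [eq_top_iff]
    refine le_trans ?_ h1.ge
    exact le_sInf fun N hN => (hcon N hN.1 hN.2).ge
  obtain ⟨V, hV⟩ := ProfiniteGrp.exist_openNormalSubgroup_sub_open_nhds_of_one hNo N.one_mem
  have hVN : V.toSubgroup ≤ N := hV
  have : Finite (F ⧸ V.toSubgroup) := V.toSubgroup.quotient_finite_of_isOpen V.isOpen
  have hne : N.map (QuotientGroup.mk' V.toSubgroup) ≠ ⊤ := by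
    intro h
    apply hN
    have := congrArg (Subgroup.comap (QuotientGroup.mk' V.toSubgroup)) h
    rwa [Subgroup.comap_map_eq, QuotientGroup.ker_mk', sup_eq_left.mpr hVN,
      Subgroup.comap_top] at this
  obtain ⟨U, hUn, hUi, hU⟩ := finite_frattini (hF V) _ hne
  have hle : N ≤ U.comap (QuotientGroup.mk' V.toSubgroup) := Subgroup.map_le_iff_le_comap.mp hU
  refine ⟨U.comap (QuotientGroup.mk' V.toSubgroup), inferInstance, Subgroup.isOpen_mono hle hNo,
    ?_, hHN.trans hle⟩
  rw [Subgroup.index_comap_of_surjective _ (QuotientGroup.mk'_surjective _), hUi]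

omit hp in
theorem inv_mem_of_isClosed (S : Submonoid F) (hS : IsClosed (S : Set F)) {g : F} (hg : g ∈ S) :
    g⁻¹ ∈ S := by
  have : g⁻¹ ∈ closure (S : Set F) := by
    rw [mem_closure_iff]
    intro o ho hgo
    obtain ⟨V, hV⟩ := ProfiniteGrp.exist_openNormalSubgroup_sub_open_nhds_of_one
      (ho.preimage (continuous_const_mul g⁻¹)) (by simpa using hgo)
    have : Finite (F ⧸ V.toSubgroup) := V.toSubgroup.quotient_finite_of_isOpen V.isOpen
    have hfi : V.toSubgroup.FiniteIndex := Subgroup.finiteIndex_of_finite_quotient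
    obtain ⟨n, hn0, -, hn⟩ := V.toSubgroup.exists_pow_mem_of_index_ne_zero hfi.index_ne_zero g
    obtain ⟨k, rfl⟩ := Nat.exists_eq_succ_of_ne_zero hn0.ne'
    refine ⟨g ^ k, ?_, S.pow_mem hg k⟩
    have := hV hn
    simpa [pow_succ'] using this
  rwa [hS.closure_eq] at this

variable {d : ℕ} {x : Fin d → F}

omit hp [TotallyDisconnectedSpace F] in
theorem IsFreeProP.eq_top_of_index (hF : IsFreeProP p x) (U : Subgroup F) [U.Normal]
    (hU : IsOpen (U : Set F)) (hx : ∀ i, x i ∈ U) : U = ⊤ := by
  have : DiscreteTopology (F ⧸ U) := QuotientGroup.discreteTopology hU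
  have hP : IsProP p (F ⧸ U) := fun V => (hF.1 ⟨⟨U, hU⟩, inferInstance⟩).to_quotient _
  have h := (hF.2 (F ⧸ U) hP fun _ => 1).unique (y₁ := QuotientGroup.mk' U) (y₂ := 1)
    ⟨QuotientGroup.continuous_mk, fun i => (QuotientGroup.eq_one_iff _).mpr (hx i)⟩
    ⟨continuous_const, fun _ => rfl⟩
  rw [← QuotientGroup.ker_mk' U, h, MonoidHom.ker_one]

theorem IsFreeProP.subgroup_eq_top (hF : IsFreeProP p x) (H : Subgroup F)
    (hc : IsClosed (H : Set F)) (hx : ∀ i, x i ∈ H) : H = ⊤ := by
  by_contra hH
  obtain ⟨U, hUn, hUo, hUi, hU⟩ := hF.1.frattini H hc hH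
  rw [hF.eq_top_of_index U hUo fun i => hU (hx i), Subgroup.index_top] at hUi
  exact hp.out.one_lt.ne hUi

/-- Generation principle. -/
theorem IsFreeProP.induction (hF : IsFreeProP p x) {S : Set F} (hc : IsClosed S) (h1 : (1 : F) ∈ S)
    (hmul : ∀ a ∈ S, ∀ b ∈ S, a * b ∈ S) (hx : ∀ i, x i ∈ S) (g : F) : g ∈ S := by
  let M : Submonoid F := ⟨⟨S, fun ha hb => hmul _ ha _ hb⟩, h1⟩
  let H : Subgroup F := { M with inv_mem' := fun hg => inv_mem_of_isClosed M hc hg }
  have : g ∈ H := by rw [hF.subgroup_eq_top H hc hx]; trivial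
  exact this

theorem IsFreeProP.hom_ext (hF : IsFreeProP p x) {M : Type*} [Monoid M] [TopologicalSpace M]
    [T2Space M] {f g : F →* M} (hf : Continuous f) (hg : Continuous g)
    (h : ∀ i, f (x i) = g (x i)) : f = g :=
  MonoidHom.ext fun a => hF.induction (S := {a | f a = g a}) (isClosed_eq hf hg) (by simp)
    (fun a ha b hb => by simp only [mem_ofPred_eq, map_mul] at *; rw [ha, hb]) h a

variable (F) in
/-- The intersection of the kernels of all continuous actions on `m` points. -/
def level (m : ℕ) : Subgroup F :=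
  ⨅ f : {f : F →* Equiv.Perm (Fin m) // IsOpen (f.ker : Set F)}, f.1.ker

omit [IsTopologicalGroup F] [CompactSpace F] [TotallyDisconnectedSpace F] in
theorem mem_level {m : ℕ} {g : F} : g ∈ level F m ↔
    ∀ f : F →* Equiv.Perm (Fin m), IsOpen (f.ker : Set F) → f g = 1 := by
  simp [level, Subgroup.mem_iInf]

instance level_normal (m : ℕ) : (level F m).Normal :=
  Subgroup.normal_iInf_normal fun _ => inferInstance

theorem IsFreeProP.isOpen_level (hF : IsFreeProP p x) (m : ℕ) : IsOpen (level F m : Set F) := by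
  have : Finite {f : F →* Equiv.Perm (Fin m) // IsOpen (f.ker : Set F)} := by
    refine Finite.of_injective (fun f => fun i => f.1 (x i)) fun f g h => ?_
    have ho : IsOpen (f.1.eqLocus g.1 : Set F) := by
      refine Subgroup.isOpen_mono (H₁ := f.1.ker ⊓ g.1.ker) (fun a ha => ?_) (f.2.inter g.2)
      exact (ha.1 : f.1 a = 1).trans (ha.2 : g.1 a = 1).symm
    have := hF.subgroup_eq_top _ (Subgroup.isClosed_of_isOpen _ ho) fun i => congrFun h i
    refine Subtype.ext (MonoidHom.ext fun a => ?_)
    have ha : a ∈ f.1.eqLocus g.1 := by rw [this]; trivial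
    exact ha
  rw [level, Subgroup.coe_iInf]
  exact isOpen_iInter_of_finite fun f => f.2

omit [IsTopologicalGroup F] [CompactSpace F] [TotallyDisconnectedSpace F] in
theorem map_mem_level {m : ℕ} (ψ : F →* F) (hψ : Continuous ψ) {g : F} (hg : g ∈ level F m) :
    ψ g ∈ level F m := by
  rw [mem_level] at hg ⊢
  exact fun f hf => hg (f.comp ψ) (hf.preimage hψ)

omit [TotallyDisconnectedSpace F] in
theorem level_le (U : Subgroup F) (hU : IsOpen (U : Set F)) : level F U.index ≤ U := by
  have : Finite (F ⧸ U) := U.quotient_finite_of_isOpen hU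
  have hfi : U.FiniteIndex := Subgroup.finiteIndex_of_finite_quotient
  let e : (F ⧸ U) ≃ Fin U.index := Finite.equivFinOfCardEq rfl
  let f : F →* Equiv.Perm (Fin U.index) :=
    e.permCongrHom.toMonoidHom.comp (MulAction.toPermHom F (F ⧸ U))
  have hker : f.ker = U.normalCore := by
    rw [Subgroup.normalCore_eq_ker]
    ext a
    simp only [MonoidHom.mem_ker, f, MonoidHom.comp_apply, MulEquiv.coe_toMonoidHom,
      EmbeddingLike.map_eq_one_iff]
  intro g hg
  have ho : IsOpen (f.ker : Set F) := by
    rw [hker]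
    exact Subgroup.isOpen_of_isClosed_of_finiteIndex _
      (Subgroup.normalCore_isClosed U (U.isClosed_of_isOpen hU))
  have : g ∈ f.ker := mem_level.mp hg f ho
  rw [hker] at this
  exact U.normalCore_le this

theorem exists_level_subset {s : Set F} (hs : s ∈ 𝓝 (1 : F)) : ∃ m, (level F m : Set F) ⊆ s := by
  obtain ⟨t, hts, ht, h1⟩ := mem_nhds_iff.mp hs
  obtain ⟨V, hV⟩ := ProfiniteGrp.exist_openNormalSubgroup_sub_open_nhds_of_one ht h1
  exact ⟨_, fun g hg => hts (hV (level_le V.toSubgroup V.isOpen hg))⟩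

theorem eq_one_of_mem_level {g : F} (h : ∀ m, g ∈ level F m) : g = 1 := by
  by_contra hg
  obtain ⟨m, hm⟩ := exists_level_subset (isOpen_compl_singleton.mem_nhds (Ne.symm hg))
  exact hm (h m) rfl

/-- Hopf property. -/
theorem IsFreeProP.injective_of_surjective (hF : IsFreeProP p x) (f : F →* F) (hf : Continuous f)
    (hs : Function.Surjective f) : Function.Injective f := by
  rw [injective_iff_map_eq_one]
  intro a ha
  refine eq_one_of_mem_level fun m => ?_
  have : Finite (F ⧸ level F m) := (level F m).quotient_finite_of_isOpen (hF.isOpen_level m)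
  let f' := QuotientGroup.map (level F m) (level F m) f fun g hg => map_mem_level f hf hg
  have hs' : Function.Surjective f' := by
    intro b
    obtain ⟨b, rfl⟩ := QuotientGroup.mk_surjective b
    obtain ⟨c, rfl⟩ := hs b
    exact ⟨c, rfl⟩
  have hi := Finite.injective_iff_surjective.mpr hs'
  rw [← QuotientGroup.eq_one_iff]
  apply hi
  rw [map_one]
  show ((f a : F) : F ⧸ level F m) = 1
  rw [ha]; rfl

/-- The continuous endomorphism with prescribed values on the generators. -/
noncomputable def IsFreeProP.lift (hF : IsFreeProP p x) (y : Fin d → F) : F →* F :=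
  (hF.2 F hF.1 y).choose

omit hp in
theorem IsFreeProP.continuous_lift (hF : IsFreeProP p x) (y : Fin d → F) :
    Continuous (hF.lift y) := (hF.2 F hF.1 y).choose_spec.1.1

omit hp in
theorem IsFreeProP.lift_apply (hF : IsFreeProP p x) (y : Fin d → F) (i : Fin d) :
    hF.lift y (x i) = y i := (hF.2 F hF.1 y).choose_spec.1.2 i

omit hp [IsTopologicalGroup F] [TotallyDisconnectedSpace F] in
theorem mem_contAut_of_continuous [T2Space F] (e : MulAut F) (he : Continuous e) :
    e ∈ ContAut F :=
  ⟨he, he.continuous_symm_of_equiv_compact_to_t2 (f := e.toEquiv)⟩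

/-- Frattini argument for endomorphisms. -/
theorem IsFreeProP.exists_aut (hF : IsFreeProP p x) (y : Fin d → F)
    (hy : ∀ U : Subgroup F, U.Normal → IsOpen (U : Set F) → U.index = p →
      ∀ i, y i ∈ U → x i ∈ U) : ∃ α : ContAut F, ∀ i, α.1 (x i) = y i := by
  have hc := hF.continuous_lift y
  have hs : Function.Surjective (hF.lift y) := by
    rw [← MonoidHom.range_eq_top]
    by_contra hne
    obtain ⟨U, hUn, hUo, hUi, hU⟩ := hF.1.frattini _ (isCompact_range hc).isClosed hne
    rw [hF.eq_top_of_index U hUo fun i => hy U hUn hUo hUi i (hU ⟨x i, hF.lift_apply y i⟩),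
      Subgroup.index_top] at hUi
    exact hp.out.one_lt.ne hUi
  exact ⟨⟨MulEquiv.ofBijective _ ⟨hF.injective_of_surjective _ hc hs, hs⟩,
    mem_contAut_of_continuous _ hc⟩, hF.lift_apply y⟩

/-! ### The automorphism group as a profinite group -/

/-- A continuous automorphism as a continuous map. -/
def toCM (φ : ContAut F) : C(F, F) := ⟨φ.1, φ.2.1⟩

omit [IsTopologicalGroup F] [CompactSpace F] [TotallyDisconnectedSpace F] in
theorem isEmbedding_toCM : IsEmbedding (toCM : ContAut F → C(F, F)) :=
  ⟨⟨rfl⟩, fun _ _ h => Subtype.ext (MulEquiv.ext fun a => DFunLike.congr_fun h a)⟩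

omit [TotallyDisconnectedSpace F] in
theorem continuous_aut_eval : Continuous fun z : ContAut F × F => z.1.1 z.2 :=
  continuous_eval.comp ((isEmbedding_toCM.continuous.comp continuous_fst).prodMk continuous_snd)

omit [TotallyDisconnectedSpace F] in
theorem continuous_aut_eval_const (a : F) : Continuous fun φ : ContAut F => φ.1 a :=
  continuous_aut_eval.comp (continuous_id.prodMk continuous_const)

instance : T2Space (ContAut F) := isEmbedding_toCM.t2Space

instance : ContinuousMul (ContAut F) where
  continuous_mul := by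
    rw [isEmbedding_toCM.continuous_iff]
    exact ContinuousMap.continuous_comp'.comp
      ((isEmbedding_toCM.continuous.comp continuous_snd).prodMk
        (isEmbedding_toCM.continuous.comp continuous_fst))

instance : TotallyDisconnectedSpace (ContAut F) := by
  have h : Continuous fun (φ : ContAut F) (a : F) => φ.1 a :=
    continuous_pi continuous_aut_eval_const
  have hi : Function.Injective fun (φ : ContAut F) (a : F) => φ.1 a :=
    fun φ ψ h => Subtype.ext (MulEquiv.ext fun a => congrFun h a)
  exact ⟨isTotallyDisconnected_of_image h.continuousOn hi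
    (isTotallyDisconnected_of_totallyDisconnectedSpace _)⟩

theorem IsFreeProP.congr_level (hF : IsFreeProP p x) {f g : F →* F} (hf : Continuous f)
    (hg : Continuous g) {m : ℕ} (h : ∀ i, (f (x i))⁻¹ * g (x i) ∈ level F m) (a : F) :
    (f a)⁻¹ * g a ∈ level F m := by
  have : DiscreteTopology (F ⧸ level F m) := QuotientGroup.discreteTopology (hF.isOpen_level m)
  have := hF.hom_ext (f := (QuotientGroup.mk' (level F m)).comp f)
    (g := (QuotientGroup.mk' (level F m)).comp g) (QuotientGroup.continuous_mk.comp hf)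
    (QuotientGroup.continuous_mk.comp hg) fun i => QuotientGroup.eq.mpr (h i)
  exact QuotientGroup.eq.mp (DFunLike.congr_fun this a)

theorem IsFreeProP.continuous_lift₂ (hF : IsFreeProP p x) :
    Continuous fun z : (Fin d → F) × F => hF.lift z.1 z.2 := by
  rw [continuous_iff_continuousAt]
  rintro ⟨y, a⟩ s hs
  have h1 : (fun b => hF.lift y a * b) ⁻¹' s ∈ 𝓝 (1 : F) :=
    (continuous_const_mul _).continuousAt.preimage_mem_nhds (by simpa using hs)
  obtain ⟨m, hm⟩ := exists_level_subset h1
  have ho := hF.isOpen_level m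
  have e1 : ∀ᶠ z : (Fin d → F) × F in 𝓝 (y, a), ∀ i, (y i)⁻¹ * z.1 i ∈ level F m := by
    rw [eventually_all]
    intro i
    have : Continuous fun z : (Fin d → F) × F => (y i)⁻¹ * z.1 i := by fun_prop
    exact this.continuousAt.preimage_mem_nhds (ho.mem_nhds (by simp))
  have e2 : ∀ᶠ z : (Fin d → F) × F in 𝓝 (y, a), a⁻¹ * z.2 ∈ level F m := by
    have : Continuous fun z : (Fin d → F) × F => a⁻¹ * z.2 := by fun_prop
    exact this.continuousAt.preimage_mem_nhds (ho.mem_nhds (by simp))
  rw [mem_map]
  filter_upwards [e1, e2] with z h1 h2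
  have h3 := hF.congr_level (hF.continuous_lift y) (hF.continuous_lift z.1) (m := m)
    (fun i => by rw [hF.lift_apply, hF.lift_apply]; exact h1 i) a
  have h4 := map_mem_level _ (hF.continuous_lift z.1) h2
  have h5 := hm ((level F m).mul_mem h3 h4)
  simpa using h5

theorem IsFreeProP.compactSpace_aut (hF : IsFreeProP p x) : CompactSpace (ContAut F) := by
  have hc := hF.continuous_lift₂
  let P : Set ((Fin d → F) × (Fin d → F)) :=
    {z | (∀ i, hF.lift z.1 (z.2 i) = x i) ∧ ∀ i, hF.lift z.2 (z.1 i) = x i}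
  have hP : IsClosed P := by
    simp only [P, ofPred_and, ofPred_forall]
    refine IsClosed.inter (isClosed_iInter fun i => isClosed_eq ?_ continuous_const)
      (isClosed_iInter fun i => isClosed_eq ?_ continuous_const)
    · exact hc.comp (continuous_fst.prodMk ((continuous_apply i).comp continuous_snd))
    · exact hc.comp (continuous_snd.prodMk ((continuous_apply i).comp continuous_fst))
  let L : (Fin d → F) → C(F, F) := fun y => ⟨hF.lift y, hF.continuous_lift y⟩
  have hL : Continuous L := ContinuousMap.continuous_of_continuous_uncurry _ hc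
  have hcomp : ∀ y y' : Fin d → F, (∀ i, hF.lift y (y' i) = x i) →
      ∀ a, hF.lift y (hF.lift y' a) = a := by
    intro y y' h a
    have := hF.hom_ext (f := (hF.lift y).comp (hF.lift y')) (g := MonoidHom.id F)
      ((hF.continuous_lift y).comp (hF.continuous_lift y')) continuous_id
      (fun i => by simp [hF.lift_apply, h])
    exact DFunLike.congr_fun this a
  have hlift : ∀ φ : ContAut F, ∀ a, hF.lift (fun i => φ.1 (x i)) a = φ.1 a := by
    intro φ a
    have := hF.hom_ext (f := hF.lift fun i => φ.1 (x i)) (g := φ.1.toMonoidHom)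
      (hF.continuous_lift _) φ.2.1 (fun i => hF.lift_apply _ i)
    exact DFunLike.congr_fun this a
  have hr : range (toCM : ContAut F → C(F, F)) = (fun z => L z.1) '' P := by
    ext f
    constructor
    · rintro ⟨φ, rfl⟩
      refine ⟨(fun i => φ.1 (x i), fun i => (φ⁻¹).1 (x i)), ⟨fun i => ?_, fun i => ?_⟩, ?_⟩
      · rw [hlift]; simp
      · rw [hlift]; simp
      · exact ContinuousMap.ext fun a => hlift φ a
    · rintro ⟨z, ⟨h1, h2⟩, rfl⟩
      let e : MulAut F :=
        { hF.lift z.1 with
          invFun := hF.lift z.2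
          left_inv := hcomp _ _ h2
          right_inv := hcomp _ _ h1 }
      exact ⟨⟨e, hF.continuous_lift _, hF.continuous_lift _⟩, rfl⟩
  constructor
  rw [isEmbedding_toCM.isInducing.isCompact_iff, image_univ, hr]
  exact hP.isCompact.image (hL.comp continuous_fst)

theorem IsFreeProP.isTopologicalGroup_aut (hF : IsFreeProP p x) :
    IsTopologicalGroup (ContAut F) := by
  have := hF.compactSpace_aut
  have : ContinuousInv (ContAut F) := by
    constructor
    rw [continuous_iff_isClosed]
    intro s hs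
    have h1 : IsClosed {z : ContAut F × ContAut F | z.1 * z.2 = 1 ∧ z.2 ∈ s} :=
      (isClosed_eq continuous_mul continuous_const).inter (hs.preimage continuous_snd)
    have h2 := isClosedMap_fst_of_compactSpace _ h1
    convert h2 using 1
    ext φ
    constructor
    · intro h
      exact ⟨(φ, φ⁻¹), ⟨mul_inv_cancel φ, h⟩, rfl⟩
    · rintro ⟨⟨a, b⟩, ⟨h1, h2⟩, rfl⟩
      have : a⁻¹ = b := inv_eq_of_mul_eq_one_right h1
      show a⁻¹ ∈ s
      rw [this]; exact h2
  exact {}

end Pool.Agent.Lib.MP_dd16b7_nt
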