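import Mathlib
import Pool.Agent.Lib.MP_dd16b7_nt.PExp
import Pool.Agent.Lib.MP_dd16b7_nt.ProP

/-!
Continuous cocycles on a free pro-`p` group and the scaling automorphisms.
-/

namespace Pool.Agent.Lib.MP_dd16b7_nt

open Filter Topology Set

variable {p : ℕ} [hp : Fact p.Prime]
variable {F : Type} [Group F]
variable {E : Type*} [NormedAddCommGroup E] [NormedSpace ℚ_[p] E]

/-- Crossed homomorphisms. -/
def IsCocycle (σ : F →* (E →L[ℚ_[p]] E)) (c : F → E) : Prop :=
  ∀ a b, c (a * b) = c a + σ a (c b)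

section Basic

variable {σ : F →* (E →L[ℚ_[p]] E)} {c : F → E}

theorem act_mul (σ : F →* (E →L[ℚ_[p]] E)) (a b : F) (e : E) : σ (a * b) e = σ a (σ b e) := by
  rw [map_mul]; rfl

theorem act_one (σ : F →* (E →L[ℚ_[p]] E)) (e : E) : σ 1 e = e := by
  rw [map_one]; rfl

theorem IsCocycle.one (h : IsCocycle σ c) : c 1 = 0 := by
  have := h 1 1
  rw [mul_one, act_one] at this
  simpa using this

theorem IsCocycle.inv (h : IsCocycle σ c) (a : F) : σ a (c a⁻¹) = -c a := by
  have := h a a⁻¹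
  rw [mul_inv_cancel, h.one] at this
  exact eq_neg_of_add_eq_zero_right this.symm

theorem IsCocycle.conj (h : IsCocycle σ c) (a : F) {n : F} (hn : σ n = 1) :
    c (a * n * a⁻¹) = σ a (c n) := by
  rw [h, h, act_mul, hn]
  show c a + σ a (c n) + σ a (c a⁻¹) = _
  rw [h.inv]; abel

theorem isCocycle_coboundary (σ : F →* (E →L[ℚ_[p]] E)) (b : E) :
    IsCocycle σ fun a => σ a b - b := by
  intro x y
  simp only [act_mul, map_sub]; abel

theorem IsCocycle.sub {c' : F → E} (h : IsCocycle σ c) (h' : IsCocycle σ c') :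
    IsCocycle σ fun a => c a - c' a := by
  intro x y
  simp only [h x y, h' x y, map_sub]; abel

/-- The subgroup on which a cocycle vanishes. -/
def IsCocycle.zeros (h : IsCocycle σ c) : Subgroup F where
  carrier := {a | c a = 0}
  one_mem' := h.one
  mul_mem' := fun {a b} ha hb => by
    simp only [mem_ofPred_eq] at *
    rw [h, ha, hb, map_zero, add_zero]
  inv_mem' := fun {a} ha => by
    simp only [mem_ofPred_eq] at *
    have := h a⁻¹ a
    rw [inv_mul_cancel, h.one, ha, map_zero, add_zero] at this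
    exact this.symm

/-- Averaging: a cocycle vanishing on a subgroup of finite index is a coboundary. -/
theorem IsCocycle.exists_of_finiteIndex (h : IsCocycle σ c) (U : Subgroup F) [U.FiniteIndex]
    (hU : ∀ u ∈ U, c u = 0) : ∃ b, ∀ a, c a = σ a b - b := by
  classical
  have : Fintype (F ⧸ U) := Fintype.ofFinite _
  let cq : F ⧸ U → E := fun q => c q.out
  have hcq : ∀ g : F, cq (g : F ⧸ U) = c g := by
    intro g
    obtain ⟨u, hu⟩ := QuotientGroup.mk_out_eq_mul U g
    simp only [cq]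
    rw [hu, h, hU u u.2, map_zero, add_zero]
  have hD : (Fintype.card (F ⧸ U) : ℚ_[p]) ≠ 0 := by exact_mod_cast Fintype.card_ne_zero
  refine ⟨-((Fintype.card (F ⧸ U) : ℚ_[p])⁻¹ • ∑ q, cq q), fun a => ?_⟩
  have h1 : ∑ q, cq (a • q) = ∑ q, cq q := Equiv.sum_comp (MulAction.toPerm a) cq
  have h2 : ∀ q, cq (a • q) = c a + σ a (cq q) := by
    intro q
    obtain ⟨g, rfl⟩ := QuotientGroup.mk_surjective q
    rw [MulAction.Quotient.smul_mk, hcq, hcq, smul_eq_mul, h]
  simp only [h2, Finset.sum_add_distrib, Finset.sum_const, Finset.card_univ] at h1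
  rw [← map_sum, ← Nat.cast_smul_eq_nsmul ℚ_[p]] at h1
  rw [map_neg, map_smul, neg_sub_neg, ← smul_sub, ← eq_sub_of_add_eq h1, smul_smul,
    inv_mul_cancel₀ hD, one_smul]

end Basic

variable [TopologicalSpace F]

variable (p) in
/-- Vanishing of the continuous first cohomology of `F / N` in finite-dimensional modules. -/
def H1Vanish (N : Subgroup F) : Prop :=
  ∀ (s : ℕ) (σ : F →* ((Fin s → ℚ_[p]) →L[ℚ_[p]] (Fin s → ℚ_[p]))), Continuous σ →
    (∀ n ∈ N, σ n = 1) → ∀ c : F → Fin s → ℚ_[p], Continuous c → IsCocycle σ c →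
      (∀ n ∈ N, c n = 0) → ∃ b, ∀ a, c a = σ a b - b

theorem H1Vanish.exists_mod [FiniteDimensional ℚ_[p] E] {N : Subgroup F} (hN : H1Vanish p N)
    {σ : F →* (E →L[ℚ_[p]] E)} (hσ : Continuous σ) (E₀ : Submodule ℚ_[p] E)
    (h0 : ∀ a, ∀ e ∈ E₀, σ a e ∈ E₀) (h1 : ∀ n ∈ N, ∀ e, σ n e - e ∈ E₀) {c : F → E}
    (hc : Continuous c) (hcoc : IsCocycle σ c) (hcN : ∀ n ∈ N, c n ∈ E₀) :
    ∃ b, ∀ a, c a - (σ a b - b) ∈ E₀ := by
  let e := (Module.finBasis ℚ_[p] (E ⧸ E₀)).equivFun
  let q : E →ₗ[ℚ_[p]] (Fin (Module.finrank ℚ_[p] (E ⧸ E₀)) → ℚ_[p]) := e.toLinearMap ∘ₗ E₀.mkQ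
  have hq0 : ∀ v, q v = 0 ↔ v ∈ E₀ := fun v => by simp [q]
  have hqs : LinearMap.range q = ⊤ :=
    LinearMap.range_eq_top.mpr (e.surjective.comp E₀.mkQ_surjective)
  obtain ⟨s, hs⟩ := q.exists_rightInverse_of_surjective hqs
  have hqs' : ∀ v, q (s v) = v := fun v => LinearMap.congr_fun hs v
  let qL := LinearMap.toContinuousLinearMap q
  let sL := LinearMap.toContinuousLinearMap s
  have key : ∀ a v, q (σ a (s (q v))) = q (σ a v) := by
    intro a v
    rw [← sub_eq_zero, ← map_sub, ← map_sub, hq0]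
    apply h0
    rw [← hq0, map_sub, hqs', sub_self]
  let σ' : F →* (_ →L[ℚ_[p]] _) :=
    { toFun := fun a => qL.comp ((σ a).comp sL)
      map_one' := by
        ext1 v
        show q (σ 1 (s v)) = v
        rw [act_one, hqs']
      map_mul' := fun a b => by
        ext1 v
        show q (σ (a * b) (s v)) = q (σ a (s (q (σ b (s v)))))
        rw [key, act_mul] }
  have hσ' : ∀ a v, σ' a v = q (σ a (s v)) := fun _ _ => rfl
  obtain ⟨b, hb⟩ := hN _ σ' (continuous_const.clm_comp (hσ.clm_comp continuous_const))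
    (fun n hn => by
      ext1 v
      show q (σ n (s v)) = v
      rw [← sub_eq_zero]
      conv_lhs => rw [← hqs' v]
      rw [hqs' v, ← hqs' v, ← map_sub, hq0, hqs' v]
      exact h1 n hn _)
    (fun a => q (c a)) (qL.continuous.comp hc)
    (fun a b => by simp only [hσ', key, hcoc a b, map_add])
    (fun n hn => (hq0 _).mpr (hcN n hn))
  refine ⟨s b, fun a => ?_⟩
  rw [← hq0, map_sub, map_sub, hqs', ← hσ', ← hb, sub_self]

theorem H1Vanish.exists_eq [FiniteDimensional ℚ_[p] E] {N : Subgroup F} (hN : H1Vanish p N)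
    {σ : F →* (E →L[ℚ_[p]] E)} (hσ : Continuous σ) (h1 : ∀ n ∈ N, σ n = 1) {c : F → E}
    (hc : Continuous c) (hcoc : IsCocycle σ c) (hcN : ∀ n ∈ N, c n = 0) :
    ∃ b, ∀ a, c a = σ a b - b := by
  obtain ⟨b, hb⟩ := hN.exists_mod hσ ⊥ (fun a e he => by rw [Submodule.mem_bot] at *; simp [he])
    (fun n hn e => by simp [h1 n hn]) hc hcoc (fun n hn => by simp [hcN n hn])
  exact ⟨b, fun a => sub_eq_zero.mp (hb a)⟩

variable [IsTopologicalGroup F] [CompactSpace F]

theorem h1Vanish_of_isOpen (N : Subgroup F) (hN : IsOpen (N : Set F)) : H1Vanish p N := by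
  intro s σ _ _ c _ hc h0
  have : Finite (F ⧸ N) := N.quotient_finite_of_isOpen hN
  have : N.FiniteIndex := Subgroup.finiteIndex_of_finite_quotient
  exact hc.exists_of_finiteIndex N h0

variable [TotallyDisconnectedSpace F] {d : ℕ} {x : Fin d → F}

theorem IsFreeProP.cocycle_ext (hF : IsFreeProP p x) {σ : F →* (E →L[ℚ_[p]] E)} {c c' : F → E}
    (hc : Continuous c) (hc' : Continuous c') (h : IsCocycle σ c) (h' : IsCocycle σ c')
    (hx : ∀ i, c (x i) = c' (x i)) (a : F) : c a = c' a :=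
  hF.induction (S := {a | c a = c' a}) (isClosed_eq hc hc') (by simp [h.one, h'.one])
    (fun a ha b hb => by simp only [mem_ofPred_eq] at *; rw [h, h', ha, hb]) hx a

/-- The diagonal action on a power of a module. -/
noncomputable def piAct (σ : F →* (E →L[ℚ_[p]] E)) (r : ℕ) :
    F →* ((Fin r → E) →L[ℚ_[p]] (Fin r → E)) where
  toFun a := ContinuousLinearMap.pi fun j => (σ a).comp (ContinuousLinearMap.proj j)
  map_one' := by ext v j; simp
  map_mul' a b := by ext v j; simp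

omit [IsTopologicalGroup F] [CompactSpace F] [TotallyDisconnectedSpace F] in
theorem continuous_piAct [FiniteDimensional ℚ_[p] E] {σ : F →* (E →L[ℚ_[p]] E)}
    (hσ : Continuous σ) (r : ℕ) : Continuous (piAct σ r) := by
  rw [continuous_clm_apply]
  intro v
  exact continuous_pi fun j => hσ.clm_apply continuous_const

/-- The universal continuous cocycle. -/
theorem IsFreeProP.exists_universal (hF : IsFreeProP p x) [FiniteDimensional ℚ_[p] E]
    (σ : F →* (E →L[ℚ_[p]] E)) : ∃ (r : ℕ) (C : F → Fin r → E), Continuous C ∧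
      IsCocycle (piAct σ r) C ∧ ∀ c : F → E, Continuous c → IsCocycle σ c →
        ∃ L : (Fin r → E) →ₗ[ℚ_[p]] E, ∀ a, c a = L (C a) := by
  let Z : Submodule ℚ_[p] (F → E) :=
    { carrier := {c | Continuous c ∧ IsCocycle σ c}
      zero_mem' := ⟨continuous_const, fun a b => by simp⟩
      add_mem' := fun {c c'} h h' => ⟨h.1.add h'.1, fun a b => by
        simp only [Pi.add_apply, h.2 a b, h'.2 a b, map_add]; abel⟩
      smul_mem' := fun t c h => ⟨h.1.const_smul t, fun a b => by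
        simp only [Pi.smul_apply, h.2 a b, map_smul, smul_add]⟩ }
  let ev : Z →ₗ[ℚ_[p]] (Fin d → E) := (LinearMap.funLeft ℚ_[p] E x).comp Z.subtype
  have hev : Function.Injective ev := fun c c' h =>
    Subtype.ext (funext (hF.cocycle_ext c.2.1 c'.2.1 c.2.2 c'.2.2 (congrFun h)))
  have : FiniteDimensional ℚ_[p] Z := Module.Finite.of_injective ev hev
  let b := Module.finBasis ℚ_[p] Z
  refine ⟨_, fun a j => (b j).1 a, continuous_pi fun j => (b j).2.1,
    fun a a' => funext fun j => (b j).2.2 a a', fun c h1 h2 => ?_⟩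
  refine ⟨∑ j, b.repr ⟨c, h1, h2⟩ j • LinearMap.proj j, fun a => ?_⟩
  have := congrFun (congrArg Z.subtype (b.sum_repr ⟨c, h1, h2⟩)) a
  rw [map_sum] at this
  simpa using this.symm

/-- The scaling automorphisms. -/
theorem IsFreeProP.exists_scaling (hF : IsFreeProP p x) [FiniteDimensional ℚ_[p] E]
    {N : Subgroup F} [hNn : N.Normal] (hNc : IsClosed (N : Set F)) (hN : H1Vanish p N)
    {σ : F →* (E →L[ℚ_[p]] E)} (hσ : Continuous σ) (h1 : ∀ n ∈ N, σ n = 1) {C : F → E}
    (hC : Continuous C) (hcoc : IsCocycle σ C) :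
    ∃ j : ℕ, ∀ k ≥ j, ∃ ψ : ContAut F, (∀ a, a ∈ N ↔ ψ.1 a ∈ N) ∧
      ∀ n ∈ N, C (ψ.1 n) = (1 + (p : ℚ_[p]) ^ (k + 1)) • C n := by
  have hmul : ∀ n ∈ N, ∀ m, C (n * m) = C n + C m := fun n hn m => by
    rw [hcoc, h1 n hn]; rfl
  have hpow : ∀ n ∈ N, ∀ k : ℕ, C (n ^ k) = (k : ℚ_[p]) • C n := by
    intro n hn k
    induction k with
    | zero => simp [hcoc.one]
    | succ k ih => rw [pow_succ', hmul n hn, ih, Nat.cast_succ, add_smul, one_smul, add_comm]
  have hQc : IsClosed (C '' N) := (hNc.isCompact.image hC).isClosed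
  have hQ1 : ∀ n ∈ N, ∀ t : ℚ_[p], ‖t‖ ≤ 1 → t • C n ∈ C '' N := by
    intro n hn t ht
    exact padicInt_induction (S := (fun t : ℤ_[p] => (t : ℚ_[p]) • C n) ⁻¹' (C '' N))
      (hQc.preimage (by fun_prop)) (fun k => ⟨n ^ k, N.pow_mem hn k, by simp [hpow n hn]⟩) ⟨t, ht⟩
  let E₀ := Submodule.span ℚ_[p] (C '' N)
  have hE₀ : ∀ v ∈ E₀, ∀ᶠ t in 𝓝 (0 : ℚ_[p]), t • v ∈ C '' N := by
    intro v hv
    induction hv using Submodule.span_induction with
    | mem v hv =>
      obtain ⟨n, hn, rfl⟩ := hv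
      exact (eventually_norm_le_one (p := p)).mono (hQ1 n hn)
    | zero => exact Eventually.of_forall fun t => ⟨1, N.one_mem, by simp [hcoc.one]⟩
    | add v w _ _ hv hw =>
      filter_upwards [hv, hw] with t ⟨n, hn, h2⟩ ⟨m, hm, h3⟩
      exact ⟨n * m, N.mul_mem hn hm, by rw [hmul n hn, h2, h3, smul_add]⟩
    | smul a v _ hv =>
      have : Tendsto (fun t : ℚ_[p] => t * a) (𝓝 0) (𝓝 0) := by
        simpa using (continuous_mul_const a).tendsto (0 : ℚ_[p])
      filter_upwards [this.eventually hv] with t ht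
      rwa [smul_smul]
  have hstab : ∀ a, ∀ e ∈ E₀, σ a e ∈ E₀ := by
    intro a e he
    induction he using Submodule.span_induction with
    | mem v hv =>
      obtain ⟨n, hn, rfl⟩ := hv
      exact Submodule.subset_span ⟨_, hNn.conj_mem n hn a, hcoc.conj a (h1 n hn)⟩
    | zero => simp
    | add v w _ _ hv hw => rw [map_add]; exact E₀.add_mem hv hw
    | smul t v _ hv => rw [map_smul]; exact E₀.smul_mem _ hv
  obtain ⟨b, hb⟩ := hN.exists_mod hσ E₀ hstab (fun n hn e => by simp [h1 n hn]) hC hcoc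
    (fun n hn => Submodule.subset_span ⟨n, hn, rfl⟩)
  let f : F → E := fun a => C a - (σ a b - b)
  have hf : IsCocycle σ f := hcoc.sub (isCocycle_coboundary σ b)
  have hfc : Continuous f := hC.sub ((hσ.clm_apply continuous_const).sub continuous_const)
  have hfN : ∀ n ∈ N, f n = C n := fun n hn => by simp [f, h1 n hn]
  have hev : ∀ᶠ t in 𝓝 (0 : ℚ_[p]), ∀ i, t • f (x i) ∈ C '' N :=
    eventually_all.mpr fun i => hE₀ _ (hb _)
  have hlim : Tendsto (fun k : ℕ => (p : ℚ_[p]) ^ k) atTop (𝓝 0) :=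
    tendsto_pow_atTop_nhds_zero_of_norm_lt_one Padic.norm_p_lt_one
  obtain ⟨j, hj⟩ := eventually_atTop.mp (hlim.eventually hev)
  refine ⟨j, fun k hk => ?_⟩
  choose m hm hm' using hj k hk
  obtain ⟨ψ, hψ⟩ := hF.exists_aut (fun i => m i ^ p * x i) (fun U hUn _ hUi i hi => by
    have : m i ^ p ∈ U := by rw [← hUi]; exact U.pow_index_mem _
    exact (U.mul_mem_cancel_left this).mp hi)
  have hψN : ∀ a, ψ.1 a * a⁻¹ ∈ N := by
    refine hF.induction (S := {a | ψ.1 a * a⁻¹ ∈ N})
      (hNc.preimage (ψ.2.1.mul continuous_inv)) (by simp) (fun a ha b hb => ?_) (fun i => ?_)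
    · have := N.mul_mem (hNn.conj_mem _ hb (ψ.1 a)) ha
      simpa [mul_assoc] using this
    · simp only [mem_ofPred_eq, hψ, mul_inv_cancel_right]
      exact N.pow_mem (hm i) p
  have hσψ : ∀ a, σ (ψ.1 a) = σ a := by
    intro a
    have : ψ.1 a = ψ.1 a * a⁻¹ * a := by simp
    rw [this, map_mul, h1 _ (hψN a), one_mul]
  refine ⟨ψ, fun a => ?_, fun n hn => ?_⟩
  · have := N.mul_mem_cancel_left (hψN a) (y := a)
    simpa using this.symm
  · have := hF.cocycle_ext (σ := σ) (c := fun a => C (ψ.1 a))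
      (c' := fun a => C a + (p : ℚ_[p]) ^ (k + 1) • f a) (hC.comp ψ.2.1)
      (hC.add (hfc.const_smul _))
      (fun a b => by simp only [map_mul, hcoc _ _, hσψ])
      (fun a b => by simp only [hcoc a b, hf a b, map_add, map_smul, smul_add]; abel)
      (fun i => by
        simp only [hψ]
        rw [hmul _ (N.pow_mem (hm i) p), hpow _ (hm i), hm', smul_smul, ← pow_succ', add_comm]) n
    rw [this, hfN n hn, add_smul, one_smul]

end Pool.Agent.Lib.MP_dd16b7_nt
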