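import Mathlib

/-!
A first moment bound in profinite groups: the union of the conjugates of a subset of a subgroup
is null as soon as infinitely many translates of the subset have bounded multiplicity.
-/

namespace Pool.Agent.Lib.MP_dd16b7_nt

open Filter Topology Set MeasureTheory

theorem card_conj_le {G : Type*} [Group G] [Fintype G] [DecidableEq G] (S : Subgroup G)
    (B Z : Finset G) (hB : ∀ b ∈ B, b ∈ S) (hconj : ∀ s ∈ S, ∀ b ∈ B, s * b * s⁻¹ ∈ B)
    (hZ : ∀ z ∈ Z, ∃ α, α⁻¹ * z * α ∈ B) (ψ : ℕ → G) (hψ : ∀ i, ψ i ∈ S) (R C : ℕ)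
    (hC : ∀ s : G, ∀ I : Finset ℕ, I ⊆ Finset.range R → (∀ i ∈ I, s * (ψ i)⁻¹ ∈ B) → I.card ≤ C) :
    Z.card * R ≤ Fintype.card G * C := by
  classical
  let T : Finset G := Finset.univ.filter (· ∈ S)
  have hT : 0 < T.card := Finset.card_pos.mpr ⟨1, by simp [T]⟩
  have h1 : (Finset.range R).card * B.card ≤ T.card * C := by
    refine Finset.card_mul_le_card_mul (fun i s => s * (ψ i)⁻¹ ∈ B) (fun i _ => ?_) fun s _ => ?_
    · refine Finset.card_le_card_of_injOn (fun b => b * ψ i) (fun b hb => ?_)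
        (mul_left_injective _).injOn
      have hb' : b ∈ B := hb
      simp [T, hb', S.mul_mem (hB b hb') (hψ i)]
    · refine hC s _ (Finset.filter_subset _ _) fun i hi => ?_
      exact (Finset.mem_filter.mp hi).2
  have h2 : Z.card * T.card ≤ (Finset.univ : Finset G).card * B.card := by
    refine Finset.card_mul_le_card_mul (fun z α => α⁻¹ * z * α ∈ B) (fun z hz => ?_) fun α _ => ?_
    · obtain ⟨α, hα⟩ := hZ z hz
      refine Finset.card_le_card_of_injOn (fun s => α * s) (fun s hs => ?_)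
        (mul_right_injective _).injOn
      have hs' : s ∈ S := by simpa [T] using hs
      have := hconj s⁻¹ (S.inv_mem hs') _ hα
      simpa [mul_assoc] using this
    · refine Finset.card_le_card_of_injOn (fun z => α⁻¹ * z * α) (fun z hz => ?_) ?_
      · exact (Finset.mem_filter.mp hz).2
      · intro a _ b _ h
        simpa using h
  rw [Finset.card_range] at h1
  rw [Finset.card_univ] at h2
  refine Nat.le_of_mul_le_mul_right ?_ hT
  calc Z.card * R * T.card = Z.card * T.card * R := by ring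
    _ ≤ Fintype.card G * B.card * R := Nat.mul_le_mul_right _ h2
    _ = Fintype.card G * (R * B.card) := by ring
    _ ≤ Fintype.card G * (T.card * C) := Nat.mul_le_mul_left _ h1
    _ = _ := by ring

variable {A : Type*} [Group A] [TopologicalSpace A] [IsTopologicalGroup A] [CompactSpace A]
  [TotallyDisconnectedSpace A]

theorem exists_openNormal_multiplicity {B' : Set A} (hB' : IsClosed B') (ψ : ℕ → A) (C : ℕ)
    (hC : ∀ s : A, ∀ I : Finset ℕ, (∀ i ∈ I, s * (ψ i)⁻¹ ∈ B') → I.card ≤ C) (R : ℕ) :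
    ∃ K : Subgroup A, K.Normal ∧ IsOpen (K : Set A) ∧ ∀ s : A, ∀ I : Finset ℕ,
      I ⊆ Finset.range R → (∀ i ∈ I, ∃ k ∈ K, s * k * (ψ i)⁻¹ ∈ B') → I.card ≤ C := by
  classical
  have h1 : ∀ s : A, ∃ K : OpenNormalSubgroup A, ∀ k ∈ K, ∀ i ∈ Finset.range R,
      s * k * (ψ i)⁻¹ ∈ B' → s * (ψ i)⁻¹ ∈ B' := by
    intro s
    let U : Set A := ⋂ i ∈ (Finset.range R).filter (fun i => s * (ψ i)⁻¹ ∉ B'),
      {k | s * k * (ψ i)⁻¹ ∉ B'}
    have hU : IsOpen U := isOpen_biInter_finset fun i _ =>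
      hB'.isOpen_compl.preimage (f := fun k => s * k * (ψ i)⁻¹) (by fun_prop)
    obtain ⟨K, hK⟩ := ProfiniteGrp.exist_openNormalSubgroup_sub_open_nhds_of_one hU (by
      simp only [U, mem_iInter]
      intro i hi
      simpa using (Finset.mem_filter.mp hi).2)
    refine ⟨K, fun k hk i hi h => ?_⟩
    by_contra hn
    have := hK hk
    simp only [U, mem_iInter] at this
    exact this i (Finset.mem_filter.mpr ⟨hi, hn⟩) h
  choose K hK using h1
  obtain ⟨t, ht⟩ := isCompact_univ.elim_finite_subcover (fun s : A => {a | s⁻¹ * a ∈ K s})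
    (fun s => (K s).isOpen.preimage (continuous_const_mul _))
    (fun a _ => mem_iUnion.mpr ⟨a, by simp⟩)
  refine ⟨⨅ s : t, (K s).toSubgroup, Subgroup.normal_iInf_normal fun s => (K s).isNormal', ?_, ?_⟩
  · rw [Subgroup.coe_iInf]
    exact isOpen_iInter_of_finite fun s => (K s).isOpen
  · intro s I hI h
    obtain ⟨s₀, hs₀, hs⟩ := mem_iUnion₂.mp (ht (mem_univ s))
    refine hC s₀ I fun i hi => ?_
    obtain ⟨k, hk, hk'⟩ := h i hi
    have hk2 : k ∈ K s₀ := Subgroup.mem_iInf.mp hk ⟨s₀, hs₀⟩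
    refine hK s₀ (s₀⁻¹ * s * k) (mul_mem hs hk2) i (hI hi) ?_
    simpa [← mul_assoc] using hk'

theorem measure_conj_eq_zero [MeasurableSpace A] [BorelSpace A] (μ : Measure A)
    [IsProbabilityMeasure μ] [μ.IsMulLeftInvariant] (S : Subgroup A) {B B' : Set A}
    (hBS : ∀ b ∈ B, b ∈ S) (hconj : ∀ s ∈ S, ∀ b ∈ B, s * b * s⁻¹ ∈ B) (hBB' : B ⊆ B')
    (hB' : IsClosed B') (ψ : ℕ → A) (hψ : ∀ i, ψ i ∈ S) (C : ℕ)
    (hC : ∀ s : A, ∀ I : Finset ℕ, (∀ i ∈ I, s * (ψ i)⁻¹ ∈ B') → I.card ≤ C) :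
    μ {φ | ∃ α, α⁻¹ * φ * α ∈ B} = 0 := by
  classical
  have key : ∀ R : ℕ, μ {φ | ∃ α, α⁻¹ * φ * α ∈ B} * R ≤ C := by
    intro R
    obtain ⟨K, hKn, hKo, hK⟩ := exists_openNormal_multiplicity hB' ψ C hC R
    have : Finite (A ⧸ K) := K.quotient_finite_of_isOpen hKo
    have : Fintype (A ⧸ K) := Fintype.ofFinite _
    have hfi : K.FiniteIndex := Subgroup.finiteIndex_of_finite_quotient
    let π := QuotientGroup.mk' K
    let Bq : Finset (A ⧸ K) := Finset.univ.filter fun q => ∃ b ∈ B, π b = q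
    let Z : Finset (A ⧸ K) := Finset.univ.filter fun q => ∃ α, α⁻¹ * q * α ∈ Bq
    have hBq : ∀ q, q ∈ Bq ↔ ∃ b ∈ B, π b = q := fun q => by simp [Bq]
    have hcard := card_conj_le (S.map π) Bq Z
      (fun q hq => by
        obtain ⟨b, hb, rfl⟩ := (hBq q).mp hq
        exact ⟨b, hBS b hb, rfl⟩)
      (by
        rintro _ ⟨s, hs, rfl⟩ q hq
        obtain ⟨b, hb, rfl⟩ := (hBq q).mp hq
        exact (hBq _).mpr ⟨_, hconj s hs b hb, by simp⟩)
      (fun z hz => (Finset.mem_filter.mp hz).2) (fun i => π (ψ i)) (fun i => ⟨_, hψ i, rfl⟩) R C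
      (by
        intro s I hI h
        obtain ⟨s, rfl⟩ := QuotientGroup.mk'_surjective K s
        refine hK s I hI fun i hi => ?_
        obtain ⟨b, hb, hb'⟩ := (hBq _).mp (h i hi)
        refine ⟨s⁻¹ * (b * ψ i), ?_, by simpa [mul_assoc] using hBB' hb⟩
        rw [← QuotientGroup.eq]
        show π s = π (b * ψ i)
        rw [map_mul, hb']
        simp [π])
    have hsub : {φ | ∃ α, α⁻¹ * φ * α ∈ B} ⊆ ⋃ q ∈ Z, π ⁻¹' {q} := by
      rintro φ ⟨α, hα⟩
      refine mem_iUnion₂.mpr ⟨π φ, ?_, rfl⟩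
      exact Finset.mem_filter.mpr ⟨Finset.mem_univ _, π α, (hBq _).mpr ⟨_, hα, by simp⟩⟩
    have hfib : ∀ q, μ (π ⁻¹' {q}) = μ K := by
      intro q
      obtain ⟨g, rfl⟩ := QuotientGroup.mk'_surjective K q
      rw [← measure_preimage_mul μ g⁻¹ (K : Set A)]
      congr 1
      ext a
      simp only [mem_preimage, mem_singleton_iff, SetLike.mem_coe]
      rw [← QuotientGroup.eq, eq_comm]
      rfl
    have hle : μ {φ | ∃ α, α⁻¹ * φ * α ∈ B} ≤ Z.card * μ K := by
      refine (measure_mono hsub).trans ((measure_biUnion_finset_le Z _).trans_eq ?_)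
      simp [hfib]
    have hidx := Subgroup.index_mul_measure K hKo.measurableSet μ
    rw [measure_univ, Subgroup.index_eq_card, Nat.card_eq_fintype_card] at hidx
    calc μ {φ | ∃ α, α⁻¹ * φ * α ∈ B} * R ≤ Z.card * μ K * R := by gcongr
      _ = ((Z.card * R : ℕ) : ENNReal) * μ K := by push_cast; ring
      _ ≤ ((Fintype.card (A ⧸ K) * C : ℕ) : ENNReal) * μ K := by gcongr
      _ = (Fintype.card (A ⧸ K) * μ K) * C := by push_cast; ring
      _ = C := by rw [hidx, one_mul]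
  by_contra hne
  obtain ⟨R, hR⟩ := ENNReal.exists_nat_mul_gt hne (ENNReal.natCast_ne_top C)
  exact absurd (key R) (by rw [mul_comm]; exact not_le.mpr hR)

end Pool.Agent.Lib.MP_dd16b7_nt
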