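import Mathlib
import Pool.Agent.Lib.MP_dd16b7_nt.Cocycle
import Pool.Agent.Lib.MP_dd16b7_nt.FirstMoment

/-!
For almost every automorphism `φ` of a free pro-`p` group, no conjugate of `φ` fixes a nonzero
multilinear form in the values of a given cocycle on a given normal subgroup.
-/

namespace Pool.Agent.Lib.MP_dd16b7_nt

open Filter Topology Set MeasureTheory

variable {p : ℕ} [hp : Fact p.Prime]
variable {F : Type} [Group F] [TopologicalSpace F]
variable {E : Type*} [NormedAddCommGroup E] [NormedSpace ℚ_[p] E]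

theorem continuous_multilinear [FiniteDimensional ℚ_[p] E] {k : ℕ}
    (Λ : MultilinearMap ℚ_[p] (fun _ : Fin k => E) ℚ_[p]) : Continuous Λ := by
  classical
  let b := Module.finBasis ℚ_[p] E
  have : (Λ : (Fin k → E) → ℚ_[p]) = fun v => ∑ κ : Fin k → Fin (Module.finrank ℚ_[p] E),
      (∏ j, b.coord (κ j) (v j)) * Λ fun j => b (κ j) := by
    ext v
    have h1 : v = fun j => ∑ l, b.repr (v j) l • b l := funext fun j => (b.sum_repr (v j)).symm
    conv_lhs => rw [h1]
    rw [MultilinearMap.map_sum]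
    simp only [MultilinearMap.map_smul_univ, Module.Basis.coord_apply, smul_eq_mul]
  rw [this]
  refine continuous_finsetSum _ fun κ _ => Continuous.mul ?_ continuous_const
  exact continuous_finsetProd _ fun j _ =>
    (b.coord (κ j)).continuous_of_finiteDimensional.comp (continuous_apply j)

variable (p) in
/-- Automorphisms that preserve `N` and act linearly on the values of `C` on `N`. -/
def stabC (N : Subgroup F) (C : F → E) : Subgroup (ContAut F) where
  carrier := {s | (∀ a, a ∈ N ↔ s.1 a ∈ N) ∧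
    (∃ L : E →ₗ[ℚ_[p]] E, ∀ n ∈ N, C (s.1 n) = L (C n)) ∧
    (∃ L : E →ₗ[ℚ_[p]] E, ∀ n ∈ N, C ((s⁻¹).1 n) = L (C n))}
  one_mem' := ⟨fun _ => Iff.rfl, ⟨LinearMap.id, fun _ _ => rfl⟩, ⟨LinearMap.id, fun _ _ => rfl⟩⟩
  mul_mem' := by
    rintro s t ⟨h1, ⟨L, hL⟩, ⟨L', hL'⟩⟩ ⟨h2, ⟨M, hM⟩, ⟨M', hM'⟩⟩
    refine ⟨fun a => (h2 a).trans (h1 _), ⟨L ∘ₗ M, fun n hn => ?_⟩, ⟨M' ∘ₗ L', fun n hn => ?_⟩⟩
    · show C (s.1 (t.1 n)) = L (M (C n))
      rw [hL _ ((h2 n).mp hn), hM n hn]
    · show C ((t⁻¹).1 ((s⁻¹).1 n)) = M' (L' (C n))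
      rw [hM' _ ((h1 _).mpr (by simpa using hn)), hL' n hn]
  inv_mem' := by
    rintro s ⟨h1, h2, h3⟩
    refine ⟨fun a => ?_, h3, by rwa [inv_inv]⟩
    rw [h1 ((s⁻¹).1 a)]
    simp

variable (p) in
/-- The bad set. -/
def badC (N : Subgroup F) (C : F → E) (k : ℕ) : Set (ContAut F) :=
  {φ | φ ∈ stabC p N C ∧ ∃ Λ : MultilinearMap ℚ_[p] (fun _ : Fin k => E) ℚ_[p],
    (∃ n : Fin k → F, (∀ j, n j ∈ N) ∧ Λ (fun j => C (n j)) ≠ 0) ∧
    ∀ n : Fin k → F, (∀ j, n j ∈ N) → Λ (fun j => C (φ.1 (n j))) = Λ fun j => C (n j)}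

theorem conj_mem_badC {N : Subgroup F} {C : F → E} {k : ℕ} {s φ : ContAut F}
    (hs : s ∈ stabC p N C) (hφ : φ ∈ badC p N C k) : s * φ * s⁻¹ ∈ badC p N C k := by
  obtain ⟨hφS, Λ, ⟨n₀, hn₀, hne⟩, hΛ⟩ := hφ
  have hS := (stabC p N C).mul_mem ((stabC p N C).mul_mem hs hφS) ((stabC p N C).inv_mem hs)
  have hsi := ((stabC p N C).inv_mem hs).1
  obtain ⟨h1, -, L', hL'⟩ := hs
  refine ⟨hS, Λ.compLinearMap fun _ => L', ⟨fun j => s.1 (n₀ j), fun j => (h1 _).mp (hn₀ j), ?_⟩,
    fun n hn => ?_⟩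
  · rw [MultilinearMap.compLinearMap_apply]
    have : ∀ j, L' (C (s.1 (n₀ j))) = C (n₀ j) := fun j => by
      rw [← hL' _ ((h1 _).mp (hn₀ j))]; simp
    simpa only [this] using hne
  · rw [MultilinearMap.compLinearMap_apply, MultilinearMap.compLinearMap_apply]
    have e1 : ∀ j, L' (C ((s * φ * s⁻¹).1 (n j))) = C (φ.1 ((s⁻¹).1 (n j))) := fun j => by
      rw [← hL' _ ((hS.1 _).mp (hn j))]; simp
    have e2 : ∀ j, L' (C (n j)) = C ((s⁻¹).1 (n j)) := fun j => (hL' _ (hn j)).symm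
    simp only [e1, e2]
    exact hΛ _ fun j => (hsi _).mp (hn j)

variable [IsTopologicalGroup F] [CompactSpace F] [TotallyDisconnectedSpace F] {d : ℕ}
  {x : Fin d → F}

theorem IsFreeProP.measure_badC (hF : IsFreeProP p x) [FiniteDimensional ℚ_[p] E]
    {N : Subgroup F} [N.Normal] (hNc : IsClosed (N : Set F)) (hN : H1Vanish p N)
    {σ : F →* (E →L[ℚ_[p]] E)} (hσ : Continuous σ) (h1 : ∀ n ∈ N, σ n = 1) {C : F → E}
    (hC : Continuous C) (hcoc : IsCocycle σ C) {k : ℕ} (hk : k ≠ 0)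
    [MeasurableSpace (ContAut F)] [BorelSpace (ContAut F)] (μ : Measure (ContAut F))
    [IsProbabilityMeasure μ] [μ.IsMulLeftInvariant] :
    μ {φ | ∃ α, α⁻¹ * φ * α ∈ badC p N C k} = 0 := by
  classical
  have := hF.compactSpace_aut
  have := hF.isTopologicalGroup_aut
  obtain ⟨j₀, hj₀⟩ := hF.exists_scaling hNc hN hσ h1 hC hcoc
  choose ψ hψN hψ using fun i : ℕ => hj₀ (j₀ + i) (Nat.le_add_right _ _)
  let u : ℕ → ℚ_[p] := fun i => 1 + (p : ℚ_[p]) ^ (j₀ + i + 1)
  have hu : ∀ i, u i = ((1 + p ^ (j₀ + i + 1) : ℕ) : ℚ_[p]) := fun i => by simp [u]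
  have hu0 : ∀ i, u i ≠ 0 := fun i => by
    rw [hu]; exact_mod_cast (by positivity : 1 + p ^ (j₀ + i + 1) ≠ 0)
  have huinj : Function.Injective fun i => u i ^ k := by
    intro i i' h
    simp only [hu] at h
    have h2 : (1 + p ^ (j₀ + i + 1)) ^ k = (1 + p ^ (j₀ + i' + 1)) ^ k := by exact_mod_cast h
    have h3 := Nat.pow_left_injective hk h2
    have h4 := Nat.pow_right_injective hp.out.two_le (Nat.add_left_cancel h3)
    omega
  have hψS : ∀ i, ψ i ∈ stabC p N C := by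
    intro i
    refine ⟨hψN i, ⟨u i • LinearMap.id, fun n hn => hψ i n hn⟩,
      ⟨(u i)⁻¹ • LinearMap.id, fun n hn => ?_⟩⟩
    have h2 := hψ i (((ψ i)⁻¹).1 n) ((hψN i _).mpr (by simpa using hn))
    have h3 : (ψ i).1 (((ψ i)⁻¹).1 n) = n := by simp
    rw [h3] at h2
    rw [h2]
    show _ = (u i)⁻¹ • u i • C (((ψ i)⁻¹).1 n)
    rw [smul_smul, inv_mul_cancel₀ (hu0 i), one_smul]
  let res : MultilinearMap ℚ_[p] (fun _ : Fin k => E) ℚ_[p] →ₗ[ℚ_[p]] ((Fin k → N) → ℚ_[p]) :=
    { toFun := fun Λ n => Λ fun j => C (n j)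
      map_add' := fun _ _ => rfl
      map_smul' := fun _ _ => rfl }
  let T := LinearMap.range res
  let b := Module.finBasis ℚ_[p] T
  choose Λ hΛ using fun l => (b l).2
  let comb : (Fin (Module.finrank ℚ_[p] T) → ℚ_[p]) →
      MultilinearMap ℚ_[p] (fun _ : Fin k => E) ℚ_[p] := fun a => ∑ l, a l • Λ l
  have hcomb : ∀ a v, comb a v = ∑ l, a l * Λ l v := fun a v => by simp [comb]
  have hres : ∀ a, res (comb a) = (b.equivFun.symm a : T) := by
    intro a
    simp [comb, hΛ, Module.Basis.equivFun_symm_apply]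
  obtain ⟨c, hc⟩ := NormedField.exists_one_lt_norm ℚ_[p]
  let K : Set (Fin (Module.finrank ℚ_[p] T) → ℚ_[p]) := {a | 1 / ‖c‖ ≤ ‖a‖ ∧ ‖a‖ ≤ 1}
  have hK : IsCompact K := by
    refine (isCompact_closedBall (0 : Fin (Module.finrank ℚ_[p] T) → ℚ_[p]) 1).of_isClosed_subset
      ((isClosed_le continuous_const continuous_norm).inter
        (isClosed_le continuous_norm continuous_const)) fun a ha => ?_
    simpa using ha.2
  let B' : Set (ContAut F) := {φ | (∀ a ∈ N, φ.1 a ∈ N) ∧ ∃ a ∈ K, ∀ n : Fin k → N,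
    comb a (fun j => C (φ.1 (n j))) = comb a fun j => C (n j)}
  have hB' : IsClosed B' := by
    have c1 : IsClosed {φ : ContAut F | ∀ a ∈ N, φ.1 a ∈ N} := by
      simp only [ofPred_forall]
      exact isClosed_iInter fun a => isClosed_iInter fun _ =>
        hNc.preimage (continuous_aut_eval_const a)
    have : CompactSpace K := isCompact_iff_compactSpace.mp hK
    have c2 : IsClosed {z : ContAut F × K | ∀ n : Fin k → N,
        comb z.2 (fun j => C (z.1.1 (n j))) = comb z.2 fun j => C (n j)} := by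
      simp only [ofPred_forall, hcomb]
      refine isClosed_iInter fun n => isClosed_eq ?_ ?_
      · refine continuous_finsetSum _ fun l _ => Continuous.mul
          ((continuous_apply l).comp (continuous_subtype_val.comp continuous_snd)) ?_
        exact (continuous_multilinear _).comp (continuous_pi fun j =>
          hC.comp ((continuous_aut_eval_const _).comp continuous_fst))
      · exact continuous_finsetSum _ fun l _ => Continuous.mul
          ((continuous_apply l).comp (continuous_subtype_val.comp continuous_snd)) continuous_const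
    have c3 := isClosedMap_fst_of_compactSpace _ c2
    convert c1.inter c3 using 1
    ext φ
    constructor
    · rintro ⟨h2, a, ha, h3⟩
      exact ⟨h2, (φ, ⟨a, ha⟩), h3, rfl⟩
    · rintro ⟨h2, ⟨φ', a⟩, h3, rfl⟩
      exact ⟨h2, a, a.2, h3⟩
  refine measure_conj_eq_zero μ (stabC p N C) (B' := B') (fun b hb => hb.1)
    (fun s hs b hb => conj_mem_badC hs hb) ?_ hB' ψ hψS (Module.finrank ℚ_[p] T) ?_
  · rintro φ ⟨hφS, Λ₀, ⟨n₀, hn₀, hne⟩, hΛ₀⟩
    refine ⟨fun a ha => (hφS.1 a).mp ha, ?_⟩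
    let τ : T := ⟨res Λ₀, Λ₀, rfl⟩
    have hτ : b.equivFun τ ≠ 0 := by
      rw [Ne, LinearEquiv.map_eq_zero_iff]
      intro h
      exact hne (congrFun (congrArg Subtype.val h) fun j => ⟨n₀ j, hn₀ j⟩)
    obtain ⟨t, -, ht1, ht2, -⟩ := rescale_to_shell hc one_pos hτ
    refine ⟨t • b.equivFun τ, ⟨ht2, ht1.le⟩, fun n => ?_⟩
    have h2 : res (comb (t • b.equivFun τ)) = t • res Λ₀ := by
      rw [hres, map_smul, LinearEquiv.symm_apply_apply]; rfl
    have h3 := congrFun h2 n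
    have h4 := congrFun h2 fun j => ⟨φ.1 (n j), (hφS.1 _).mp (n j).2⟩
    refine h4.trans (Eq.trans ?_ h3.symm)
    exact congrArg (t • ·) (hΛ₀ (fun j => n j) fun j => (n j).2)
  · intro s I hI
    rcases I.eq_empty_or_nonempty with rfl | ⟨i₀, hi₀⟩
    · simp
    have hs : ∀ i a, s.1 a = (s * (ψ i)⁻¹).1 ((ψ i).1 a) := fun i a => by simp
    have hsN : ∀ a ∈ N, s.1 a ∈ N := fun a ha => by
      rw [hs i₀]; exact (hI i₀ hi₀).1 _ ((hψN i₀ a).mp ha)
    let 𝒮 : Module.End ℚ_[p] ((Fin k → N) → ℚ_[p]) :=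
      LinearMap.funLeft ℚ_[p] ℚ_[p] fun n j => ⟨s.1 (n j), hsN _ (n j).2⟩
    choose a ha ha' using fun i : I => (hI i i.2).2
    let v : I → T := fun i => b.equivFun.symm (a i)
    have hli : LinearIndependent ℚ_[p] (T.subtype ∘ v) := by
      refine Module.End.eigenvectors_linearIndependent' 𝒮 (fun i : I => u i ^ k)
        (huinj.comp Subtype.val_injective) _ fun i => ⟨?_, ?_⟩
      · rw [Module.End.mem_eigenspace_iff]
        ext n
        have e : (T.subtype ∘ v) i = res (comb (a i)) := (hres _).symm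
        rw [e]
        show comb (a i) (fun j => C (s.1 (n j))) = u i ^ k * comb (a i) fun j => C (n j)
        have h2 := ha' i fun j => ⟨(ψ i).1 (n j), (hψN i _).mp (n j).2⟩
        simp only [← hs] at h2
        rw [h2]
        have h3 : ∀ j, C ((ψ i).1 (n j)) = u i • C (n j) := fun j => hψ i _ (n j).2
        simp only [h3]
        rw [MultilinearMap.map_smul_univ]
        simp
      · intro h
        have h2 : v i = 0 := Subtype.ext h
        have h3 : a i = 0 := b.equivFun.symm.map_eq_zero_iff.mp h2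
        have h4 := (ha i).1
        rw [h3, norm_zero] at h4
        have : 0 < 1 / ‖c‖ := by positivity
        linarith
    have := (hli.of_comp T.subtype).fintype_card_le_finrank
    simpa using this

end Pool.Agent.Lib.MP_dd16b7_nt
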