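import Mathlib
import Pool.Agent.Lib.MP_dd16b7_nt.Generic
import Pool.Agent.Lib.MP_dd16b7_nt.PExp

/-!
Two applications of the genericity theorem: equivariant homomorphisms on characteristic open
subgroups, and invariant cocycles restricted to the kernel of a representation.
-/

namespace Pool.Agent.Lib.MP_dd16b7_nt

open MeasureTheory Filter Topology Set

variable {p : ℕ} [hp : Fact p.Prime]
variable {F : Type} [Group F] [TopologicalSpace F]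
variable {𝔸 : Type*} [NormedRing 𝔸] [NormedAlgebra ℚ_[p] 𝔸]

theorem trace_prod_eq_zero {E : Type*} [NormedAddCommGroup E] [NormedSpace ℚ_[p] E]
    {τ : 𝔸 →L[ℚ_[p]] ℚ_[p]} (hτ : ∀ a b, τ (a * b) = τ (b * a))
    {N : Subgroup F} {C : F → E} {φ : ContAut F} (hφ : φ ∈ stabC p N C)
    (hgen : ∀ k ≠ 0, φ ∉ badC p N C k) {c : F → 𝔸} {L : E →ₗ[ℚ_[p]] 𝔸}
    (hL : ∀ n ∈ N, c n = L (C n)) {M : 𝔸ˣ}
    (hM : ∀ n ∈ N, c (φ.1 n) = M * c n * ((M⁻¹ : 𝔸ˣ) : 𝔸)) (l : List 𝔸) (hl : l ≠ [])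
    (hlN : ∀ u ∈ l, ∃ n ∈ N, u = c n) : τ l.prod = 0 := by
  by_contra hne
  choose n hn hnl using fun j : Fin l.length => hlN (l.get j) (List.get_mem l j)
  let Λ : MultilinearMap ℚ_[p] (fun _ : Fin l.length => E) ℚ_[p] :=
    τ.toLinearMap.compMultilinearMap
      ((MultilinearMap.mkPiAlgebraFin ℚ_[p] l.length 𝔸).compLinearMap fun _ => L)
  have hΛ : ∀ n : Fin l.length → F, (∀ j, n j ∈ N) →
      Λ (fun j => C (n j)) = τ (List.ofFn fun j => c (n j)).prod := by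
    intro n hn
    have : (fun j => c (n j)) = fun j => L (C (n j)) := funext fun j => hL _ (hn j)
    rw [this]
    rfl
  refine hgen l.length (by simpa using hl) ⟨hφ, Λ, ⟨n, hn, ?_⟩, fun n hn => ?_⟩
  · rw [hΛ n hn, ← funext hnl, List.ofFn_get]
    exact hne
  · rw [hΛ n hn, hΛ (fun j => φ.1 (n j)) fun j => (hφ.1 _).mp (hn j)]
    have : (List.ofFn fun j => c (φ.1 (n j))) = (List.ofFn fun j => c (n j)).map
        (conjAlg (p := p) M) := by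
      rw [List.map_ofFn]
      exact congrArg _ (funext fun j => hM _ (hn j))
    rw [this, ← map_list_prod, conjAlg_apply, hτ, ← mul_assoc, Units.inv_mul, one_mul]

theorem exists_linear_of_coord {E G : Type*} [AddCommGroup E] [Module ℚ_[p] E]
    [NormedAddCommGroup G] [NormedSpace ℚ_[p] G] [FiniteDimensional ℚ_[p] G] {X : Type*}
    {N : Set X} {C : X → E} {h : X → G}
    (H : ∀ ℓ : G →L[ℚ_[p]] ℚ_[p], ∃ ℓ' : E →ₗ[ℚ_[p]] ℚ_[p], ∀ n ∈ N, ℓ (h n) = ℓ' (C n)) :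
    ∃ L : E →ₗ[ℚ_[p]] G, ∀ n ∈ N, h n = L (C n) := by
  let b := Module.finBasis ℚ_[p] G
  choose ℓ hℓ using fun i => H (LinearMap.toContinuousLinearMap (b.coord i))
  refine ⟨∑ i, (ℓ i).smulRight (b i), fun n hn => ?_⟩
  rw [← b.sum_repr (h n), LinearMap.sum_apply]
  refine Finset.sum_congr rfl fun i _ => ?_
  rw [LinearMap.smulRight_apply, ← hℓ i n hn]
  rfl

variable (p) in
/-- The regular representation of a finite quotient. -/
noncomputable def permAct (N : Subgroup F) [N.Normal] [Fintype (F ⧸ N)] :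
    F →* ((F ⧸ N → ℚ_[p]) →L[ℚ_[p]] (F ⧸ N → ℚ_[p])) where
  toFun a := ContinuousLinearMap.pi fun q => ContinuousLinearMap.proj ((a : F ⧸ N)⁻¹ * q)
  map_one' := by ext v q; simp
  map_mul' a b := by ext v q; simp [mul_assoc]

variable (p) in
/-- The adjoint action attached to a representation. -/
noncomputable def adAct (ρ : F →* 𝔸) : F →* (𝔸 →L[ℚ_[p]] 𝔸) where
  toFun a := ContinuousLinearMap.mulLeftRight ℚ_[p] 𝔸 (ρ a) (ρ a⁻¹)
  map_one' := by ext v; simp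
  map_mul' a b := by ext v; simp [mul_assoc]

omit [TopologicalSpace F] in
theorem adAct_apply (ρ : F →* 𝔸) (a : F) (y : 𝔸) : adAct p ρ a y = ρ a * y * ρ a⁻¹ := rfl

omit [TopologicalSpace F] in
theorem adAct_ker (ρ : F →* 𝔸) {n : F} (hn : n ∈ ρ.ker) : adAct p ρ n = 1 := by
  ext y
  rw [adAct_apply, MonoidHom.mem_ker.mp hn, MonoidHom.mem_ker.mp (ρ.ker.inv_mem hn)]
  simp

variable [IsTopologicalGroup F]

theorem continuous_adAct {ρ : F →* 𝔸} (hρ : Continuous ρ) : Continuous (adAct p ρ) := by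
  show Continuous fun a => ContinuousLinearMap.mulLeftRight ℚ_[p] 𝔸 (ρ a) (ρ a⁻¹)
  fun_prop

theorem continuous_permAct (N : Subgroup F) [N.Normal] [Fintype (F ⧸ N)]
    (hN : IsOpen (N : Set F)) : Continuous (permAct p N) := by
  have : DiscreteTopology (F ⧸ N) := QuotientGroup.discreteTopology hN
  exact (continuous_of_discreteTopology (f := fun a : F ⧸ N =>
    (ContinuousLinearMap.pi fun q => ContinuousLinearMap.proj (a⁻¹ * q) :
      (F ⧸ N → ℚ_[p]) →L[ℚ_[p]] (F ⧸ N → ℚ_[p])))).comp QuotientGroup.continuous_mk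

/-- Shapiro's lemma: homomorphisms on `N` extend to cocycles in the regular representation. -/
theorem exists_cocycle_permAct (N : Subgroup F) [N.Normal] [Fintype (F ⧸ N)]
    (hN : IsOpen (N : Set F)) {h : F → ℚ_[p]} (hc : ContinuousOn h N)
    (hadd : ∀ a ∈ N, ∀ b ∈ N, h (a * b) = h a + h b) :
    ∃ c : F → F ⧸ N → ℚ_[p], Continuous c ∧ IsCocycle (permAct p N) c ∧ ∀ n ∈ N, c n 1 = h n := by
  classical
  have : DiscreteTopology (F ⧸ N) := QuotientGroup.discreteTopology hN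
  let s : F ⧸ N → F := fun q => if q = 1 then 1 else q.out
  have hs : ∀ q, (s q : F ⧸ N) = q := by
    intro q
    by_cases hq : q = 1 <;> simp [s, hq]
  have hs1 : s 1 = 1 := by simp [s]
  have hmem : ∀ (a : F) (q : F ⧸ N), (s q)⁻¹ * a * s ((a : F ⧸ N)⁻¹ * q) ∈ N := by
    intro a q
    rw [← QuotientGroup.eq_one_iff]
    simp [hs]
  refine ⟨fun a q => h ((s q)⁻¹ * a * s ((a : F ⧸ N)⁻¹ * q)), continuous_pi fun q => ?_,
    fun a b => funext fun q => ?_, fun n hn => ?_⟩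
  · refine hc.comp_continuous ?_ fun a => hmem a q
    have : Continuous fun a : F => s ((a : F ⧸ N)⁻¹ * q) :=
      (continuous_of_discreteTopology (f := fun a : F ⧸ N => s (a⁻¹ * q))).comp
        QuotientGroup.continuous_mk
    fun_prop
  · show _ = h _ + h _
    rw [← hadd _ (hmem a q) _ (hmem b _)]
    simp [mul_assoc]
  · simp [(QuotientGroup.eq_one_iff n).mpr hn, hs1]

variable [CompactSpace F] [TotallyDisconnectedSpace F] {d : ℕ} {x : Fin d → F}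
  [FiniteDimensional ℚ_[p] 𝔸]

theorem IsFreeProP.ae_hom (hF : IsFreeProP p x) {τ : 𝔸 →L[ℚ_[p]] ℚ_[p]}
    (hτ : ∀ a b, τ (a * b) = τ (b * a)) [MeasurableSpace (ContAut F)] [BorelSpace (ContAut F)]
    (μ : Measure (ContAut F)) [IsProbabilityMeasure μ] [μ.IsMulLeftInvariant] (m : ℕ) :
    ∀ᵐ φ ∂μ, ∀ c : F → 𝔸, ContinuousOn c (level F m) →
      (∀ a ∈ level F m, ∀ b ∈ level F m, c (a * b) = c a + c b) → ∀ M : 𝔸ˣ,
      (∀ n ∈ level F m, c (φ.1 n) = M * c n * ((M⁻¹ : 𝔸ˣ) : 𝔸)) → ∀ l : List 𝔸, l ≠ [] →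
      (∀ u ∈ l, ∃ n ∈ level F m, u = c n) → τ l.prod = 0 := by
  have ho := hF.isOpen_level m
  set N := level F m with hN
  have : Finite (F ⧸ N) := N.quotient_finite_of_isOpen ho
  have : Fintype (F ⧸ N) := Fintype.ofFinite _
  obtain ⟨r, C, hC, hcoc, huniv⟩ := hF.exists_universal (permAct p N)
  have hσ : ∀ n ∈ N, piAct (permAct p N) r n = 1 := by
    intro n hn
    ext v j q
    simp [piAct, permAct, (QuotientGroup.eq_one_iff n).mpr hn]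
  have hlin : ∀ {G : Type _} [NormedAddCommGroup G] [NormedSpace ℚ_[p] G]
      [FiniteDimensional ℚ_[p] G] (h : F → G), ContinuousOn h N →
      (∀ a ∈ N, ∀ b ∈ N, h (a * b) = h a + h b) →
      ∃ L : _ →ₗ[ℚ_[p]] G, ∀ n ∈ N, h n = L (C n) := by
    intro G _ _ _ h hc hadd
    refine exists_linear_of_coord (N := (N : Set F)) fun ℓ => ?_
    obtain ⟨c, h1, h2, h3⟩ := exists_cocycle_permAct N ho (h := fun a => ℓ (h a))
      (ℓ.continuous.comp_continuousOn hc) fun a ha b hb => by rw [hadd a ha b hb, map_add]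
    obtain ⟨L, hL⟩ := huniv c h1 h2
    exact ⟨(LinearMap.proj 1).comp L, fun n hn => by rw [← h3 n hn, hL]; rfl⟩
  have hlin' : ∀ (h : F → 𝔸), ContinuousOn h N →
      (∀ a ∈ N, ∀ b ∈ N, h (a * b) = h a + h b) →
      ∃ L : _ →ₗ[ℚ_[p]] 𝔸, ∀ n ∈ N, h n = L (C n) := by
    intro h hc hadd
    refine exists_linear_of_coord (N := (N : Set F)) fun ℓ => ?_
    obtain ⟨c, h1, h2, h3⟩ := exists_cocycle_permAct N ho (h := fun a => ℓ (h a))
      (ℓ.continuous.comp_continuousOn hc) fun a ha b hb => by rw [hadd a ha b hb, map_add]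
    obtain ⟨L, hL⟩ := huniv c h1 h2
    exact ⟨(LinearMap.proj 1).comp L, fun n hn => by rw [← h3 n hn, hL]; rfl⟩
  have hst : ∀ φ : ContAut F, ∃ L : _ →ₗ[ℚ_[p]] _, ∀ n ∈ N, C (φ.1 n) = L (C n) := by
    intro φ
    refine hlin (fun a => C (φ.1 a)) (hC.comp φ.2.1).continuousOn fun a ha b _ => ?_
    rw [map_mul, hcoc, hσ (φ.1 a) (map_mem_level φ.1.toMonoidHom φ.2.1 ha)]
    rfl
  have hstab : ∀ φ : ContAut F, φ ∈ stabC p N C := fun φ =>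
    ⟨fun a => ⟨map_mem_level φ.1.toMonoidHom φ.2.1, fun h => by
      simpa using map_mem_level φ.1.symm.toMonoidHom φ.2.2 h⟩, hst φ, hst φ⁻¹⟩
  have hae : ∀ᵐ φ ∂μ, ∀ k ≠ 0, φ ∉ badC p N C k := by
    rw [ae_all_iff]
    intro k
    by_cases hk : k = 0
    · simp [hk]
    have := hF.measure_badC (N.isClosed_of_isOpen ho) (h1Vanish_of_isOpen N ho)
      (continuous_piAct (continuous_permAct N ho) r) hσ hC hcoc hk μ
    filter_upwards [measure_eq_zero_iff_ae_notMem.mp this] with φ hφ _ hb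
    exact hφ ⟨1, by simpa using hb⟩
  filter_upwards [hae] with φ hφ c hc hadd M hM
  obtain ⟨L, hL⟩ := hlin' c hc hadd
  exact trace_prod_eq_zero hτ (hstab φ) hφ hL hM

theorem IsFreeProP.ae_cocycle (hF : IsFreeProP p x) {τ : 𝔸 →L[ℚ_[p]] ℚ_[p]}
    (hτ : ∀ a b, τ (a * b) = τ (b * a)) [MeasurableSpace (ContAut F)] [BorelSpace (ContAut F)]
    (μ : Measure (ContAut F)) [IsProbabilityMeasure μ] [μ.IsMulLeftInvariant]
    {ρ₀ : F →* 𝔸} (hρ₀ : Continuous ρ₀) (hH : H1Vanish p ρ₀.ker) :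
    ∀ᵐ φ ∂μ, ∀ (ρ : F →* 𝔸) (α : ContAut F) (b : 𝔸ˣ),
      (∀ a, ρ a = b * ρ₀ (α.1 a) * ((b⁻¹ : 𝔸ˣ) : 𝔸)) → ∀ M : 𝔸ˣ,
      (∀ a, ρ (φ.1 a) = M * ρ a * ((M⁻¹ : 𝔸ˣ) : 𝔸)) → ∀ c : F → 𝔸, Continuous c →
      IsCocycle (adAct p ρ) c → (∀ n ∈ ρ.ker, c (φ.1 n) = M * c n * ((M⁻¹ : 𝔸ˣ) : 𝔸)) →
      ∀ l : List 𝔸, l ≠ [] → (∀ u ∈ l, ∃ n ∈ ρ.ker, u = c n) → τ l.prod = 0 := by
  obtain ⟨r, C, hC, hcoc, huniv⟩ := hF.exists_universal (adAct p ρ₀)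
  have hσ : ∀ n ∈ ρ₀.ker, piAct (adAct p ρ₀) r n = 1 := by
    intro n hn
    ext v j
    simp [piAct, adAct_ker ρ₀ hn]
  have hcl : IsClosed (ρ₀.ker : Set F) := isClosed_singleton.preimage hρ₀
  have hae : ∀ᵐ φ ∂μ, ∀ k ≠ 0, ∀ α, α⁻¹ * φ * α ∉ badC p ρ₀.ker C k := by
    rw [ae_all_iff]
    intro k
    by_cases hk : k = 0
    · simp [hk]
    have := hF.measure_badC hcl hH (continuous_piAct (continuous_adAct hρ₀) r) hσ hC hcoc hk μ
    filter_upwards [measure_eq_zero_iff_ae_notMem.mp this] with φ hφ _ α hb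
    exact hφ ⟨α, hb⟩
  have htw : ∀ (ψ : ContAut F) (u : 𝔸ˣ) (ρ : F →* 𝔸),
      (∀ a, ρ (ψ.1 a) = u * ρ₀ a * ((u⁻¹ : 𝔸ˣ) : 𝔸)) → ∀ c : F → 𝔸, Continuous c →
      IsCocycle (adAct p ρ) c → ∃ L : _ →ₗ[ℚ_[p]] 𝔸, ∀ a, c (ψ.1 a) = L (C a) := by
    intro ψ u ρ hu c hc hcc
    obtain ⟨L, hL⟩ := huniv (fun a => ((u⁻¹ : 𝔸ˣ) : 𝔸) * c (ψ.1 a) * u)
      ((continuous_const.mul (hc.comp ψ.2.1)).mul continuous_const) (fun a b => by
        beta_reduce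
        rw [map_mul ψ.1, hcc, adAct_apply, adAct_apply, ← map_inv, hu, hu]
        simp [mul_add, add_mul, mul_assoc])
    refine ⟨(conjAlg (p := p) u).toLinearMap ∘ₗ L, fun a => ?_⟩
    show _ = conjAlg (p := p) u (L (C a))
    rw [← hL, conjAlg_apply]
    simp [mul_assoc]
  have hst : ∀ (ψ : ContAut F) (u : 𝔸ˣ), (∀ a, ρ₀ (ψ.1 a) = u * ρ₀ a * ((u⁻¹ : 𝔸ˣ) : 𝔸)) →
      ∃ L : _ →ₗ[ℚ_[p]] _, ∀ n ∈ ρ₀.ker, C (ψ.1 n) = L (C n) := by
    intro ψ u hu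
    choose L hL using fun j => htw ψ u ρ₀ hu (fun a => C a j) ((continuous_apply j).comp hC)
      fun a b => congrFun (hcoc a b) j
    exact ⟨LinearMap.pi L, fun n _ => funext fun j => hL j n⟩
  have hker : ∀ (u : 𝔸ˣ) (y : 𝔸), (u : 𝔸) * y * ((u⁻¹ : 𝔸ˣ) : 𝔸) = 1 ↔ y = 1 := by
    intro u y
    rw [Units.mul_inv_eq_iff_eq_mul, one_mul]
    exact ⟨fun h => u.mul_right_inj.mp (by rw [h, mul_one]), fun h => by rw [h, mul_one]⟩
  filter_upwards [hae] with φ hφ ρ α b hb M hM c hc hcc hcM l hl hlN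
  have hb' : ∀ a, ρ ((α⁻¹).1 a) = b * ρ₀ a * ((b⁻¹ : 𝔸ˣ) : 𝔸) := fun a => by
    rw [hb]; simp
  have hb'' : ∀ a, ρ₀ a = ((b⁻¹ : 𝔸ˣ) : 𝔸) * ρ ((α⁻¹).1 a) * b := fun a => by
    rw [hb']; simp [mul_assoc]
  have hψ : ∀ a, ρ₀ ((α * φ * α⁻¹).1 a) =
      ((b⁻¹ * M * b : 𝔸ˣ) : 𝔸) * ρ₀ a * (((b⁻¹ * M * b)⁻¹ : 𝔸ˣ) : 𝔸) := by
    intro a
    have : (α⁻¹).1 ((α * φ * α⁻¹).1 a) = φ.1 ((α⁻¹).1 a) := by simp
    rw [hb'', this, hM, hb']
    simp [mul_assoc]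
  have hψ' : ∀ a, ρ₀ (((α * φ * α⁻¹)⁻¹).1 a) =
      (((b⁻¹ * M * b)⁻¹ : 𝔸ˣ) : 𝔸) * ρ₀ a * ((((b⁻¹ * M * b)⁻¹)⁻¹ : 𝔸ˣ) : 𝔸) := by
    intro a
    have := hψ (((α * φ * α⁻¹)⁻¹).1 a)
    rw [show (α * φ * α⁻¹).1 (((α * φ * α⁻¹)⁻¹).1 a) = a by simp] at this
    rw [this]
    simp [mul_assoc]
  have hstab : α * φ * α⁻¹ ∈ stabC p ρ₀.ker C :=
    ⟨fun a => by rw [MonoidHom.mem_ker, MonoidHom.mem_ker, hψ, hker], hst _ _ hψ, hst _ _ hψ'⟩
  obtain ⟨L, hL⟩ := htw α⁻¹ b ρ hb' c hc hcc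
  refine trace_prod_eq_zero hτ hstab (fun k hk => by simpa using hφ k hk α⁻¹)
    (c := fun a => c ((α⁻¹).1 a)) (fun n _ => hL n) (M := M) (fun n hn => ?_) l hl
    fun u hu => ?_
  · have : (α⁻¹).1 ((α * φ * α⁻¹).1 n) = φ.1 ((α⁻¹).1 n) := by simp
    rw [this]
    exact hcM _ (by rw [MonoidHom.mem_ker, hb', hker]; exact hn)
  · obtain ⟨n, hn, rfl⟩ := hlN u hu
    refine ⟨α.1 n, ?_, by simp⟩
    rw [MonoidHom.mem_ker, hb, hker] at hn
    exact hn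

end Pool.Agent.Lib.MP_dd16b7_nt
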