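import Mathlib
import Pool.Agent.Lib.MP_dd16b7_nt.ProP

/-!
Existence of free pro-`p` groups (the pro-`p` completion of the abstract free group).
-/

namespace Pool.Agent.Lib.MP_dd16b7_nt

open Filter Topology Set

/-- Normal subgroups with finite `p`-group quotient. -/
structure PIdx (p : ℕ) (G : Type) [Group G] where
  /-- the subgroup -/
  N : Subgroup G
  normal : N.Normal
  fin : Finite (G ⧸ N)
  pg : ∀ g : G, ∃ k, g ^ p ^ k ∈ N

variable {p : ℕ} {G : Type} [Group G]

/-- The finite quotient attached to an index. -/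
def PIdx.Q (i : PIdx p G) : Type := G ⧸ i.N

instance (i : PIdx p G) : i.N.Normal := i.normal
instance (i : PIdx p G) : Group i.Q := inferInstanceAs (Group (G ⧸ i.N))
instance (i : PIdx p G) : Finite i.Q := i.fin
instance (i : PIdx p G) : TopologicalSpace i.Q := ⊥
instance (i : PIdx p G) : DiscreteTopology i.Q := ⟨rfl⟩

variable (p G) in
/-- The diagonal map to the product of the finite `p`-group quotients. -/
def diagP : G →* ∀ i : PIdx p G, i.Q := MonoidHom.pi fun i => QuotientGroup.mk' i.N

theorem exists_isFreeProP (p d : ℕ) : ∃ (F : Type) (_ : Group F) (_ : TopologicalSpace F)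
    (_ : IsTopologicalGroup F) (_ : CompactSpace F) (_ : TotallyDisconnectedSpace F)
    (x : Fin d → F), IsFreeProP p x := by
  let G := FreeGroup (Fin d)
  let η := diagP p G
  let F := η.range.topologicalClosure
  have hFc : CompactSpace F := isCompact_iff_compactSpace.mp isClosed_closure.isCompact
  have hη : ∀ g, η g ∈ F := fun g => η.range.le_topologicalClosure ⟨g, rfl⟩
  let η' : G →* F := η.codRestrict F hη
  refine ⟨F, inferInstance, inferInstance, inferInstance, hFc, inferInstance,
    fun i => η' (FreeGroup.of i), fun U g => ?_, fun P _ _ _ _ _ hP y => ?_⟩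
  · obtain ⟨g, rfl⟩ := QuotientGroup.mk_surjective g
    have : Tendsto (fun k : ℕ => g ^ p ^ k) atTop (𝓝 1) := by
      rw [tendsto_subtype_rng, tendsto_pi_nhds]
      intro i
      obtain ⟨a, ha⟩ := QuotientGroup.mk_surjective (s := i.N) (g.1 i)
      obtain ⟨k, hk⟩ := i.pg a
      refine tendsto_const_nhds.congr' ?_
      filter_upwards [eventually_ge_atTop k] with l hl
      obtain ⟨j, rfl⟩ := Nat.exists_eq_add_of_le hl
      have h1 : (g.1 i) ^ p ^ k = 1 := by
        rw [← ha]
        exact (QuotientGroup.eq_one_iff (a ^ p ^ k)).mpr hk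
      show (1 : i.Q) = (g.1 i) ^ p ^ (k + j)
      rw [pow_add, pow_mul, h1, one_pow]
    obtain ⟨k, hk⟩ := (this.eventually (U.isOpen.mem_nhds U.toSubgroup.one_mem)).exists
    exact ⟨k, (QuotientGroup.eq_one_iff (g ^ p ^ k)).mpr hk⟩
  · let f₀ : G →* P := FreeGroup.lift y
    let Γ := (η.prod f₀).range.topologicalClosure
    have hΓc : CompactSpace Γ := isCompact_iff_compactSpace.mp isClosed_closure.isCompact
    have h1 : ∀ z ∈ Γ, z.1 ∈ F := fun z hz =>
      map_mem_closure continuous_fst hz (by rintro _ ⟨g, rfl⟩; exact ⟨g, rfl⟩)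
    let pr : Γ →* F := ((MonoidHom.fst _ _).comp Γ.subtype).codRestrict F fun z => h1 z z.2
    have hprc : Continuous pr := (continuous_fst.comp continuous_subtype_val).subtype_mk _
    have hΓ : ∀ g, (η g, f₀ g) ∈ Γ := fun g => (η.prod f₀).range.le_topologicalClosure ⟨g, rfl⟩
    have hdense : ∀ S : Set F, IsClosed S → (∀ g, η' g ∈ S) → ∀ a, a ∈ S := by
      intro S hS h a
      have hc : IsClosed (Subtype.val '' S) := (hS.isCompact.image continuous_subtype_val).isClosed
      obtain ⟨b, hb, hba⟩ := hc.closure_subset_iff.mpr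
        (show (η.range : Set _) ⊆ Subtype.val '' S by
          rintro _ ⟨g, rfl⟩; exact ⟨η' g, h g, rfl⟩) a.2
      rwa [← Subtype.ext hba]
    have hsurj : Function.Surjective pr :=
      hdense (range pr) (isCompact_range hprc).isClosed fun g => ⟨⟨_, hΓ g⟩, rfl⟩
    have hinj : Function.Injective pr := by
      rw [injective_iff_map_eq_one]
      rintro ⟨⟨a, w⟩, hz⟩ h
      obtain rfl : a = 1 := congrArg Subtype.val h
      suffices w = 1 by subst this; rfl
      by_contra hw
      obtain ⟨V, hV⟩ := ProfiniteGrp.exist_openNormalSubgroup_sub_open_nhds_of_one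
        (isOpen_compl_singleton (x := w)) (Ne.symm hw)
      have : Finite (P ⧸ V.toSubgroup) := V.toSubgroup.quotient_finite_of_isOpen V.isOpen
      have : DiscreteTopology (P ⧸ V.toSubgroup) := QuotientGroup.discreteTopology V.isOpen
      let N := V.toSubgroup.comap f₀
      let j : G ⧸ N →* P ⧸ V.toSubgroup := QuotientGroup.map N V.toSubgroup f₀ le_rfl
      have hj : Function.Injective j := by
        rw [injective_iff_map_eq_one]
        intro q hq
        obtain ⟨g, rfl⟩ := QuotientGroup.mk_surjective q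
        exact (QuotientGroup.eq_one_iff g).mpr ((QuotientGroup.eq_one_iff (f₀ g)).mp hq)
      let i : PIdx p G := ⟨N, inferInstance, Finite.of_injective j hj, fun g => by
        obtain ⟨k, hk⟩ := hP V (f₀ g : P ⧸ V.toSubgroup)
        refine ⟨k, ?_⟩
        show f₀ (g ^ p ^ k) ∈ V.toSubgroup
        rw [map_pow]
        exact (QuotientGroup.eq_one_iff (f₀ g ^ p ^ k)).mp hk⟩
      have hcl : IsClosed {z : (∀ i : PIdx p G, i.Q) × P | j (z.1 i) = (z.2 : P ⧸ V.toSubgroup)} :=
        isClosed_eq ((continuous_of_discreteTopology (α := i.Q) (f := j)).comp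
          ((continuous_apply i).comp continuous_fst))
          (QuotientGroup.continuous_mk.comp continuous_snd)
      have h2 := hcl.closure_subset_iff.mpr
        (show ((η.prod f₀).range : Set _) ⊆ _ by rintro _ ⟨g, rfl⟩; rfl) hz
      have h3 : (w : P ⧸ V.toSubgroup) = 1 := h2.symm.trans (map_one j)
      exact hV ((QuotientGroup.eq_one_iff w).mp h3) rfl
    let e := MulEquiv.ofBijective pr ⟨hinj, hsurj⟩
    have hec : Continuous e.symm := hprc.continuous_symm_of_equiv_compact_to_t2 (f := e.toEquiv)
    let f : F →* P := ((MonoidHom.snd _ _).comp Γ.subtype).comp e.symm.toMonoidHom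
    have hf : ∀ g, f (η' g) = f₀ g := fun g => by
      have : e.symm (η' g) = ⟨_, hΓ g⟩ := e.symm_apply_eq.mpr rfl
      show (e.symm (η' g)).1.2 = _
      rw [this]
    have hfc : Continuous f := continuous_snd.comp (continuous_subtype_val.comp hec)
    refine ⟨f, ⟨hfc, fun i => by rw [hf]; exact FreeGroup.lift_apply_of⟩, ?_⟩
    rintro f' ⟨hf'c, hf'⟩
    have : f'.comp η' = f₀ := FreeGroup.ext_hom _ _ fun i =>
      (hf' i).trans (FreeGroup.lift_apply_of (f := y)).symm
    exact MonoidHom.ext (hdense {a | f' a = f a} (isClosed_eq hf'c hfc) fun g => by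
      show f' (η' g) = f (η' g)
      rw [hf, ← this]
      rfl)

open MeasureTheory in
theorem IsFreeProP.exists_haar [Fact p.Prime] {F : Type} [Group F] [TopologicalSpace F]
    [IsTopologicalGroup F] [CompactSpace F] [TotallyDisconnectedSpace F] {d : ℕ} {x : Fin d → F}
    (hF : IsFreeProP p x) [MeasurableSpace (ContAut F)] [BorelSpace (ContAut F)] :
    ∃ μ : Measure (ContAut F), μ.IsHaarMeasure ∧ IsProbabilityMeasure μ := by
  have := hF.compactSpace_aut
  have := hF.isTopologicalGroup_aut
  exact ⟨Measure.haarMeasure ⊤, inferInstance, ⟨by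
    simpa using Measure.haarMeasure_self (K₀ := (⊤ : TopologicalSpace.PositiveCompacts (ContAut F)))⟩⟩

end Pool.Agent.Lib.MP_dd16b7_nt
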