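import Mathlib

/-!
The first Whitehead lemma for Lie algebras with nondegenerate Killing form in characteristic zero.
-/

namespace Pool.Agent.Lib.MP_dd16b7_nt

open LieAlgebra LieModule Module

attribute [local instance 100] LieRing.ofAssociativeRing

universe u

variable {K L : Type*} [Field K] [CharZero K] [LieRing L] [LieAlgebra K L] [FiniteDimensional K L]
  [IsKilling K L]

omit [CharZero K] in
theorem lie_self_eq (r : LieIdeal K L) : ⁅r, r⁆ = r := by
  set DI : LieIdeal K L := ⁅r, r⁆ with hDI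
  have hc := DI.isCompl_killingCompl
  set C := DI.killingCompl K L with hC
  have hle : DI ≤ r := LieSubmodule.lie_le_left r r
  have hab : IsLieAbelian (r ⊓ C : LieIdeal K L) := by
    rw [LieSubmodule.lie_abelian_iff_lie_self_eq_bot, eq_bot_iff, ← hc.inf_eq_bot]
    refine le_inf (LieSubmodule.mono_lie inf_le_left inf_le_left) ?_
    exact (LieSubmodule.lie_le_left _ _).trans inf_le_right
  have hbot : r ⊓ C = ⊥ := IsKilling.ideal_eq_bot_of_isLieAbelian _
  have := sup_inf_assoc_of_le C hle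
  rw [hc.sup_eq_top, top_inf_eq, inf_comm C r, hbot, sup_bot_eq] at this
  exact this.symm

theorem toEnd_eq_zero_of_traceForm {M : Type*} [AddCommGroup M] [Module K M] [LieRingModule L M]
    [LieModule K L M] [FiniteDimensional K M] (r : LieIdeal K L)
    (h : ∀ x ∈ r, ∀ y ∈ r, traceForm K L M x y = 0) (x : L) (hx : x ∈ r) :
    toEnd K L M x = 0 := by
  have h0 : traceForm K r M = 0 := by
    ext ⟨a, ha⟩ ⟨b, hb⟩
    exact h a ha b hb
  have h1 := isNilpotent_derivedSeries_of_traceForm_eq_zero h0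
  have htop : derivedSeries K r 1 = ⊤ := by
    rw [LieIdeal.derivedSeries_eq_derivedSeriesOfIdeal_comap, derivedSeriesOfIdeal_succ,
      derivedSeriesOfIdeal_zero, lie_self_eq, LieIdeal.comap_incl_self]
  have hnil : ∀ y : r, IsNilpotent (toEnd K r M y) := by
    intro y
    have := (LieModule.isNilpotent_iff_forall' (R := K)).mp h1 ⟨y, by rw [htop]; trivial⟩
    exact this
  set f := (toEnd K r M).rangeRestrict with hf
  have hsurj : Function.Surjective f := (toEnd K r M).surjective_rangeRestrict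
  have hN : LieRing.IsNilpotent (toEnd K r M).range := by
    rw [LieAlgebra.isNilpotent_iff_forall (R := K)]
    rintro ⟨_, y, rfl⟩
    exact LieAlgebra.isNilpotent_ad_of_isNilpotent (hnil y)
  obtain ⟨k, hk⟩ := IsSolvable.solvable K (toEnd K r M).range
  have hk' : derivedSeries K (toEnd K r M).range (k + 1) = ⊥ := by
    rw [eq_bot_iff, ← hk]
    exact derivedSeriesOfIdeal_antitone ⊤ (Nat.le_succ k)
  rw [← LieIdeal.derivedSeries_map_eq (f := f) (k + 1) hsurj,
    (LieIdeal.derivedSeries_succ_eq_top_iff k).mpr htop, LieIdeal.map_eq_bot_iff] at hk'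
  have := hk' (LieSubmodule.mem_top (⟨x, hx⟩ : r))
  rw [LieHom.mem_ker] at this
  exact congrArg Subtype.val this

theorem exists_casimir {M : Type*} [AddCommGroup M] [Module K M] [LieRingModule L M]
    [LieModule K L M] [FiniteDimensional K M] (hM : ∃ x : L, toEnd K L M x ≠ 0) :
    ∃ Ω : End K M, LinearMap.trace K M Ω ≠ 0 ∧ (∀ x : L, Commute (toEnd K L M x) Ω) ∧
      ∀ ℓ : M →ₗ[K] K, (∀ (x : L) (m : M), ℓ ⁅x, m⁆ = 0) → ∀ m, ℓ (Ω m) = 0 := by
  classical
  set I : LieIdeal K L := LieModule.ker K L M with hI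
  have hc := I.isCompl_killingCompl
  set J := I.killingCompl K L with hJ
  set β := traceForm K L M with hβ
  set φ := toEnd K L M with hφ
  have hβI : ∀ x ∈ I, ∀ y, β x y = 0 := by
    intro x hx y
    have : φ x = 0 := hx
    rw [hβ, traceForm_apply_apply, ← hφ, this]; simp
  let r : LieIdeal K L :=
    InvariantForm.orthogonal β (traceForm_lieInvariant K L M) (⊤ : LieIdeal K L)
  have hr : ∀ y, y ∈ r ↔ ∀ x, β x y = 0 := by
    intro y
    rw [InvariantForm.mem_orthogonal]
    simp
  have hrI : r ≤ I := fun y hy =>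
    toEnd_eq_zero_of_traceForm r (fun a _ b hb => (hr b).mp hb a) y hy
  let B : LinearMap.BilinForm K J := β.compl₁₂ J.toSubmodule.subtype J.toSubmodule.subtype
  have hB : ∀ a b : J, B a b = β a b := fun _ _ => rfl
  have hsym : B.IsSymm := ⟨fun a b => traceForm_comm K L M a b⟩
  have hsep : ∀ b : J, (∀ a : J, B a b = 0) → b = 0 := by
    intro b hb
    have h1 : (b : L) ∈ r := by
      rw [hr]
      intro x
      have hx : x ∈ I ⊔ J := by rw [hc.sup_eq_top]; trivial
      obtain ⟨i, hi, j, hj, rfl⟩ := (LieSubmodule.mem_sup _ _ _).mp hx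
      rw [map_add, LinearMap.add_apply, hβI i hi, zero_add]
      exact hb ⟨j, hj⟩
    have h2 : (b : L) ∈ I ⊓ J := ⟨hrI h1, b.2⟩
    rw [hc.inf_eq_bot] at h2
    exact Subtype.ext h2
  have hnd : B.Nondegenerate :=
    ⟨fun a ha => hsep a fun b => by rw [hsym.eq]; exact ha b, hsep⟩
  let b := Module.finBasis K J
  let b' := B.dualBasis hnd b
  have e1 : ∀ y : J, (y : L) = ∑ j, β y (b j) • (b' j : L) := by
    intro y
    conv_lhs => rw [← b'.sum_repr y]
    simp [b', hB]
  have e2 : ∀ y : J, (y : L) = ∑ j, β y (b' j) • (b j : L) := by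
    intro y
    have : B.dualBasis hnd b' = b := LinearMap.BilinForm.dualBasis_dualBasis hnd hsym b
    have h1 := (B.dualBasis hnd b').sum_repr y
    simp only [LinearMap.BilinForm.dualBasis_repr_apply] at h1
    rw [this] at h1
    conv_lhs => rw [← h1]
    simp [hB]
  refine ⟨∑ i, φ (b i) * φ (b' i), ?_, ?_, ?_⟩
  · have : ∀ i, LinearMap.trace K M (φ (b i) * φ (b' i)) = 1 := by
      intro i
      have := LinearMap.BilinForm.apply_dualBasis_right hnd hsym b i i
      rw [if_pos rfl] at this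
      exact this
    rw [map_sum]
    simp only [this, Finset.sum_const, Finset.card_univ, Fintype.card_fin, nsmul_eq_mul, mul_one,
      ne_eq, Nat.cast_eq_zero]
    intro h0
    obtain ⟨x, hx⟩ := hM
    apply hx
    have hJ0 : J = ⊥ := by
      have : Subsingleton J := Module.finrank_zero_iff.mp h0
      rw [eq_bot_iff]
      intro y hy
      exact congrArg Subtype.val (Subsingleton.elim (⟨y, hy⟩ : J) 0)
    have := hc.sup_eq_top
    rw [hJ0, sup_bot_eq] at this
    have hx' : x ∈ I := by rw [this]; trivial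
    exact hx'
  · intro y
    have key : ∀ i, φ y * (φ (b i) * φ (b' i)) - φ (b i) * φ (b' i) * φ y
        = φ ⁅y, (b i : L)⁆ * φ (b' i) + φ (b i) * φ ⁅y, (b' i : L)⁆ := by
      intro i
      simp only [LieHom.map_lie, Ring.lie_def]
      noncomm_ring
    have s1 : ∑ i, φ ⁅y, (b i : L)⁆ * φ (b' i)
        = ∑ i, ∑ j, β ⁅y, (b i : L)⁆ (b' j) • (φ (b j) * φ (b' i)) := by
      refine Finset.sum_congr rfl fun i _ => ?_
      have := e2 ⟨⁅y, (b i : L)⁆, J.lie_mem (b i).2⟩
      simp only at this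
      conv_lhs => rw [this]
      simp [Finset.sum_mul]
    have s2 : ∑ i, φ (b i) * φ ⁅y, (b' i : L)⁆
        = ∑ i, ∑ j, -(β ⁅y, (b j : L)⁆ (b' i) • (φ (b i) * φ (b' j))) := by
      refine Finset.sum_congr rfl fun i _ => ?_
      have := e1 ⟨⁅y, (b' i : L)⁆, J.lie_mem (b' i).2⟩
      simp only at this
      conv_lhs => rw [this]
      simp only [map_sum, map_smul, Finset.mul_sum, mul_smul_comm]
      refine Finset.sum_congr rfl fun j _ => ?_
      rw [← neg_smul]
      congr 1
      rw [hβ, traceForm_apply_lie_apply' K L M y (b j), neg_neg, traceForm_comm]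
    rw [Commute, SemiconjBy, ← sub_eq_zero, Finset.mul_sum, Finset.sum_mul, ← Finset.sum_sub_distrib]
    simp only [key]
    rw [Finset.sum_add_distrib, s1, s2, Finset.sum_comm]
    simp
  · intro ℓ hℓ m
    rw [LinearMap.sum_apply, map_sum]
    exact Finset.sum_eq_zero fun i _ => hℓ _ _

theorem exists_invariant_aux (n : ℕ) : ∀ (M : Type u) [AddCommGroup M] [Module K M]
    [LieRingModule L M] [LieModule K L M] [FiniteDimensional K M], finrank K M = n →
    ∀ ℓ : M →ₗ[K] K, ℓ ≠ 0 → (∀ (x : L) (m : M), ℓ ⁅x, m⁆ = 0) →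
      ∃ v : M, ℓ v = 1 ∧ ∀ x : L, ⁅x, v⁆ = 0 := by
  induction n using Nat.strong_induction_on with
  | _ n ih =>
  intro M _ _ _ _ _ hn ℓ hℓ0 hℓ
  by_cases hM : ∃ x : L, toEnd K L M x ≠ 0
  · obtain ⟨Ω, htr, hcomm, hker⟩ := exists_casimir hM
    obtain ⟨k, hk, hk1⟩ := ((LinearMap.eventually_isCompl_ker_pow_range_pow Ω).and
      (Filter.eventually_ge_atTop 1)).exists
    let N : LieSubmodule K L M :=
      { LinearMap.ker (Ω ^ k) with
        lie_mem := fun {x m} hm => by
          have h1 := ((hcomm x).pow_right k).eq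
          have h2 : (Ω ^ k) m = 0 := hm
          show (Ω ^ k) (toEnd K L M x m) = 0
          rw [← Module.End.mul_apply, ← h1, Module.End.mul_apply, h2, map_zero] }
    have hNtop : LinearMap.ker (Ω ^ k) ≠ ⊤ := by
      intro h
      apply htr
      exact (LinearMap.isNilpotent_trace_of_isNilpotent ⟨k, LinearMap.ker_eq_top.mp h⟩).eq_zero
    have hlt : finrank K N < n := by
      rw [← hn]
      exact Submodule.finrank_lt hNtop
    have hℓN : ℓ ∘ₗ N.toSubmodule.subtype ≠ 0 := by
      intro h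
      apply hℓ0
      ext m
      have hm : m ∈ LinearMap.ker (Ω ^ k) ⊔ LinearMap.range (Ω ^ k) := by
        rw [hk.sup_eq_top]; trivial
      obtain ⟨a, ha, _, ⟨c, rfl⟩, rfl⟩ := Submodule.mem_sup.mp hm
      have h1 : ℓ a = 0 := LinearMap.congr_fun h ⟨a, ha⟩
      obtain ⟨j, rfl⟩ := Nat.exists_eq_add_of_le hk1
      rw [map_add, h1, pow_add, pow_one, Module.End.mul_apply, hker ℓ hℓ]
      simp
    obtain ⟨v, hv1, hv2⟩ := ih _ hlt N rfl _ hℓN (fun x m => hℓ x m)
    exact ⟨v, hv1, fun x => congrArg Subtype.val (hv2 x)⟩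
  · push Not at hM
    obtain ⟨m, hm⟩ : ∃ m, ℓ m ≠ 0 := by
      by_contra h
      push Not at h
      exact hℓ0 (LinearMap.ext h)
    refine ⟨(ℓ m)⁻¹ • m, by simp [hm], fun x => ?_⟩
    exact LinearMap.congr_fun (hM x) _

/-- An invariant functional has an invariant section. -/
theorem exists_invariant {E : Type u} [AddCommGroup E] [Module K E] [FiniteDimensional K E]
    (θ : L →ₗ⁅K⁆ End K E) (ℓ : E →ₗ[K] K) (h0 : ℓ ≠ 0) (hℓ : ∀ x v, ℓ (θ x v) = 0) :
    ∃ v : E, ℓ v = 1 ∧ ∀ x : L, θ x v = 0 := by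
  let : LieRingModule L E := LieRingModule.compLieHom E θ
  let : LieModule K L E := LieModule.compLieHom E θ
  exact exists_invariant_aux (L := L) _ E rfl ℓ h0 hℓ

/-- First Whitehead lemma: every derivation into a module is inner. -/
theorem whitehead {E : Type u} [AddCommGroup E] [Module K E] [FiniteDimensional K E]
    (θ : L →ₗ⁅K⁆ End K E) (D : L →ₗ[K] E) (hD : ∀ x y, D ⁅x, y⁆ = θ x (D y) - θ y (D x)) :
    ∃ e : E, ∀ x, D x = θ x e := by
  let T : L →ₗ[K] End K (E × K) :=
    { toFun := fun x => LinearMap.inl K E K ∘ₗ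
        (θ x ∘ₗ LinearMap.fst K E K - (LinearMap.snd K E K).smulRight (D x))
      map_add' := fun x y => by
        refine LinearMap.ext fun v => ?_
        simp only [map_add, LinearMap.comp_apply, LinearMap.sub_apply, LinearMap.add_apply,
          LinearMap.smulRight_apply, smul_add]
        rw [← map_add]; congr 1; abel
      map_smul' := fun c x => by
        refine LinearMap.ext fun v => ?_
        simp [smul_sub, smul_smul, mul_comm] }
  have hT : ∀ x v, T x v = (θ x v.1 - v.2 • D x, 0) := fun x v => rfl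
  let θ' : L →ₗ⁅K⁆ End K (E × K) :=
    { T with
      map_lie' := fun {x y} => by
        refine LinearMap.ext fun v => ?_
        show T ⁅x, y⁆ v = (T x * T y - T y * T x) v
        simp only [LinearMap.sub_apply, Module.End.mul_apply, hT, hD, LieHom.map_lie, Ring.lie_def,
          map_sub, map_smul, zero_smul, sub_zero, smul_sub, Prod.mk_sub_mk]
        congr 1
        abel }
  obtain ⟨v, hv1, hv2⟩ := exists_invariant θ' (LinearMap.snd K E K)
    (fun h => one_ne_zero (LinearMap.congr_fun h (0, 1))) (fun x v => rfl)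
  refine ⟨v.1, fun x => ?_⟩
  have h1 : T x v = 0 := hv2 x
  have h2 : v.2 = 1 := hv1
  rw [hT, h2, one_smul, Prod.mk_eq_zero, sub_eq_zero] at h1
  exact h1.1.symm

end Pool.Agent.Lib.MP_dd16b7_nt
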