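import Mathlib
import Pool.Agent.Lib.MP_dd16b7_nt.PExp
import Pool.Agent.Lib.MP_dd16b7_nt.Whitehead
import Pool.Agent.Lib.MP_dd16b7_nt.Cocycle

/-!
Vanishing of the first continuous cohomology of a compact `p`-adic Lie group whose Lie algebra is
semisimple.
-/

namespace Pool.Agent.Lib.MP_dd16b7_nt

open NormedSpace Filter Topology Set

variable {p : ℕ} [hp : Fact p.Prime]

theorem eventually_forall_of_compact {X Y : Type*} [TopologicalSpace X] [CompactSpace X]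
    [TopologicalSpace Y] [T2Space Y] {f : X → Y} (hf : Continuous f) {V : Set X} (hV : IsOpen V)
    {y : Y} (h : ∀ a, f a = y → a ∈ V) : ∀ᶠ z in 𝓝 y, ∀ a, f a = z → a ∈ V := by
  have h1 : IsClosed (f '' Vᶜ) := (hV.isClosed_compl.isCompact.image hf).isClosed
  have h2 : y ∈ (f '' Vᶜ)ᶜ := fun ⟨a, ha, hay⟩ => ha (h a hay)
  filter_upwards [h1.isOpen_compl.mem_nhds h2] with z hz a ha
  by_contra hn
  exact hz ⟨a, hn, ha⟩

variable {F : Type} [Group F] [TopologicalSpace F] [IsTopologicalGroup F] [CompactSpace F]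
variable {𝔸 : Type*} [NormedRing 𝔸] [NormedAlgebra ℚ_[p] 𝔸] [FiniteDimensional ℚ_[p] 𝔸]

omit [IsTopologicalGroup F] in
theorem isClosed_mrange {𝔹 : Type*} [NormedRing 𝔹] {ρ : F →* 𝔹} (hρ : Continuous ρ) :
    IsClosed ((MonoidHom.mrange ρ : Submonoid 𝔹) : Set 𝔹) :=
  (isCompact_range hρ).isClosed

attribute [local instance 100] LieRing.ofAssociativeRing

omit [IsTopologicalGroup F] in
/-- Near the identity, the values of `ρ` are exponentials of small elements of the Lie algebra. -/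
theorem IsLie.eventually_exists {ρ : F →* 𝔸} (hρ : Continuous ρ) {g : LieSubalgebra ℚ_[p] 𝔸}
    (hg : IsLie (range ρ) g) {ε : ℝ} (hε : 0 < ε) :
    ∀ᶠ y in 𝓝 (1 : 𝔸), y ∈ range ρ → ∃ X ∈ g, ‖X‖ < ε ∧ exp X = y := by
  have : CompleteSpace 𝔸 := FiniteDimensional.complete ℚ_[p] 𝔸
  obtain ⟨r, hr⟩ := exists_expBall p 𝔸
  filter_upwards [eventually_exists_exp p 𝔸 (lt_min hε hr.pos)] with y ⟨X, h1, h2⟩ hy
  refine ⟨X, (hg X).mpr ?_, h1.trans_le (min_le_left _ _), h2⟩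
  exact hr.mem_lieSet (Γ := MonoidHom.mrange ρ) (isClosed_mrange hρ)
    (h1.trans_le (min_le_right _ _)) (by rw [h2]; exact hy)

theorem h1Vanish_ker {ρ : F →* 𝔸} (hρ : Continuous ρ) {g : LieSubalgebra ℚ_[p] 𝔸}
    (hg : IsLie (range ρ) g) [LieAlgebra.IsKilling ℚ_[p] g] : H1Vanish p ρ.ker := by
  intro s σ hσ hσ1 c hc hcoc hc0
  have : CompleteSpace 𝔸 := FiniteDimensional.complete ℚ_[p] 𝔸
  let E := Fin s → ℚ_[p]
  let E' := E × ℚ_[p]
  let σ' : F →* (E' →L[ℚ_[p]] E') :=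
    { toFun := fun a => ((σ a).comp (ContinuousLinearMap.fst ℚ_[p] E ℚ_[p]) +
        (ContinuousLinearMap.snd ℚ_[p] E ℚ_[p]).smulRight (c a)).prod
          (ContinuousLinearMap.snd ℚ_[p] E ℚ_[p])
      map_one' := by
        refine ContinuousLinearMap.ext fun v => ?_
        show (σ 1 v.1 + v.2 • c 1, v.2) = v
        rw [act_one, hcoc.one, smul_zero, add_zero]
      map_mul' := fun a b => by
        refine ContinuousLinearMap.ext fun v => ?_
        show (σ (a * b) v.1 + v.2 • c (a * b), v.2)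
          = (σ a (σ b v.1 + v.2 • c b) + v.2 • c a, v.2)
        rw [act_mul, hcoc, map_add, map_smul, smul_add]
        congr 1
        abel }
  have hσ' : ∀ a v, σ' a v = (σ a v.1 + v.2 • c a, v.2) := fun _ _ => rfl
  have hσ'c : Continuous σ' := by
    rw [continuous_clm_apply]
    intro v
    exact ((hσ.clm_apply continuous_const).add (hc.const_smul v.2)).prodMk continuous_const
  let 𝔹 := 𝔸 × (E' →L[ℚ_[p]] E')
  have : CompleteSpace 𝔹 := FiniteDimensional.complete ℚ_[p] 𝔹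
  let ρ' : F →* 𝔹 := ρ.prod σ'
  have hρ' : Continuous ρ' := hρ.prodMk hσ'c
  have hker : ∀ a, ρ a = 1 → ρ' a = 1 := by
    intro a ha
    refine Prod.ext ha (ContinuousLinearMap.ext fun v => ?_)
    show σ' a v = v
    rw [hσ', hσ1 a ha, hc0 a ha]
    simp
  obtain ⟨g', hg'⟩ := exists_isLie (p := p) (isClosed_mrange hρ')
  obtain ⟨r, hr⟩ := exists_expBall p 𝔸
  obtain ⟨r', hr'⟩ := exists_expBall p 𝔹
  let π₁ : 𝔹 →ₐ[ℚ_[p]] 𝔸 := AlgHom.fst ℚ_[p] _ _
  have hπ₁ : ∀ X : 𝔹, ‖X‖ < r' → (exp X).1 = exp X.1 := fun X hX =>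
    map_exp_of_mem_ball π₁ continuous_fst X (hr'.mem X hX)
  let pr : g' →ₗ⁅ℚ_[p]⁆ g :=
    { toFun := fun X => ⟨X.1.1, (hg _).mpr (map_mem_lieSet π₁ continuous_fst
        (by rintro _ ⟨a, rfl⟩; exact ⟨a, rfl⟩) ((hg' _).mp X.2))⟩
      map_add' := fun _ _ => rfl
      map_smul' := fun _ _ => rfl
      map_lie' := rfl }
  have hinj : Function.Injective pr := by
    rw [injective_iff_map_eq_zero]
    intro X hX
    have hX1 : X.1.1 = 0 := congrArg Subtype.val hX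
    refine Subtype.ext (deriv_eq_zero_of_eventually_eq (c := 1) (hasDerivAt_exp_smul (p := p) X.1) ?_)
    filter_upwards [(hg' _).mp X.2, eventually_norm_smul_lt (p := p) X.1 hr'.pos] with t ⟨a, ha⟩ ht
    rw [← ha]
    apply hker
    have h1 : ρ a = (exp (t • X.1)).1 := congrArg Prod.fst ha
    rw [h1, hπ₁ _ ht]
    show exp (t • X.1.1) = 1
    rw [hX1, smul_zero, exp_zero]
  have hsurj : Function.Surjective pr := by
    intro X
    obtain ⟨V, hV, hVo, hV1⟩ := mem_nhds_iff.mp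
      (IsLie.eventually_exists hρ' hg' (lt_min hr.pos hr'.pos))
    have h1 := eventually_forall_of_compact hρ (hVo.preimage hρ') (y := 1)
      (fun a ha => by rw [mem_preimage, hker a ha]; exact hV1)
    have h2 : Tendsto (fun t : ℚ_[p] => exp (t • (X : 𝔸))) (𝓝 0) (𝓝 1) := by
      have := (hasDerivAt_exp_smul (p := p) (X : 𝔸)).continuousAt
      simpa [ContinuousAt] using this
    have h3 := nhdsWithin_le_nhds (s := {0}ᶜ) (((hg _).mp X.2).and
      ((h2.eventually h1).and (eventually_norm_smul_lt (p := p) (X : 𝔸) hr.pos)))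
    obtain ⟨t, ⟨⟨a, ha⟩, h4, h5⟩, ht⟩ := (Filter.Eventually.and h3 self_mem_nhdsWithin).exists
    have ht0 : t ≠ 0 := ht
    obtain ⟨Y, hY, hYn, hYe⟩ := hV (h4 a ha) ⟨a, rfl⟩
    have h6 : Y.1 = t • (X : 𝔸) := by
      refine hr.inj _ _ ((norm_fst_le Y).trans_lt (hYn.trans_le (min_le_left _ _))) h5 ?_
      rw [← hπ₁ _ (hYn.trans_le (min_le_right _ _)), hYe, ← ha]
      rfl
    refine ⟨⟨t⁻¹ • Y, g'.smul_mem _ hY⟩, Subtype.ext ?_⟩
    show t⁻¹ • Y.1 = X
    rw [h6, smul_smul, inv_mul_cancel₀ ht0, one_smul]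
  have : LieAlgebra.IsKilling ℚ_[p] g' :=
    LieAlgebra.isKilling_of_equiv (LieEquiv.ofBijective pr ⟨hinj, hsurj⟩).symm
  let θ : g' →ₗ⁅ℚ_[p]⁆ Module.End ℚ_[p] E' :=
    { toFun := fun X => (X.1.2 : E' →ₗ[ℚ_[p]] E')
      map_add' := fun _ _ => rfl
      map_smul' := fun _ _ => rfl
      map_lie' := rfl }
  let ev : E' → 𝔹 →L[ℚ_[p]] E' := fun v =>
    (ContinuousLinearMap.apply ℚ_[p] E' v).comp (ContinuousLinearMap.snd ℚ_[p] _ _)
  have hev : ∀ v z, ev v z = z.2 v := fun _ _ => rfl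
  obtain ⟨v, hv1, hv2⟩ := exists_invariant θ (LinearMap.snd ℚ_[p] E ℚ_[p])
    (fun h => one_ne_zero (LinearMap.congr_fun h (0, 1))) (fun X v => by
      let T : 𝔹 →L[ℚ_[p]] ℚ_[p] := (ContinuousLinearMap.snd ℚ_[p] E ℚ_[p]).comp (ev v)
      have h1 := T.hasFDerivAt.comp_hasDerivAt (0 : ℚ_[p]) (hasDerivAt_exp_smul (p := p) X.1)
      refine deriv_eq_zero_of_eventually_eq (c := v.2) h1 ?_
      filter_upwards [(hg' _).mp X.2] with t ⟨a, ha⟩
      show T (exp (t • X.1)) = v.2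
      rw [← ha]; rfl)
  have hv1' : v.2 = 1 := hv1
  have hfix : ∀ X ∈ g', ‖X‖ < r' → (exp X).2 v = v := by
    intro X hX hn
    have h1 := (expSeries_hasSum_exp_of_mem_ball' X (hr'.mem X hn)).map (ev v) (ev v).continuous
    have h2 : X.2 v = 0 := hv2 ⟨X, hX⟩
    have h3 := hasSum_single (f := (ev v) ∘ fun n : ℕ => ((n.factorial : ℚ_[p]))⁻¹ • X ^ n) 0
      (fun n hn => by
        obtain ⟨m, rfl⟩ := Nat.exists_eq_succ_of_ne_zero hn
        rw [Function.comp_apply, map_smul, pow_succ]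
        have : ev v (X ^ m * X) = (X ^ m).2 (X.2 v) := rfl
        rw [this, h2, map_zero, smul_zero])
    have := h1.unique h3
    simpa [hev] using this
  have hc' := hcoc.sub (isCocycle_coboundary σ (-v.1))
  have hopen : IsOpen (hc'.zeros : Set F) := by
    refine Subgroup.isOpen_of_mem_nhds _ (g := 1) ?_
    have h1 : Tendsto ρ' (𝓝 1) (𝓝 1) := by simpa using hρ'.tendsto 1
    filter_upwards [h1.eventually (IsLie.eventually_exists hρ' hg' hr'.pos)] with a ha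
    obtain ⟨X, hX, hn, he⟩ := ha ⟨a, rfl⟩
    have h2 := hfix X hX hn
    rw [he] at h2
    have h3 : σ a v.1 + v.2 • c a = v.1 := congrArg Prod.fst h2
    rw [hv1', one_smul] at h3
    show c a - (σ a (-v.1) - -v.1) = 0
    rw [map_neg, ← sub_eq_zero.mpr h3]
    abel
  have : Finite (F ⧸ hc'.zeros) := hc'.zeros.quotient_finite_of_isOpen hopen
  have : hc'.zeros.FiniteIndex := Subgroup.finiteIndex_of_finite_quotient
  obtain ⟨b, hb⟩ := hc'.exists_of_finiteIndex hc'.zeros fun u hu => hu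
  refine ⟨b + -v.1, fun a => ?_⟩
  rw [map_add, eq_add_of_sub_eq (hb a)]
  abel

end Pool.Agent.Lib.MP_dd16b7_nt
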