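import Mathlib

/-!
Sets of operators all of whose products have trace zero, trace-orthogonal projections and
characteristic abelian ideals.
-/

namespace Pool.Agent.Lib.MP_dd16b7_nt

open Polynomial

section Linear

variable {K V : Type*} [Field K] [CharZero K] [AddCommGroup V] [Module K V] [FiniteDimensional K V]

theorem isNilpotent_of_trace_pow {b : Module.End K V}
    (h : ∀ k, LinearMap.trace K V (b ^ (k + 1)) = 0) : IsNilpotent b := by
  obtain ⟨r, hr, hnd⟩ := exists_eq_pow_rootMultiplicity_mul_and_not_dvd b.charpoly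
    b.charpoly_monic.ne_zero 0
  set n := rootMultiplicity 0 b.charpoly
  rw [C_0, sub_zero] at hr hnd
  have hcop : IsCoprime (X ^ (n + 1) : K[X]) r :=
    ((irreducible_X.coprime_iff_not_dvd).mpr hnd).pow_left
  obtain ⟨u, v, huv⟩ := hcop
  have hm : aeval b (X ^ n * r) = 0 := by rw [← hr]; exact b.aeval_self_charpoly
  have htr : ∀ u : K[X], LinearMap.trace K V (aeval b (u * X ^ (n + 1))) = 0 := by
    intro u
    induction u using Polynomial.induction_on' with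
    | add a b ha hb => rw [add_mul, map_add, map_add, ha, hb, add_zero]
    | monomial k a =>
      rw [← C_mul_X_pow_eq_monomial, mul_assoc, ← pow_add, map_mul, aeval_C, map_pow, aeval_X,
        ← Algebra.smul_def, map_smul, ← add_assoc, h, smul_zero]
  have hid : IsIdempotentElem (aeval b (u * X ^ (n + 1))) := by
    rw [IsIdempotentElem, ← map_mul, ← sub_eq_zero, ← map_sub]
    have : u * X ^ (n + 1) * (u * X ^ (n + 1)) - u * X ^ (n + 1) =
        (-(u * v * X)) * (X ^ n * r) := by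
      linear_combination (u * X ^ (n + 1)) * huv
    rw [this, map_mul, hm, mul_zero]
  have h0 := LinearMap.IsIdempotentElem.eq_zero_of_trace_eq_zero hid (htr u)
  refine ⟨n, ?_⟩
  have : (X ^ n : K[X]) = X ^ n * (u * X ^ (n + 1)) + v * (X ^ n * r) := by
    linear_combination (-X ^ n) * huv
  rw [← aeval_X_pow (R := K), this, map_add, map_mul, h0, map_mul, hm]
  simp

theorem exists_common_ker [Nontrivial V] (U : Set (Module.End K V))
    (h : ∀ l : List (Module.End K V), l ≠ [] → (∀ u ∈ l, u ∈ U) →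
      LinearMap.trace K V l.prod = 0) : ∃ v : V, v ≠ 0 ∧ ∀ u ∈ U, u v = 0 := by
  classical
  let P : Set (Module.End K V) := {a | ∃ l : List (Module.End K V), l ≠ [] ∧ (∀ u ∈ l, u ∈ U) ∧
    a = l.prod}
  let A : Submodule K (Module.End K V) := Submodule.span K P
  have hmul : ∀ a ∈ A, ∀ b ∈ A, a * b ∈ A := by
    have : A * A ≤ A := by
      rw [Submodule.span_mul_span]
      refine Submodule.span_mono ?_
      rintro _ ⟨_, ⟨l, hl, hlU, rfl⟩, _, ⟨l', -, hlU', rfl⟩, rfl⟩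
      refine ⟨l ++ l', by simp [hl], fun u hu => ?_, by simp⟩
      rcases List.mem_append.mp hu with hu | hu
      · exact hlU u hu
      · exact hlU' u hu
    exact fun a ha b hb => this (Submodule.mul_mem_mul ha hb)
  have htr : ∀ a ∈ A, LinearMap.trace K V a = 0 := by
    have : A ≤ LinearMap.ker (LinearMap.trace K V) := by
      refine Submodule.span_le.mpr ?_
      rintro _ ⟨l, hl, hlU, rfl⟩
      exact h l hl hlU
    exact fun a ha => this ha
  have hnil : ∀ a ∈ A, IsNilpotent a := by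
    intro a ha
    refine isNilpotent_of_trace_pow fun k => htr _ ?_
    induction k with
    | zero => simpa using ha
    | succ k ih => rw [pow_succ]; exact hmul _ ih _ ha
  let orb : V → Submodule K V := fun v => A.map (LinearMap.applyₗ v)
  obtain ⟨v, hv, hmin⟩ := (measure fun v => Module.finrank K (orb v)).wf.has_min {v | v ≠ 0}
    (exists_ne 0)
  refine ⟨v, hv, fun u hu => ?_⟩
  by_contra hw
  have huA : u ∈ A := Submodule.subset_span ⟨[u], by simp, by simpa using hu, by simp⟩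
  have hle : orb (u v) ≤ orb v := by
    rintro _ ⟨a, ha, rfl⟩
    exact ⟨a * u, hmul _ ha _ huA, rfl⟩
  have heq : orb (u v) = orb v :=
    Submodule.eq_of_le_of_finrank_le hle (not_lt.mp (hmin _ hw))
  have : u v ∈ orb (u v) := by rw [heq]; exact ⟨u, huA, rfl⟩
  obtain ⟨a, ha, hav⟩ := this
  obtain ⟨k, hk⟩ := hnil a ha
  have : ∀ k : ℕ, (a ^ k) (u v) = u v := by
    intro k
    induction k with
    | zero => rfl
    | succ k ih => rw [pow_succ, Module.End.mul_apply]; erw [hav]; exact ih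
  exact hw (by rw [← this k, hk]; rfl)

end Linear

theorem exists_char_abelian {K L : Type*} [Field K] [LieRing L] [LieAlgebra K L]
    [FiniteDimensional K L] (h : ¬ LieAlgebra.HasTrivialRadical K L) :
    ∃ a : LieIdeal K L, a ≠ ⊥ ∧ IsLieAbelian a ∧ ∀ e : L ≃ₗ⁅K⁆ L, ∀ y ∈ a, e y ∈ a := by
  have hr : LieAlgebra.radical K L ≠ ⊥ := fun h' => h ⟨h'⟩
  refine ⟨LieAlgebra.derivedAbelianOfIdeal (LieAlgebra.radical K L),
    fun h' => hr ((LieAlgebra.abelian_of_solvable_ideal_eq_bot_iff _).mp h'),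
    LieAlgebra.abelian_derivedAbelianOfIdeal _, fun e => ?_⟩
  have h0 : (LieAlgebra.radical K L).map (e : L →ₗ⁅K⁆ L) ≤ LieAlgebra.radical K L := by
    rw [LieIdeal.map_le_iff_le_comap]
    let J := (LieAlgebra.radical K L).comap (e.symm : L →ₗ⁅K⁆ L)
    let f : J →ₗ⁅K⁆ LieAlgebra.radical K L :=
      { toFun := fun y => ⟨e.symm y, y.2⟩
        map_add' := fun a b => Subtype.ext (map_add e.symm _ _)
        map_smul' := fun a b => Subtype.ext (map_smul e.symm _ _)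
        map_lie' := fun {a b} => Subtype.ext (e.symm.map_lie _ _) }
    have hf : Function.Injective f := fun a b hab =>
      Subtype.ext (e.symm.injective (congrArg Subtype.val hab))
    have : LieAlgebra.IsSolvable J := hf.lieAlgebra_isSolvable
    have hJ : J ≤ LieAlgebra.radical K L := (LieAlgebra.LieIdeal.solvable_iff_le_radical K L J).mp this
    intro y hy
    refine hJ ?_
    show e.symm (e y) ∈ LieAlgebra.radical K L
    rwa [e.symm_apply_apply]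
  have h1 : ∀ k, (LieAlgebra.derivedSeriesOfIdeal K L k (LieAlgebra.radical K L)).map
      (e : L →ₗ⁅K⁆ L) ≤ LieAlgebra.derivedSeriesOfIdeal K L k (LieAlgebra.radical K L) := by
    intro k
    induction k with
    | zero => exact h0
    | succ k ih =>
      rw [LieAlgebra.derivedSeriesOfIdeal_succ]
      exact (LieIdeal.map_bracket_le _).trans (LieSubmodule.mono_lie ih ih)
  intro y hy
  unfold LieAlgebra.derivedAbelianOfIdeal at hy ⊢
  split at hy
  · rw [LieSubmodule.mem_bot] at hy ⊢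
    rw [hy, map_zero]
  · exact h1 _ (LieIdeal.mem_map hy)

section Trace

variable {p : ℕ} [hp : Fact p.Prime]
variable {𝔸 : Type*} [NormedRing 𝔸] [NormedAlgebra ℚ_[p] 𝔸]

/-- An abstract form of irreducibility: a subset of `𝓑` that is stable under conjugation by `S`
and whose products all have trace zero is reduced to zero. -/
def Nil (τ : 𝔸 →L[ℚ_[p]] ℚ_[p]) (𝓑 : Subalgebra ℚ_[p] 𝔸) (S : Set 𝔸ˣ) : Prop :=
  ∀ U : Set 𝔸, U ⊆ 𝓑 → (∀ γ ∈ S, ∀ u ∈ U, (γ : 𝔸) * u * ((γ⁻¹ : 𝔸ˣ) : 𝔸) ∈ U) →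
    (∀ l : List 𝔸, l ≠ [] → (∀ u ∈ l, u ∈ U) → τ l.prod = 0) → ∀ u ∈ U, u = 0

theorem trace_conj_mul {τ : 𝔸 →L[ℚ_[p]] ℚ_[p]} (hτ : ∀ a b, τ (a * b) = τ (b * a)) (γ : 𝔸ˣ)
    (z y : 𝔸) : τ (γ * z * ((γ⁻¹ : 𝔸ˣ) : 𝔸) * y) = τ (z * (((γ⁻¹ : 𝔸ˣ) : 𝔸) * y * γ)) := by
  rw [mul_assoc, mul_assoc, hτ]
  simp only [mul_assoc]

theorem Nil.exists_proj [FiniteDimensional ℚ_[p] 𝔸] {τ : 𝔸 →L[ℚ_[p]] ℚ_[p]}
    (hτ : ∀ a b, τ (a * b) = τ (b * a)) {𝓑 : Subalgebra ℚ_[p] 𝔸} {S : Set 𝔸ˣ} (hN : Nil τ 𝓑 S)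
    (hS : ∀ γ ∈ S, γ⁻¹ ∈ S) {c : Subalgebra ℚ_[p] 𝔸} (hc : c ≤ 𝓑)
    (hcS : ∀ γ ∈ S, ∀ u ∈ c, (γ : 𝔸) * u * ((γ⁻¹ : 𝔸ˣ) : 𝔸) ∈ c) :
    ∃ π : 𝔸 →L[ℚ_[p]] 𝔸, (∀ x, π x ∈ c) ∧ (∀ x, ∀ y ∈ c, τ (π x * y) = τ (x * y)) ∧
      (∀ x, ∀ z ∈ c, (∀ y ∈ c, τ (z * y) = τ (x * y)) → π x = z) ∧
      ∀ γ ∈ S, ∀ x, π ((γ : 𝔸) * x * ((γ⁻¹ : 𝔸ˣ) : 𝔸)) = γ * π x * ((γ⁻¹ : 𝔸ˣ) : 𝔸) := by
  have hnd : ∀ z ∈ c, (∀ y ∈ c, τ (z * y) = 0) → z = 0 := by
    intro z hz hzy
    refine hN {z | z ∈ c ∧ ∀ y ∈ c, τ (z * y) = 0} (fun z hz => hc hz.1) ?_ ?_ z ⟨hz, hzy⟩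
    · intro γ hγ u hu
      refine ⟨hcS γ hγ u hu.1, fun y hy => ?_⟩
      rw [trace_conj_mul hτ]
      exact hu.2 _ (by simpa using hcS γ⁻¹ (hS γ hγ) y hy)
    · intro l hl hlU
      obtain ⟨u, l', rfl⟩ := List.exists_cons_of_ne_nil hl
      rw [List.prod_cons]
      exact (hlU u (by simp)).2 _ (c.list_prod_mem fun y hy => (hlU y (by simp [hy])).1)
  let B₀ : 𝔸 →ₗ[ℚ_[p]] 𝔸 →ₗ[ℚ_[p]] ℚ_[p] := (LinearMap.mul ℚ_[p] 𝔸).compr₂ τ.toLinearMap
  let B₁ : 𝔸 →ₗ[ℚ_[p]] Module.Dual ℚ_[p] c.toSubmodule :=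
    B₀.compl₂ c.toSubmodule.subtype
  let B : c.toSubmodule →ₗ[ℚ_[p]] Module.Dual ℚ_[p] c.toSubmodule := B₁ ∘ₗ c.toSubmodule.subtype
  have hinj : Function.Injective B := by
    rw [← LinearMap.ker_eq_bot, LinearMap.ker_eq_bot']
    intro z hz
    exact Subtype.ext (hnd z z.2 fun y hy => LinearMap.congr_fun hz ⟨y, hy⟩)
  let e := LinearMap.linearEquivOfInjective B hinj (Subspace.dual_finrank_eq).symm
  let π : 𝔸 →L[ℚ_[p]] 𝔸 :=
    LinearMap.toContinuousLinearMap (c.toSubmodule.subtype ∘ₗ e.symm.toLinearMap ∘ₗ B₁)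
  have h1 : ∀ x, π x ∈ c := fun x => (e.symm (B₁ x)).2
  have h2 : ∀ x, ∀ y ∈ c, τ (π x * y) = τ (x * y) := fun x y hy =>
    LinearMap.congr_fun (e.apply_symm_apply (B₁ x)) ⟨y, hy⟩
  have h3 : ∀ x, ∀ z ∈ c, (∀ y ∈ c, τ (z * y) = τ (x * y)) → π x = z := by
    intro x z hz h
    rw [← sub_eq_zero]
    refine hnd _ (c.sub_mem (h1 x) hz) fun y hy => ?_
    rw [sub_mul, map_sub, h2 x y hy, h y hy, sub_self]
  refine ⟨π, h1, h2, h3, fun γ hγ x => h3 _ _ (hcS γ hγ _ (h1 x)) fun y hy => ?_⟩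
  rw [trace_conj_mul hτ, trace_conj_mul hτ]
  exact h2 _ _ (by simpa using hcS γ⁻¹ (hS γ hγ) y hy)

end Trace

end Pool.Agent.Lib.MP_dd16b7_nt
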