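import Mathlib
import Pool.Agent.Lib.MP_dd16b7_nt.PExp
import Pool.Agent.Lib.MP_dd16b7_nt.Whitehead

/-!
Rigidity of semisimple Lie subalgebras of a finite-dimensional normed algebra over the `p`-adic
numbers: there are only countably many of them up to conjugation.
-/

namespace Pool.Agent.Lib.MP_dd16b7_nt

open NormedSpace Filter Topology Metric Set

variable {p : ℕ} [hp : Fact p.Prime]
variable {𝔸 : Type*} [NormedRing 𝔸] [NormedAlgebra ℚ_[p] 𝔸] [FiniteDimensional ℚ_[p] 𝔸]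

attribute [local instance 100] LieRing.ofAssociativeRing

theorem whitehead_mod (g : LieSubalgebra ℚ_[p] 𝔸) [LieAlgebra.IsKilling ℚ_[p] g]
    (T : g →ₗ[ℚ_[p]] 𝔸)
    (h : ∀ x y : g, ⁅(x : 𝔸), T y⁆ - ⁅(y : 𝔸), T x⁆ - T ⁅x, y⁆ ∈ g) :
    ∃ B : 𝔸, ∀ x : g, T x - ⁅(x : 𝔸), B⁆ ∈ g := by
  let N : LieSubmodule ℚ_[p] g 𝔸 := g.toLieSubmodule
  have : FiniteDimensional ℚ_[p] (𝔸 ⧸ N) :=
    inferInstanceAs (FiniteDimensional ℚ_[p] (𝔸 ⧸ N.toSubmodule))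
  let D : g →ₗ[ℚ_[p]] (𝔸 ⧸ N) := N.toSubmodule.mkQ ∘ₗ T
  obtain ⟨e, he⟩ := whitehead (LieSubmodule.Quotient.actionAsEndoMap N) D (fun x y => by
    show N.toSubmodule.mkQ (T ⁅x, y⁆)
      = N.toSubmodule.mkQ ⁅(x : 𝔸), T y⁆ - N.toSubmodule.mkQ ⁅(y : 𝔸), T x⁆
    rw [← map_sub, eq_comm]
    exact (Submodule.Quotient.eq _).mpr (h x y))
  obtain ⟨B, rfl⟩ := N.toSubmodule.mkQ_surjective e
  exact ⟨B, fun x => (Submodule.Quotient.eq _).mp (he x)⟩

theorem eventually_conj (g : LieSubalgebra ℚ_[p] 𝔸) [LieAlgebra.IsKilling ℚ_[p] g] {m : ℕ}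
    (b : Module.Basis (Fin m) ℚ_[p] g) :
    ∀ᶠ Y in 𝓝 (fun i => (b i : 𝔸)), ∀ g' : LieSubalgebra ℚ_[p] 𝔸,
      g'.toSubmodule = Submodule.span ℚ_[p] (range Y) →
      ∃ u : 𝔸ˣ, ∀ X : 𝔸, X ∈ g ↔ (u : 𝔸) * X * ↑u⁻¹ ∈ g' := by
  classical
  have : CompleteSpace 𝔸 := FiniteDimensional.complete ℚ_[p] 𝔸
  obtain ⟨r, hr⟩ := exists_expBall p 𝔸
  obtain ⟨q, hq⟩ := g.toSubmodule.exists_isCompl
  let P : 𝔸 →ₗ[ℚ_[p]] g := g.toSubmodule.projectionOnto q hq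
  have hP : ∀ x : g, P x = x := fun x => Submodule.projectionOnto_apply_left hq x
  let c : Fin m → 𝔸 →L[ℚ_[p]] ℚ_[p] := fun k => LinearMap.toContinuousLinearMap (b.coord k ∘ₗ P)
  have hc : ∀ k z, c k z = b.repr (P z) k := fun _ _ => rfl
  have hbsum : ∀ x : g, ∑ k, b.repr x k • (b k : 𝔸) = x := by
    intro x
    have := congrArg g.toSubmodule.subtype (b.sum_repr x)
    rw [map_sum] at this
    exact this
  have hadd : ∀ x y : g, ((x + y : g) : 𝔸) = x + y := fun _ _ => rfl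
  have hsmul : ∀ (a : ℚ_[p]) (x : g), ((a • x : g) : 𝔸) = a • (x : 𝔸) := fun _ _ => rfl
  let 𝓜 : Submodule ℚ_[p] (Fin m → 𝔸) := Submodule.pi univ fun _ => LinearMap.ker P
  let 𝒯 : Submodule ℚ_[p] (Fin m → 𝔸) :=
    { carrier := {t | ∃ B : 𝔸, ∀ i, t i - ⁅(b i : 𝔸), B⁆ ∈ g}
      zero_mem' := ⟨0, fun i => by simp⟩
      add_mem' := by
        rintro s t ⟨B, hB⟩ ⟨C, hC⟩
        refine ⟨B + C, fun i => ?_⟩
        have := g.add_mem (hB i) (hC i)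
        rw [lie_add, Pi.add_apply]
        convert this using 1
        abel
      smul_mem' := by
        rintro a s ⟨B, hB⟩
        refine ⟨a • B, fun i => ?_⟩
        have := g.smul_mem a (hB i)
        rwa [lie_smul, Pi.smul_apply, ← smul_sub] }
  obtain ⟨W', hW'⟩ := (𝒯 ⊓ 𝓜).exists_isCompl
  let W : Submodule ℚ_[p] (Fin m → 𝔸) := W' ⊓ 𝓜
  have hWsup : (𝒯 ⊓ 𝓜) ⊔ W = 𝓜 := by
    have := sup_inf_assoc_of_le W' (inf_le_right : 𝒯 ⊓ 𝓜 ≤ 𝓜)
    rw [hW'.sup_eq_top, top_inf_eq] at this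
    exact this.symm
  have hWP : ∀ (w : W) i, P ((w : Fin m → 𝔸) i) = 0 := fun w i => w.2.2 i trivial
  have : CompleteSpace W := FiniteDimensional.complete ℚ_[p] W
  let ev : Fin m → W →L[ℚ_[p]] 𝔸 := fun i =>
    (ContinuousLinearMap.proj i : (Fin m → 𝔸) →L[ℚ_[p]] 𝔸).comp W.subtypeL
  have hev : ∀ i (w : W), ev i w = (w : Fin m → 𝔸) i := fun _ _ => rfl
  -- the defect of being a subalgebra
  let z : Fin m → Fin m → W → 𝔸 := fun i j w =>
    (b i + ev i w) * (b j + ev j w) - (b j + ev j w) * (b i + ev i w)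
  let f : W → Fin m → Fin m → 𝔸 := fun w i j => z i j w - ∑ k, c k (z i j w) • (b k + ev k w)
  have hb : ∀ i, HasFDerivAt (fun w : W => (b i : 𝔸) + ev i w) (ev i) 0 := fun i =>
    (ev i).hasFDerivAt.const_add _
  have hz : ∀ i j, ∃ z' : W →L[ℚ_[p]] 𝔸, HasFDerivAt (z i j) z' 0 ∧
      ∀ w, z' w = ⁅(b i : 𝔸), ev j w⁆ - ⁅(b j : 𝔸), ev i w⁆ := by
    intro i j
    refine ⟨_, ((hb i).mul' (hb j)).sub ((hb j).mul' (hb i)), fun w => ?_⟩
    simp only [Ring.lie_def, sub_apply, add_apply, smul_apply, smul_eq_mul, map_zero, add_zero,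
      MulOpposite.smul_eq_mul_unop, MulOpposite.unop_op]
    abel
  choose z' hz' hz'' using hz
  have hz0 : ∀ i j, z i j 0 = (⁅b i, b j⁆ : g) := by
    intro i j
    simp [z, Ring.lie_def]
  have hf : ∀ i j, ∃ f' : W →L[ℚ_[p]] 𝔸, HasFDerivAt (fun w => f w i j) f' 0 ∧
      ∀ w, f' w = z' i j w - P (z' i j w) - ∑ k, b.repr ⁅b i, b j⁆ k • ev k w := by
    intro i j
    refine ⟨_, (hz' i j).sub (HasFDerivAt.fun_sum fun k _ =>
      (((c k).hasFDerivAt.comp 0 (hz' i j)).smul (hb k))), fun w => ?_⟩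
    simp only [sub_apply, sum_apply, add_apply, smul_apply,
      ContinuousLinearMap.smulRight_apply, ContinuousLinearMap.comp_apply, Function.comp_apply,
      map_zero, add_zero, Finset.sum_add_distrib, hz0, hc, hP, hbsum]
    abel
  choose f' hf' hf'' using hf
  let F' : W →L[ℚ_[p]] Fin m → Fin m → 𝔸 :=
    ContinuousLinearMap.pi fun i => ContinuousLinearMap.pi fun j => f' i j
  have hF : HasFDerivAt f F' 0 := hasFDerivAt_pi.mpr fun i => hasFDerivAt_pi.mpr fun j => hf' i j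
  have hinj : LinearMap.ker (F' : W →ₗ[ℚ_[p]] Fin m → Fin m → 𝔸) = ⊥ := by
    rw [eq_bot_iff]
    intro w hw
    have h0 : ∀ i j, f' i j w = 0 := fun i j => congrFun (congrFun hw i) j
    let T : g →ₗ[ℚ_[p]] 𝔸 := b.constr ℚ_[p] fun i => ev i w
    have hT : ∀ i, T (b i) = ev i w := fun i => b.constr_basis _ _ i
    have hTx : ∀ x, T x = ∑ k, b.repr x k • ev k w := fun x => by
      simp [T, Module.Basis.constr_apply_fintype]
    let Φ : g →ₗ[ℚ_[p]] g →ₗ[ℚ_[p]] (𝔸 ⧸ g.toSubmodule) :=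
      LinearMap.mk₂ ℚ_[p]
        (fun x y => g.toSubmodule.mkQ (⁅(x : 𝔸), T y⁆ - ⁅(y : 𝔸), T x⁆ - T ⁅x, y⁆))
        (fun x x' y => by
          rw [← map_add]; congr 1
          simp only [hadd, add_lie, lie_add, map_add]; abel)
        (fun a x y => by
          rw [← map_smul]; congr 1
          simp only [hsmul, smul_lie, lie_smul, map_smul, smul_sub])
        (fun x y y' => by
          rw [← map_add]; congr 1
          simp only [hadd, add_lie, lie_add, map_add]; abel)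
        (fun a x y => by
          rw [← map_smul]; congr 1
          simp only [hsmul, smul_lie, lie_smul, map_smul, smul_sub])
    have hΦ : Φ = 0 := by
      refine b.ext fun i => b.ext fun j => ?_
      have h1 := h0 i j
      rw [hf'', hz'', ← hTx, ← hT, ← hT] at h1
      simp only [Φ, LinearMap.mk₂_apply, LinearMap.zero_apply, Submodule.mkQ_apply,
        Submodule.Quotient.mk_eq_zero]
      have h2 : ⁅(b i : 𝔸), T (b j)⁆ - ⁅(b j : 𝔸), T (b i)⁆ - T ⁅b i, b j⁆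
          = P (⁅(b i : 𝔸), T (b j)⁆ - ⁅(b j : 𝔸), T (b i)⁆) := by
        rw [← sub_eq_zero, ← h1]; abel
      rw [h2]
      exact Subtype.property _
    obtain ⟨B, hB⟩ := whitehead_mod g T (fun x y => by
      have := LinearMap.congr_fun (LinearMap.congr_fun hΦ x) y
      exact (Submodule.Quotient.mk_eq_zero _).mp this)
    have h3 : (w : Fin m → 𝔸) ∈ (𝒯 ⊓ 𝓜) ⊓ W' :=
      ⟨⟨⟨B, fun i => by rw [← hev, ← hT]; exact hB _⟩, w.2.2⟩, w.2.1⟩
    rw [hW'.inf_eq_bot] at h3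
    exact Subtype.ext h3
  have hne : ∀ᶠ w in 𝓝 (0 : W), f w = 0 → w = 0 := by
    obtain ⟨K, -, hK⟩ := LinearMap.exists_antilipschitzWith _ hinj
    have := hF.eventually_ne (c := 0) ⟨K, hK⟩
    rw [eventually_nhdsWithin_iff] at this
    filter_upwards [this] with w hw h0
    by_contra hne
    exact hw hne h0
  -- the chart
  let D := 𝔸 × W × (Fin m → Fin m → ℚ_[p])
  let Z : W × (Fin m → Fin m → ℚ_[p]) → Fin m → 𝔸 := fun y i =>
    (b i + ev i y.1) + ∑ j, y.2 i j • (b j + ev j y.1)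
  let Θ : D → Fin m → 𝔸 := fun y i => exp y.1 * Z y.2 i * exp (-y.1)
  have hZ : ∀ i, ∃ Z' : D →L[ℚ_[p]] 𝔸, HasStrictFDerivAt (fun y : D => Z y.2 i) Z' 0 ∧
      ∀ y : D, Z' y = ev i y.2.1 + ∑ j, y.2.2 i j • (b j : 𝔸) := by
    intro i
    let e1 : Fin m → D →L[ℚ_[p]] 𝔸 := fun j => (ev j).comp
      ((ContinuousLinearMap.fst ℚ_[p] _ _).comp (ContinuousLinearMap.snd ℚ_[p] _ _))
    let e2 : Fin m → D →L[ℚ_[p]] ℚ_[p] := fun j =>
      (ContinuousLinearMap.proj j : (Fin m → ℚ_[p]) →L[ℚ_[p]] ℚ_[p]).comp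
        ((ContinuousLinearMap.proj i : (Fin m → Fin m → ℚ_[p]) →L[ℚ_[p]] (Fin m → ℚ_[p])).comp
          ((ContinuousLinearMap.snd ℚ_[p] _ _).comp (ContinuousLinearMap.snd ℚ_[p] _ _)))
    have h1 : ∀ j, HasStrictFDerivAt (fun y : D => (b j : 𝔸) + e1 j y) (e1 j) 0 := fun j =>
      (e1 j).hasStrictFDerivAt.const_add _
    refine ⟨_, (h1 i).add (HasStrictFDerivAt.fun_sum fun j _ =>
      ((e2 j).hasStrictFDerivAt.smul (h1 j))), fun y => ?_⟩
    have e0 : ∀ j, ev j (0 : D).2.1 = 0 := fun j => map_zero _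
    simp only [add_apply, sum_apply, map_zero, zero_smul, zero_add,
      ContinuousLinearMap.smulRight_apply, add_zero, e0]
    rfl
  choose Z' hZ' hZ'' using hZ
  have hZ0 : ∀ i, Z 0 i = b i := fun i => by simp [Z]
  have hΘ : ∀ i, ∃ Θ' : D →L[ℚ_[p]] 𝔸, HasStrictFDerivAt (fun y : D => Θ y i) Θ' 0 ∧
      ∀ y : D, Θ' y = Z' i y - ⁅(b i : 𝔸), y.1⁆ := by
    intro i
    let e1 : D →L[ℚ_[p]] 𝔸 := ContinuousLinearMap.fst ℚ_[p] _ _
    have h0 : ∀ e : D →L[ℚ_[p]] 𝔸, HasStrictFDerivAt (fun y => exp (e y)) e 0 := by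
      intro e
      have h0 : HasStrictFDerivAt (exp : 𝔸 → 𝔸)
          ((ContinuousLinearEquiv.refl ℚ_[p] 𝔸 : 𝔸 ≃L[ℚ_[p]] 𝔸) : 𝔸 →L[ℚ_[p]] 𝔸) (e 0) := by
        rw [map_zero]; exact exp_strict p 𝔸
      exact h0.comp 0 e.hasStrictFDerivAt
    refine ⟨_, ((h0 e1).mul' (hZ' i)).mul' (h0 (-e1)), fun y => ?_⟩
    have e0 : Z (0 : D).2 i = b i := hZ0 i
    have e2 : exp (-(0 : D).1) = 1 := by
      show exp (-(0 : 𝔸)) = 1
      simp
    simp only [add_apply, smul_apply, map_zero, exp_zero, Pi.mul_apply, e0, one_mul, smul_eq_mul,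
      MulOpposite.smul_eq_mul_unop, MulOpposite.unop_op, mul_one, neg_apply, Ring.lie_def, e2]
    show (b i : 𝔸) * (-y.1) + (Z' i y + y.1 * b i) = _
    noncomm_ring
  choose Θ' hΘ' hΘ'' using hΘ
  have hΘs : HasStrictFDerivAt Θ (ContinuousLinearMap.pi Θ') 0 := hasStrictFDerivAt_pi.mpr hΘ'
  have hsurj : (ContinuousLinearMap.pi Θ').range = ⊤ := by
    rw [eq_top_iff]
    rintro t -
    have h1 : (fun i => t i - P (t i)) ∈ (𝒯 ⊓ 𝓜) ⊔ W := by
      rw [hWsup]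
      intro i _
      simp [hP]
    obtain ⟨s, ⟨⟨B, hB⟩, -⟩, w, hw, hsw⟩ := Submodule.mem_sup.mp h1
    have h2 : ∀ i, t i - w i - ⁅(b i : 𝔸), B⁆ ∈ g := by
      intro i
      have h3 : s i + w i = t i - P (t i) := congrFun hsw i
      have h4 : t i - w i - ⁅(b i : 𝔸), B⁆ = (s i - ⁅(b i : 𝔸), B⁆) + P (t i) := by
        rw [← sub_eq_zero, ← sub_eq_zero.mpr h3.symm]; abel
      rw [h4]
      exact g.add_mem (hB i) (Subtype.property _)
    refine ⟨(-B, ⟨w, hw⟩, fun i j => b.repr ⟨_, h2 i⟩ j), ?_⟩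
    ext i
    have h5 : ∑ j, b.repr ⟨_, h2 i⟩ j • (b j : 𝔸) = t i - w i - ⁅(b i : 𝔸), B⁆ := hbsum _
    simp only [ContinuousLinearMap.coe_coe, ContinuousLinearMap.pi_apply, hΘ'', hZ'', h5, hev,
      lie_neg]
    abel
  have hmap := hΘs.map_nhds_eq_of_surj hsurj
  have hΘ0 : Θ 0 = fun i => (b i : 𝔸) := by
    ext i
    show exp (0 : 𝔸) * Z 0 i * exp (-0) = _
    simp [hZ0]
  rw [hΘ0] at hmap
  have hli : LinearIndependent ℚ_[p] fun i => (b i : 𝔸) :=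
    b.linearIndependent.map' g.toSubmodule.subtype (Submodule.ker_subtype _)
  have hgood : ∀ᶠ y in 𝓝 (0 : D), ‖y.1‖ < r ∧ (f y.2.1 = 0 → y.2.1 = 0) ∧
      LinearIndependent ℚ_[p] (Z y.2) := by
    have t1 : Tendsto (fun y : D => y.1) (𝓝 0) (𝓝 0) := continuous_fst.tendsto 0
    have t2 : Tendsto (fun y : D => y.2.1) (𝓝 0) (𝓝 0) := continuous_snd.fst.tendsto 0
    have t3 : Tendsto (fun y : D => Z y.2) (𝓝 0) (𝓝 fun i => (b i : 𝔸)) := by
      rw [tendsto_pi_nhds]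
      intro i
      have := (hZ' i).continuousAt
      rw [ContinuousAt] at this
      have e0 : Z (0 : D).2 i = b i := hZ0 i
      rwa [e0] at this
    refine (t1.eventually (ball_mem_nhds (0 : 𝔸) hr.pos)).and
      ((t2.eventually hne).and (t3.eventually hli.eventually)) |>.mono ?_
    intro y hy
    exact ⟨by simpa using hy.1, hy.2⟩
  rw [← hmap]
  filter_upwards [image_mem_map (m := Θ) hgood] with Y hY
  obtain ⟨⟨B, w, h⟩, ⟨hB, hw, hlin⟩, rfl⟩ := hY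
  intro g' hg'
  simp only at hB hw hlin
  let u := hr.unit hB
  let e : 𝔸 →ₐ[ℚ_[p]] 𝔸 := conjAlg u
  have he : ∀ X, e X = (u : 𝔸) * X * ↑u⁻¹ := fun _ => rfl
  have hinj : Function.Injective e := by
    intro X Y hXY
    rw [he, he] at hXY
    simpa using hXY
  have hS : Submodule.span ℚ_[p] (range (Z (w, h)))
      = Submodule.span ℚ_[p] (range fun j => (b j : 𝔸) + ev j w) := by
    apply Submodule.eq_of_le_of_finrank_le
    · rw [Submodule.span_le]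
      rintro _ ⟨i, rfl⟩
      refine Submodule.add_mem _ (Submodule.subset_span ⟨i, rfl⟩)
        (Submodule.sum_mem _ fun j _ => Submodule.smul_mem _ _ (Submodule.subset_span ⟨j, rfl⟩))
    · rw [finrank_span_eq_card hlin]
      exact finrank_range_le_card _
  have hg'' : ∀ X, e X ∈ g' ↔ X ∈ Submodule.span ℚ_[p] (range fun j => (b j : 𝔸) + ev j w) := by
    intro X
    have : g'.toSubmodule = (Submodule.span ℚ_[p] (range (Z (w, h)))).map e.toLinearMap := by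
      rw [hg', Submodule.map_span, ← range_comp]
      rfl
    rw [← hS, ← LieSubalgebra.mem_toSubmodule, this, Submodule.mem_map]
    exact ⟨fun ⟨Y, hY, hYX⟩ => hinj hYX ▸ hY, fun hX => ⟨X, hX, rfl⟩⟩
  have hf0 : f w = 0 := by
    ext i j
    have h1 : z i j w ∈ Submodule.span ℚ_[p] (range fun j => (b j : 𝔸) + ev j w) := by
      rw [← hg'']
      have := g'.lie_mem ((hg'' _).mpr (Submodule.subset_span ⟨i, rfl⟩))
        ((hg'' _).mpr (Submodule.subset_span ⟨j, rfl⟩))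
      simpa [z, Ring.lie_def] using this
    obtain ⟨a, ha⟩ := (Submodule.mem_span_range_iff_exists_fun ℚ_[p]).mp h1
    have h2 : ∀ k, c k (z i j w) = a k := by
      intro k
      rw [hc, ← ha]
      simp [hP, hev, hWP, Finsupp.single_apply]
    simp only [f, h2, ha, sub_self, Pi.zero_apply]
  have hw0 := hw hf0
  refine ⟨u, fun X => ?_⟩
  rw [← he, hg'', hw0]
  simp only [map_zero, add_zero]
  have : Submodule.span ℚ_[p] (range fun j => (b j : 𝔸)) = g.toSubmodule := by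
    have := congrArg (Submodule.map g.toSubmodule.subtype) b.span_eq
    rwa [Submodule.map_span, ← range_comp, Submodule.map_subtype_top] at this
  rw [this]
  rfl

/-- Countably many conjugacy classes of semisimple subalgebras. -/
theorem exists_countable_lie : ∃ 𝒢 : Set (LieSubalgebra ℚ_[p] 𝔸), 𝒢.Countable ∧
    (∀ g ∈ 𝒢, LieAlgebra.IsKilling ℚ_[p] g) ∧
    ∀ g' : LieSubalgebra ℚ_[p] 𝔸, LieAlgebra.IsKilling ℚ_[p] g' →
      ∃ g ∈ 𝒢, ∃ u : 𝔸ˣ, ∀ X : 𝔸, X ∈ g ↔ (u : 𝔸) * X * ↑u⁻¹ ∈ g' := by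
  classical
  have : ProperSpace 𝔸 := FiniteDimensional.proper ℚ_[p] 𝔸
  have key : ∀ m : ℕ, ∃ 𝒢 : Set (LieSubalgebra ℚ_[p] 𝔸), 𝒢.Countable ∧
      (∀ g ∈ 𝒢, LieAlgebra.IsKilling ℚ_[p] g) ∧
      ∀ g' : LieSubalgebra ℚ_[p] 𝔸, LieAlgebra.IsKilling ℚ_[p] g' → Module.finrank ℚ_[p] g' = m →
        ∃ g ∈ 𝒢, ∃ u : 𝔸ˣ, ∀ X : 𝔸, X ∈ g ↔ (u : 𝔸) * X * ↑u⁻¹ ∈ g' := by
    intro m
    let S : Set (Fin m → 𝔸) := {Y | ∃ g : LieSubalgebra ℚ_[p] 𝔸, LieAlgebra.IsKilling ℚ_[p] g ∧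
      ∃ b : Module.Basis (Fin m) ℚ_[p] g, Y = fun i => (b i : 𝔸)}
    have hS : ∀ Y ∈ S, ∃ g : LieSubalgebra ℚ_[p] 𝔸, LieAlgebra.IsKilling ℚ_[p] g ∧
        ∀ᶠ Y' in 𝓝 Y, ∀ g' : LieSubalgebra ℚ_[p] 𝔸,
          g'.toSubmodule = Submodule.span ℚ_[p] (range Y') →
          ∃ u : 𝔸ˣ, ∀ X : 𝔸, X ∈ g ↔ (u : 𝔸) * X * ↑u⁻¹ ∈ g' := by
      rintro _ ⟨g, hg, b, rfl⟩
      exact ⟨g, hg, eventually_conj g b⟩
    choose! G hG1 hG2 using hS
    obtain ⟨t, htS, htc, ht⟩ := TopologicalSpace.countable_cover_nhdsWithin (s := S)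
      (f := fun Y => {Y' | ∀ g' : LieSubalgebra ℚ_[p] 𝔸,
          g'.toSubmodule = Submodule.span ℚ_[p] (range Y') →
          ∃ u : 𝔸ˣ, ∀ X : 𝔸, X ∈ G Y ↔ (u : 𝔸) * X * ((u⁻¹ : 𝔸ˣ) : 𝔸) ∈ g'})
      (fun Y hY => nhdsWithin_le_nhds (hG2 Y hY))
    refine ⟨G '' t, htc.image _, ?_, ?_⟩
    · rintro _ ⟨Y, hY, rfl⟩
      exact hG1 Y (htS hY)
    · intro g' hg' hm
      let b : Module.Basis (Fin m) ℚ_[p] g' := Module.finBasisOfFinrankEq _ _ hm
      have := ht (⟨g', hg', b, rfl⟩ : (fun i => (b i : 𝔸)) ∈ S)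
      simp only [mem_iUnion, mem_ofPred_eq] at this
      obtain ⟨Y, hY, h⟩ := this
      refine ⟨G Y, ⟨Y, hY, rfl⟩, h g' ?_⟩
      have := congrArg (Submodule.map g'.toSubmodule.subtype) b.span_eq
      rw [Submodule.map_span, ← range_comp, Submodule.map_subtype_top] at this
      exact this.symm
  choose 𝒢 h1 h2 h3 using key
  refine ⟨⋃ m, 𝒢 m, countable_iUnion h1, ?_, ?_⟩
  · intro g hg
    obtain ⟨m, hm⟩ := mem_iUnion.mp hg
    exact h2 m g hm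
  · intro g' hg'
    obtain ⟨g, hg, h⟩ := h3 _ g' hg' rfl
    exact ⟨g, mem_iUnion.mpr ⟨_, hg⟩, h⟩

end Pool.Agent.Lib.MP_dd16b7_nt
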