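import Mathlib
import Pool.Agent.Lib.MP_dd16b7_nt.GroupWhitehead
import Pool.Agent.Lib.MP_dd16b7_nt.RigidLie

/-!
Rigidity of continuous representations of a free pro-`p` group whose image has a given semisimple
Lie algebra: up to conjugation and automorphisms there are only countably many of them.
-/

namespace Pool.Agent.Lib.MP_dd16b7_nt

open NormedSpace Filter Topology Set

variable {p : ℕ} [hp : Fact p.Prime]
variable {F : Type} [Group F]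
variable {𝔸 : Type*} [NormedRing 𝔸] [NormedAlgebra ℚ_[p] 𝔸] [FiniteDimensional ℚ_[p] 𝔸]

attribute [local instance 100] LieRing.ofAssociativeRing

theorem IsLie.conj_mem {ρ : F →* 𝔸} {g : LieSubalgebra ℚ_[p] 𝔸} (hg : IsLie (range ρ) g)
    (a : F) {X : 𝔸} (hX : X ∈ g) : ρ a * X * ρ a⁻¹ ∈ g := by
  have : CompleteSpace 𝔸 := FiniteDimensional.complete ℚ_[p] 𝔸
  refine (hg _).mpr (conj_mem_lieSet (p := p) (ρ.toHomUnits a) (Γ := range ρ) ?_ ((hg _).mp hX))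
  rintro _ ⟨b, rfl⟩
  exact ⟨a * b * a⁻¹, by rw [map_mul, map_mul]; rfl⟩

theorem ExpBall.lie_mem [CompleteSpace 𝔸] {r : ℝ} (hr : ExpBall p 𝔸 r) (S : Submodule ℚ_[p] 𝔸)
    {Y : 𝔸} (hY : ‖Y‖ < r) (h : ∀ X ∈ S, exp Y * X * exp (-Y) ∈ S) {X : 𝔸} (hX : X ∈ S) :
    Y * X - X * Y ∈ S := by
  have hY' : ‖-Y‖ < r := by rwa [norm_neg]
  refine deriv_mem_of_eventually_mem S S.closed_of_finiteDimensional (hasDerivAt_conj_exp X Y) ?_
  filter_upwards [eventually_norm_le_one (p := p)] with t ht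
  refine padicInt_induction
    (S := (fun t : ℤ_[p] => exp ((t : ℚ_[p]) • Y) * X * exp ((t : ℚ_[p]) • (-Y))) ⁻¹' S)
    (S.closed_of_finiteDimensional.preimage
      (((hr.continuous_smul hY).mul continuous_const).mul (hr.continuous_smul hY')))
    (fun k => ?_) ⟨t, ht⟩
  simp only [mem_preimage, PadicInt.coe_natCast, SetLike.mem_coe]
  rw [hr.exp_natCast_smul hY, hr.exp_natCast_smul hY']
  induction k with
  | zero => simpa using hX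
  | succ k ih =>
    have := h _ ih
    rw [pow_succ', pow_succ]
    simpa only [mul_assoc] using this

theorem exists_sub_mem_centralizer (g : LieSubalgebra ℚ_[p] 𝔸) [LieAlgebra.IsKilling ℚ_[p] g]
    {Y : 𝔸} (h : ∀ X ∈ g, Y * X - X * Y ∈ g) :
    ∃ X₀ ∈ g, Y - X₀ ∈ Subalgebra.centralizer ℚ_[p] (g : Set 𝔸) := by
  let D : g →ₗ[ℚ_[p]] g :=
    { toFun := fun X => ⟨⁅(X : 𝔸), Y⁆, by
        rw [← lie_skew]; exact g.neg_mem (h X X.2)⟩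
      map_add' := fun a b => Subtype.ext (add_lie (a : 𝔸) b Y)
      map_smul' := fun t a => Subtype.ext (smul_lie t (a : 𝔸) Y) }
  obtain ⟨e, he⟩ := whitehead (LieAlgebra.ad ℚ_[p] g) D
    (fun a b => Subtype.ext (lie_lie (a : 𝔸) (b : 𝔸) Y))
  refine ⟨e, e.2, (Subalgebra.mem_centralizer_iff _).mpr fun X hX => ?_⟩
  have : ⁅X, Y⁆ = ⁅X, (e : 𝔸)⁆ := congrArg Subtype.val (he ⟨X, hX⟩)
  rw [← sub_eq_zero, ← lie_sub, Ring.lie_def, sub_eq_zero] at this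
  exact this

theorem eq_zero_of_mem_centralizer (g : LieSubalgebra ℚ_[p] 𝔸) [LieAlgebra.IsKilling ℚ_[p] g]
    {Z : 𝔸} (h1 : Z ∈ g) (h2 : Z ∈ Subalgebra.centralizer ℚ_[p] (g : Set 𝔸)) : Z = 0 := by
  have : (⟨Z, h1⟩ : g) ∈ LieAlgebra.center ℚ_[p] g := by
    intro X
    refine Subtype.ext ?_
    show (X : 𝔸) * Z - Z * X = 0
    rw [(Subalgebra.mem_centralizer_iff _).mp h2 X X.2, sub_self]
  rw [LieAlgebra.center_eq_bot] at this
  exact congrArg Subtype.val this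

theorem IsLie.conj_mem_centralizer {ρ : F →* 𝔸} {g : LieSubalgebra ℚ_[p] 𝔸}
    (hg : IsLie (range ρ) g) (a : F) {z : 𝔸} (hz : z ∈ Subalgebra.centralizer ℚ_[p] (g : Set 𝔸)) :
    ρ a * z * ρ a⁻¹ ∈ Subalgebra.centralizer ℚ_[p] (g : Set 𝔸) := by
  rw [Subalgebra.mem_centralizer_iff] at hz ⊢
  intro X hX
  have h1 := hz _ (hg.conj_mem a⁻¹ hX)
  have h2 : ρ a * ρ a⁻¹ = 1 := by rw [← map_mul]; simp
  rw [inv_inv] at h1
  calc X * (ρ a * z * ρ a⁻¹) = (ρ a * ρ a⁻¹) * X * (ρ a * z * ρ a⁻¹) := by rw [h2, one_mul]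
    _ = ρ a * (ρ a⁻¹ * X * ρ a * z) * ρ a⁻¹ := by simp only [mul_assoc]
    _ = ρ a * (z * (ρ a⁻¹ * X * ρ a)) * ρ a⁻¹ := by rw [h1]
    _ = ρ a * z * ρ a⁻¹ * X * (ρ a * ρ a⁻¹) := by simp only [mul_assoc]
    _ = _ := by rw [h2, mul_one]

variable [TopologicalSpace F] [IsTopologicalGroup F] [CompactSpace F]
  [TotallyDisconnectedSpace F] {d : ℕ} {x : Fin d → F}

/-- A small open subgroup acts through elements commuting with the centraliser of the Lie algebra. -/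
theorem IsLie.exists_level_comm {ρ : F →* 𝔸} (hρ : Continuous ρ) {g : LieSubalgebra ℚ_[p] 𝔸}
    (hg : IsLie (range ρ) g) {s : Set 𝔸} (hs : s ∈ 𝓝 (1 : 𝔸)) :
    ∃ m, ∀ a ∈ level F m, ρ a ∈ s ∧
      ∀ z ∈ Subalgebra.centralizer ℚ_[p] (g : Set 𝔸), ρ a * z = z * ρ a := by
  have h1 : Tendsto ρ (𝓝 1) (𝓝 1) := by simpa using hρ.tendsto 1
  obtain ⟨m, hm⟩ := exists_level_subset
    (h1.eventually ((hg.eventually_exists hρ one_pos).and hs))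
  refine ⟨m, fun a ha => ⟨(hm ha).2, fun z hz => ?_⟩⟩
  obtain ⟨X, hX, -, he⟩ := (hm ha).1 ⟨a, rfl⟩
  rw [← he]
  exact Commute.exp_left ((Subalgebra.mem_centralizer_iff _).mp hz X hX)

omit [TotallyDisconnectedSpace F] in
theorem eventually_mem_image {ρ : F →* 𝔸} (hρ : Continuous ρ) (U : Subgroup F)
    (hU : IsOpen (U : Set F)) : ∀ᶠ z in 𝓝 (1 : 𝔸), z ∈ range ρ → ∃ u ∈ U, ρ u = z := by
  have ho : IsOpen ((U ⊔ ρ.ker : Subgroup F) : Set F) := Subgroup.isOpen_mono le_sup_left hU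
  filter_upwards [eventually_forall_of_compact hρ ho (y := 1)
    (fun a ha => (le_sup_right : ρ.ker ≤ U ⊔ ρ.ker) ha)] with z hz ⟨a, ha⟩
  obtain ⟨u, hu, n, hn, rfl⟩ := Subgroup.mem_sup_of_normal_right.mp (hz a ha)
  refine ⟨u, hu, ?_⟩
  rw [← ha, map_mul, MonoidHom.mem_ker.mp hn, mul_one]

theorem IsFreeProP.eventually_equiv [IsUltrametricDist 𝔸] (hF : IsFreeProP p x) {ρ₀ : F →* 𝔸}
    (hρ₀ : Continuous ρ₀) {g : LieSubalgebra ℚ_[p] 𝔸} (hg₀ : IsLie (range ρ₀) g)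
    [LieAlgebra.IsKilling ℚ_[p] g] :
    ∀ᶠ Y in 𝓝 (fun i => ρ₀ (x i)), ∀ ρ : F →* 𝔸, Continuous ρ → IsLie (range ρ) g →
      (∀ i, ρ (x i) = Y i) →
      ∃ (α : ContAut F) (b : 𝔸ˣ), ∀ a, ρ a = b * ρ₀ (α.1 a) * ((b⁻¹ : 𝔸ˣ) : 𝔸) := by
  classical
  have : CompleteSpace 𝔸 := FiniteDimensional.complete ℚ_[p] 𝔸
  obtain ⟨r, hr⟩ := exists_expBall p 𝔸
  set c := Subalgebra.centralizer ℚ_[p] (g : Set 𝔸) with hcdef
  have hcc : IsClosed (c : Set 𝔸) := c.toSubmodule.closed_of_finiteDimensional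
  obtain ⟨ε₀, hε₀, hexp⟩ := IsLie.exists_exp_mem (Γ := MonoidHom.mrange ρ₀)
    (isClosed_mrange hρ₀) hg₀
  obtain ⟨m₁, hm₁⟩ := hg₀.exists_level_comm hρ₀ univ_mem
  have : Finite (F ⧸ level F m₁) := (level F m₁).quotient_finite_of_isOpen (hF.isOpen_level m₁)
  have : Fintype (F ⧸ level F m₁) := Fintype.ofFinite _
  set D := Fintype.card (F ⧸ level F m₁) with hD
  have hD0 : (D : ℚ_[p]) ≠ 0 := by exact_mod_cast Fintype.card_ne_zero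
  -- the small radius
  obtain ⟨ε, hε0, hε1, hεD, hεexp⟩ : ∃ ε : ℝ, 0 < ε ∧ ε ≤ 1 ∧ ‖(D : ℚ_[p])⁻¹‖ * (D * ε) < 1 ∧
      ∀ y : 𝔸, ‖y - 1‖ ≤ ε → ∃ Z : 𝔸, ‖Z‖ < r ∧ exp Z = y := by
    obtain ⟨η, hη, h⟩ := Metric.nhds_basis_closedBall.eventually_iff.mp
      (eventually_exists_exp p 𝔸 hr.pos)
    have h1 : ∀ᶠ ε : ℝ in 𝓝 0, ‖(D : ℚ_[p])⁻¹‖ * (D * ε) < 1 := by
      have : Continuous fun ε : ℝ => ‖(D : ℚ_[p])⁻¹‖ * (D * ε) := by fun_prop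
      exact this.continuousAt.eventually_lt continuousAt_const (by simp)
    have h2 : ∀ᶠ ε : ℝ in 𝓝 0, ε ≤ min 1 η := eventually_le_nhds (lt_min one_pos hη)
    obtain ⟨ε, ⟨h3, h4⟩, h5⟩ := (Filter.Eventually.and
      (nhdsWithin_le_nhds (s := Ioi 0) (h1.and h2)) self_mem_nhdsWithin).exists
    refine ⟨ε, h5, h4.trans (min_le_left _ _), h3, fun y hy => h ?_⟩
    rw [Metric.mem_closedBall, dist_eq_norm]
    exact hy.trans (h4.trans (min_le_right _ _))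
  have hinv : ∀ (ρ : F →* 𝔸) a, ρ a * ρ a⁻¹ = 1 := fun ρ a => by rw [← map_mul]; simp
  have hinv' : ∀ (ρ : F →* 𝔸) a, ρ a⁻¹ * ρ a = 1 := fun ρ a => by rw [← map_mul]; simp
  let C' : Set 𝔸 := {z | z ∈ c ∧ ∀ a, ‖ρ₀ a * z * ρ₀ a⁻¹ - 1‖ ≤ ε}
  have hC'c : IsClosed C' := by
    have h : IsClosed (⋂ a, {z : 𝔸 | ‖ρ₀ a * z * ρ₀ a⁻¹ - 1‖ ≤ ε}) :=
      isClosed_iInter fun a => isClosed_le (by fun_prop) continuous_const
    convert hcc.inter h using 1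
    ext z
    simp [C']
  have hC'1 : (1 : 𝔸) ∈ C' := ⟨c.one_mem, fun a => by simp [hinv, hε0.le]⟩
  have hC'mul : ∀ z ∈ C', ∀ w ∈ C', z * w ∈ C' := by
    intro z hz w hw
    refine ⟨c.mul_mem hz.1 hw.1, fun a => ?_⟩
    have e : ρ₀ a * (z * w) * ρ₀ a⁻¹ - 1 = (ρ₀ a * z * ρ₀ a⁻¹ - 1) * (ρ₀ a * w * ρ₀ a⁻¹ - 1)
        + ((ρ₀ a * z * ρ₀ a⁻¹ - 1) + (ρ₀ a * w * ρ₀ a⁻¹ - 1)) := by
      have : ρ₀ a * (z * w) * ρ₀ a⁻¹ = (ρ₀ a * z * ρ₀ a⁻¹) * (ρ₀ a * w * ρ₀ a⁻¹) := by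
        calc _ = ρ₀ a * z * (ρ₀ a⁻¹ * ρ₀ a) * w * ρ₀ a⁻¹ := by
              rw [hinv', mul_one]; simp only [mul_assoc]
          _ = _ := by simp only [mul_assoc]
      rw [this]; noncomm_ring
    rw [e]
    refine (IsUltrametricDist.norm_add_le_max _ _).trans (max_le ?_
      ((IsUltrametricDist.norm_add_le_max _ _).trans (max_le (hz.2 a) (hw.2 a))))
    refine (norm_mul_le _ _).trans ?_
    calc _ ≤ ε * 1 := mul_le_mul (hz.2 a) ((hw.2 a).trans hε1) (norm_nonneg _) hε0.le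
      _ = ε := mul_one ε
  have hC'conj : ∀ a, ∀ z ∈ C', ρ₀ a * z * ρ₀ a⁻¹ ∈ C' := by
    intro a z hz
    refine ⟨hg₀.conj_mem_centralizer a hz.1, fun a' => ?_⟩
    have := hz.2 (a' * a)
    simpa only [map_mul, mul_inv_rev, mul_assoc] using this
  have hC'exp : ∀ z ∈ C', ∃ Z : 𝔸, ‖Z‖ < r ∧ exp Z = z := fun z hz =>
    hεexp z (by simpa using hz.2 1)
  have htube : ∀ᶠ z in 𝓝 (1 : 𝔸), ∀ a, ‖ρ₀ a * z * ρ₀ a⁻¹ - 1‖ ≤ ε := by
    have := (isCompact_univ (X := F)).eventually_forall_of_forall_eventually (x₀ := (1 : 𝔸))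
      (P := fun z a => ‖ρ₀ a * z * ρ₀ a⁻¹ - 1‖ ≤ ε) (fun a _ => by
        have hc : Continuous fun z : 𝔸 × F => ‖ρ₀ z.2 * z.1 * ρ₀ z.2⁻¹ - 1‖ := by fun_prop
        exact (hc.continuousAt.eventually_lt continuousAt_const (by simpa [hinv] using hε0)).mono
          fun _ h => h.le)
    exact this.mono fun z hz a => hz a trivial
  -- the projection onto `g` along the centraliser
  have hdisj : Disjoint c.toSubmodule g.toSubmodule :=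
    Submodule.disjoint_def.mpr fun Z h1 h2 => eq_zero_of_mem_centralizer g h2 h1
  obtain ⟨q, hcq, hq⟩ := hdisj.exists_isCompl
  let P : 𝔸 →L[ℚ_[p]] 𝔸 := LinearMap.toContinuousLinearMap (g.toSubmodule.projection q hq.symm)
  have hP : ∀ X ∈ g, ∀ Z ∈ c, P (X + Z) = X := by
    intro X hX Z hZ
    show g.toSubmodule.projection q hq.symm (X + Z) = X
    rw [map_add, Submodule.projection_apply_of_mem_left hq.symm hX,
      Submodule.projection_apply_of_mem_right hq.symm (hcq hZ), add_zero]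
  have hloc : ∀ᶠ δ in 𝓝 (1 : 𝔸), ∀ δ', δ * δ' = 1 → (∀ X ∈ g, δ * X * δ' ∈ g) →
      ∃ u ∈ level F p, ∃ z ∈ C', δ = ρ₀ u * z := by
    have t1 : Tendsto P (𝓝 0) (𝓝 0) := by simpa using P.continuous.tendsto 0
    have t2 : Tendsto (fun Y => Y - P Y) (𝓝 0) (𝓝 0) := by
      have : Continuous fun Y => Y - P Y := by fun_prop
      simpa using this.tendsto 0
    have hb : ∀ {η : ℝ}, 0 < η → ∀ᶠ Y in 𝓝 (0 : 𝔸), ‖Y‖ < η := fun hη => by
      filter_upwards [Metric.ball_mem_nhds (0 : 𝔸) hη] with Y hY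
      simpa using hY
    have h1 := (hb hr.pos).and ((t1.eventually ((hb hr.pos).and ((hb hε₀).and
      ((tendsto_exp_zero p 𝔸).eventually
        (eventually_mem_image hρ₀ _ (hF.isOpen_level p)))))).and
      (t2.eventually ((hb hr.pos).and ((tendsto_exp_zero p 𝔸).eventually htube))))
    obtain ⟨η, hη, h2⟩ := Metric.eventually_nhds_iff.mp h1
    filter_upwards [eventually_exists_exp p 𝔸 hη] with δ ⟨Y, hY, hYe⟩ δ' hδ hnorm
    obtain ⟨a1, ⟨a2, a3, a4⟩, a5, a6⟩ := h2 (y := Y) (by simpa using hY)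
    have hδ' : δ' = exp (-Y) := by
      rw [← one_mul δ', ← hr.exp_neg_mul_exp a1, mul_assoc, hYe, hδ, mul_one]
    obtain ⟨X₀, hX₀, hZ⟩ := exists_sub_mem_centralizer g (Y := Y) fun X hX =>
      hr.lie_mem g.toSubmodule a1 (fun X hX => by rw [hYe, ← hδ']; exact hnorm X hX) hX
    have hPY : P Y = X₀ := by
      have := hP X₀ hX₀ _ hZ
      rwa [add_sub_cancel] at this
    rw [hPY] at a2 a3 a4 a5 a6
    obtain ⟨u, hu, hu'⟩ := a4 (hexp X₀ hX₀ a3)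
    refine ⟨u, hu, exp (Y - X₀), ⟨?_, a6⟩, ?_⟩
    · exact (Subalgebra.mem_centralizer_iff _).mpr fun X hX =>
        Commute.exp_right ((Subalgebra.mem_centralizer_iff _).mp hZ X hX)
    · rw [hu', ← exp_add_of_commute_of_mem_ball
        ((Subalgebra.mem_centralizer_iff _).mp hZ X₀ hX₀) (hr.mem _ a2) (hr.mem _ a5),
        add_sub_cancel, hYe]
  have hev : ∀ᶠ Y in 𝓝 (fun i => ρ₀ (x i)), ∀ i, ∀ δ', ρ₀ (x i)⁻¹ * Y i * δ' = 1 →
      (∀ X ∈ g, ρ₀ (x i)⁻¹ * Y i * X * δ' ∈ g) →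
      ∃ u ∈ level F p, ∃ z ∈ C', ρ₀ (x i)⁻¹ * Y i = ρ₀ u * z := by
    rw [eventually_all]
    intro i
    have : Tendsto (fun Y : Fin d → 𝔸 => ρ₀ (x i)⁻¹ * Y i) (𝓝 fun i => ρ₀ (x i)) (𝓝 1) := by
      have hc : Continuous fun Y : Fin d → 𝔸 => ρ₀ (x i)⁻¹ * Y i := by fun_prop
      simpa [hinv'] using hc.tendsto fun i => ρ₀ (x i)
    exact this.eventually hloc
  filter_upwards [hev] with Y hY ρ hρ hg hρY
  have h1 : ∀ i, ∃ u ∈ level F p, ∃ z ∈ C', ρ₀ (x i)⁻¹ * ρ (x i) = ρ₀ u * z := by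
    intro i
    rw [hρY]
    refine hY i (ρ (x i)⁻¹ * ρ₀ (x i)) ?_ fun X hX => ?_
    · rw [← hρY, mul_assoc, ← mul_assoc (ρ (x i)), hinv, one_mul, hinv']
    · have := hg₀.conj_mem (x i)⁻¹ (hg.conj_mem (x i) hX)
      rw [← hρY]
      simpa only [inv_inv, mul_assoc] using this
  choose u hu z hz huz using h1
  obtain ⟨α, hα⟩ := hF.exists_aut (fun i => x i * u i) (fun U _ hUo hUi i hi => by
    have : u i ∈ U := level_le U hUo (by rw [hUi]; exact hu i)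
    exact (U.mul_mem_cancel_right this).mp hi)
  let ζ : F → 𝔸 := fun a => ρ a * ρ₀ (α.1 a)⁻¹
  have hζc : Continuous ζ := hρ.mul (hρ₀.comp α.2.1.inv)
  have hζmul : ∀ a b, ζ (a * b) = ζ a * (ρ₀ (α.1 a) * ζ b * ρ₀ (α.1 a)⁻¹) := by
    intro a b
    simp only [ζ, map_mul, mul_inv_rev, mul_assoc]
    rw [← mul_assoc (ρ₀ (α.1 a)⁻¹) (ρ₀ (α.1 a)), hinv', one_mul]
  have hζ : ∀ a, ζ a ∈ C' := by
    refine hF.induction (S := ζ ⁻¹' C') (hC'c.preimage hζc) (by simpa [ζ] using hC'1)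
      (fun a ha b hb => ?_) fun i => ?_
    · rw [mem_preimage, hζmul]
      exact hC'mul _ ha _ (hC'conj _ _ hb)
    · have e : ρ (x i) = ρ₀ (α.1 (x i)) * z i := by
        rw [hα, map_mul, mul_assoc, ← huz, ← mul_assoc, hinv, one_mul]
      rw [mem_preimage]
      simp only [ζ]
      rw [e]
      exact hC'conj _ _ (hz i)
  have hA : ∀ᶠ a in 𝓝 (1 : F), ζ a = 1 := by
    have t1 : Tendsto ρ (𝓝 1) (𝓝 1) := by simpa using hρ.tendsto 1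
    filter_upwards [t1.eventually (hg.eventually_exists hρ hε₀)] with a ha
    obtain ⟨X, hX, hn, he⟩ := ha ⟨a, rfl⟩
    obtain ⟨a', ha'⟩ := hexp X hX hn
    obtain ⟨Z, hZ, hZe⟩ := hC'exp _ (hζ a)
    have h2 : Z ∈ g := (hg₀ Z).mpr (hr.mem_lieSet (Γ := MonoidHom.mrange ρ₀)
      (isClosed_mrange hρ₀) hZ ⟨a' * (α.1 a)⁻¹, by rw [map_mul, ha', he, hZe]⟩)
    have h3 : Z ∈ c := mem_of_mem_lieSet c.toSubmodule hcc subset_rfl
      (hr.mem_lieSet (Γ := c.toSubsemiring.toSubmonoid) hcc hZ (by rw [hZe]; exact (hζ a).1))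
    rw [← hZe, eq_zero_of_mem_centralizer g h2 h3, exp_zero]
  have hB : ∀ a ∈ level F m₁, ζ a = 1 := by
    intro a ha
    obtain ⟨m₂, hm₂⟩ := exists_level_subset hA
    have : Finite (F ⧸ level F m₂) := (level F m₂).quotient_finite_of_isOpen (hF.isOpen_level m₂)
    have hfi : (level F m₂).FiniteIndex := Subgroup.finiteIndex_of_finite_quotient
    obtain ⟨k, hk0, -, hk⟩ := (level F m₂).exists_pow_mem_of_index_ne_zero hfi.index_ne_zero a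
    have hpow : ∀ k : ℕ, ζ (a ^ k) = ζ a ^ k := by
      intro k
      induction k with
      | zero => simp [ζ]
      | succ k ih =>
        have := (hm₁ _ (map_mem_level α.1.toMonoidHom α.2.1 ha)).2 _ (hζ (a ^ k)).1
        rw [pow_succ', hζmul, pow_succ', ← ih]
        congr 1
        erw [this]
        rw [mul_assoc]
        erw [hinv]
        rw [mul_one]
    obtain ⟨Z, hZ, hZe⟩ := hC'exp _ (hζ a)
    have h2 : exp ((k : ℚ_[p]) • Z) = exp 0 := by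
      rw [hr.exp_natCast_smul hZ, hZe, ← hpow, exp_zero]
      exact hm₂ hk
    have h3 := hr.inj _ _ (norm_smul_lt hZ (norm_natCast_le k)) (by simpa using hr.pos) h2
    have hk' : (k : ℚ_[p]) ≠ 0 := by exact_mod_cast hk0.ne'
    rw [← hZe, (smul_eq_zero.mp h3).resolve_left hk', exp_zero]
  let ζq : F ⧸ level F m₁ → 𝔸 := fun q => ζ q.out
  have hζq : ∀ a : F, ζq (a : F ⧸ level F m₁) = ζ a := by
    intro a
    obtain ⟨v, hv⟩ := QuotientGroup.mk_out_eq_mul (level F m₁) a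
    simp only [ζq]
    rw [hv, hζmul, hB v v.2, mul_one, hinv, mul_one]
  let b : 𝔸 := (D : ℚ_[p])⁻¹ • ∑ q, ζq q
  have hbu : IsUnit b := by
    have e : 1 - b = (D : ℚ_[p])⁻¹ • ∑ q, (1 - ζq q) := by
      rw [Finset.sum_sub_distrib, smul_sub, Finset.sum_const, Finset.card_univ, ← hD,
        ← Nat.cast_smul_eq_nsmul ℚ_[p], smul_smul, inv_mul_cancel₀ hD0, one_smul]
    have := isUnit_one_sub_of_norm_lt_one (x := 1 - b) (by
      rw [e, norm_smul]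
      refine lt_of_le_of_lt (mul_le_mul_of_nonneg_left ?_ (norm_nonneg _)) hεD
      refine (norm_sum_le _ _).trans ?_
      have : ∀ q, ‖1 - ζq q‖ ≤ ε := fun q => by
        rw [norm_sub_rev]
        simpa using (hζ q.out).2 1
      calc _ ≤ ∑ _q : F ⧸ level F m₁, ε := Finset.sum_le_sum fun q _ => this q
        _ = D * ε := by rw [Finset.sum_const, Finset.card_univ, nsmul_eq_mul])
    simpa using this
  obtain ⟨B, hB'⟩ := hbu
  refine ⟨α, B, fun y => ?_⟩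
  rw [Units.eq_mul_inv_iff_mul_eq, hB']
  have e1 : ∑ q, ζq (y • q) = ∑ q, ζq q := Equiv.sum_comp (MulAction.toPerm y) ζq
  have e2 : ∀ q, ρ y * ζq q = ζq (y • q) * ρ₀ (α.1 y) := by
    intro q
    obtain ⟨a, rfl⟩ := QuotientGroup.mk_surjective q
    rw [MulAction.Quotient.smul_mk, hζq, hζq, smul_eq_mul]
    simp only [ζ, map_mul, mul_inv_rev, mul_assoc, hinv', mul_one]
  simp only [b, mul_smul_comm, smul_mul_assoc]
  rw [Finset.mul_sum, ← e1, Finset.sum_mul]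
  simp only [e2]

/-- Countably many classes of representations with semisimple Lie algebra. -/
theorem IsFreeProP.exists_countable_rep [IsUltrametricDist 𝔸] (hF : IsFreeProP p x) :
    ∃ 𝓡 : Set (F →* 𝔸), 𝓡.Countable ∧
      (∀ ρ₀ ∈ 𝓡, Continuous ρ₀ ∧ ∃ g : LieSubalgebra ℚ_[p] 𝔸, IsLie (range ρ₀) g ∧
        LieAlgebra.IsKilling ℚ_[p] g) ∧
      ∀ ρ : F →* 𝔸, Continuous ρ → ∀ g : LieSubalgebra ℚ_[p] 𝔸, IsLie (range ρ) g →
        LieAlgebra.IsKilling ℚ_[p] g → ∃ ρ₀ ∈ 𝓡, ∃ (α : ContAut F) (b : 𝔸ˣ),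
          ∀ a, ρ a = b * ρ₀ (α.1 a) * ((b⁻¹ : 𝔸ˣ) : 𝔸) := by
  classical
  have : CompleteSpace 𝔸 := FiniteDimensional.complete ℚ_[p] 𝔸
  have : ProperSpace 𝔸 := FiniteDimensional.proper ℚ_[p] 𝔸
  obtain ⟨𝒢, h𝒢c, h𝒢k, h𝒢⟩ := exists_countable_lie (p := p) (𝔸 := 𝔸)
  have key : ∀ g ∈ 𝒢, ∃ 𝓡 : Set (F →* 𝔸), 𝓡.Countable ∧
      (∀ ρ₀ ∈ 𝓡, Continuous ρ₀ ∧ IsLie (range ρ₀) g) ∧
      ∀ ρ : F →* 𝔸, Continuous ρ → IsLie (range ρ) g → ∃ ρ₀ ∈ 𝓡, ∃ (α : ContAut F) (b : 𝔸ˣ),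
          ∀ a, ρ a = b * ρ₀ (α.1 a) * ((b⁻¹ : 𝔸ˣ) : 𝔸) := by
    intro g hg
    have := h𝒢k g hg
    let S : Set (Fin d → 𝔸) :=
      {Y | ∃ ρ : F →* 𝔸, Continuous ρ ∧ IsLie (range ρ) g ∧ Y = fun i => ρ (x i)}
    have hS : ∀ Y ∈ S, ∃ ρ₀ : F →* 𝔸, (Continuous ρ₀ ∧ IsLie (range ρ₀) g) ∧
        ∀ᶠ Y' in 𝓝 Y, ∀ ρ : F →* 𝔸, Continuous ρ → IsLie (range ρ) g →
          (∀ i, ρ (x i) = Y' i) →
          ∃ (α : ContAut F) (b : 𝔸ˣ), ∀ a, ρ a = b * ρ₀ (α.1 a) * ((b⁻¹ : 𝔸ˣ) : 𝔸) := by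
      rintro _ ⟨ρ, h1, h2, rfl⟩
      exact ⟨ρ, ⟨h1, h2⟩, hF.eventually_equiv h1 h2⟩
    choose! R hR1 hR2 using hS
    obtain ⟨t, htS, htc, ht⟩ := TopologicalSpace.countable_cover_nhdsWithin (s := S)
      (f := fun Y => {Y' : Fin d → 𝔸 | ∀ ρ : F →* 𝔸, Continuous ρ → IsLie (range ρ) g →
          (∀ i, ρ (x i) = Y' i) →
          ∃ (α : ContAut F) (b : 𝔸ˣ), ∀ a, ρ a = b * R Y (α.1 a) * ((b⁻¹ : 𝔸ˣ) : 𝔸)})
      (fun Y hY => nhdsWithin_le_nhds (hR2 Y hY))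
    refine ⟨R '' t, htc.image _, ?_, fun ρ h1 h2 => ?_⟩
    · rintro _ ⟨Y, hY, rfl⟩
      exact hR1 Y (htS hY)
    · obtain ⟨Y, hY, h⟩ := mem_iUnion₂.mp (ht (⟨ρ, h1, h2, rfl⟩ : (fun i => ρ (x i)) ∈ S))
      exact ⟨R Y, ⟨Y, hY, rfl⟩, h ρ h1 h2 fun _ => rfl⟩
  choose! 𝓡 h1 h2 h3 using key
  refine ⟨⋃ g ∈ 𝒢, 𝓡 g, h𝒢c.biUnion h1, ?_, ?_⟩
  · intro ρ₀ hρ₀
    obtain ⟨g, hg, h⟩ := mem_iUnion₂.mp hρ₀
    exact ⟨(h2 g hg ρ₀ h).1, g, (h2 g hg ρ₀ h).2, h𝒢k g hg⟩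
  · intro ρ hρ g' hg' hk
    obtain ⟨g, hg, u, hu⟩ := h𝒢 g' hk
    let ρ' : F →* 𝔸 := (conjAlg (p := p) u⁻¹).toMonoidHom.comp ρ
    have hρ' : ∀ a, ρ' a = ((u⁻¹ : 𝔸ˣ) : 𝔸) * ρ a * u := fun _ => rfl
    have hlie : IsLie (range ρ') g := by
      intro X
      rw [hu, hg']
      constructor
      · intro h
        have := conj_mem_lieSet (p := p) u⁻¹ (Γ := range ρ) (Γ' := range ρ')
          (by rintro _ ⟨a, rfl⟩; exact ⟨a, rfl⟩) h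
        simpa [mul_assoc] using this
      · intro h
        exact conj_mem_lieSet (p := p) u (Γ := range ρ') (Γ' := range ρ)
          (by rintro _ ⟨a, rfl⟩; exact ⟨a, by simp [hρ', mul_assoc]⟩) h
    obtain ⟨ρ₀, hρ₀, α, b, hb⟩ := h3 g hg ρ' ((continuous_conjAlg (p := p) u⁻¹).comp hρ) hlie
    refine ⟨ρ₀, mem_iUnion₂.mpr ⟨g, hg, hρ₀⟩, α, u * b, fun a => ?_⟩
    have := hb a
    rw [hρ'] at this
    calc ρ a = u * (((u⁻¹ : 𝔸ˣ) : 𝔸) * ρ a * u) * ((u⁻¹ : 𝔸ˣ) : 𝔸) := by simp [mul_assoc]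
      _ = _ := by rw [this]; simp [mul_assoc]

end Pool.Agent.Lib.MP_dd16b7_nt
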