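import Mathlib
import Pool.Agent.Lib.MP_dd16b7_nt.PExp

/-!
For a tracial linear map `τ` on an ultrametric Banach algebra over the `p`-adic numbers, the
function `τ ∘ log` is additive near `1`.
-/

namespace Pool.Agent.Lib.MP_dd16b7_nt

open NormedSpace Filter Topology Metric Set Asymptotics
open scoped Nat

variable {p : ℕ} [hp : Fact p.Prime]

/-- An analytic function whose derivative vanishes near a point is locally constant there. -/
theorem eventually_eq_of_fderiv_eq_zero {E G : Type*} [NormedAddCommGroup E] [NormedSpace ℚ_[p] E]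
    [NormedAddCommGroup G] [NormedSpace ℚ_[p] G] [CompleteSpace G] {f : E → G} {x : E}
    (hf : AnalyticAt ℚ_[p] f x) (h0 : ∀ᶠ y in 𝓝 x, HasFDerivAt f (0 : E →L[ℚ_[p]] G) y) :
    ∀ᶠ y in 𝓝 x, f y = f x := by
  obtain ⟨q, r, hq⟩ := hf
  have h1 : fderiv ℚ_[p] f =ᶠ[𝓝 x] fun _ => 0 := h0.mono fun y hy => hy.fderiv
  have h2 : ∀ n (y : E), iteratedFDeriv ℚ_[p] (n + 1) f x (fun _ => y) = 0 := by
    intro n y
    rw [iteratedFDeriv_succ_apply_right, (h1.iteratedFDeriv ℚ_[p] n).self_of_nhds,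
      iteratedFDeriv_fun_zero]
    simp
  filter_upwards [eball_mem_nhds x hq.r_pos] with z hz
  have hz' : z - x ∈ eball (0 : E) r := by
    rw [mem_eball, edist_eq_enorm_sub] at hz ⊢
    simpa using hz
  have h3 := hq.hasSum_iteratedFDeriv hz'
  rw [add_sub_cancel] at h3
  have h4 : HasSum (fun n => ((n ! : ℕ) : ℚ_[p])⁻¹ • iteratedFDeriv ℚ_[p] n f x fun _ => z - x)
      (f x) := by
    have := hasSum_single (f := fun n => ((n ! : ℕ) : ℚ_[p])⁻¹ •
      iteratedFDeriv ℚ_[p] n f x fun _ => z - x) 0 (fun n hn => by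
        obtain ⟨m, rfl⟩ := Nat.exists_eq_succ_of_ne_zero hn
        simp [h2])
    simpa using this
  exact h3.unique h4

variable (p) in
/-- Coefficients of the logarithmic series. -/
noncomputable def lcoef (n : ℕ) : ℚ_[p] := (-1) ^ (n + 1) * (n : ℚ_[p])⁻¹

theorem norm_lcoef_le (n : ℕ) : ‖lcoef p n‖ ≤ (p : ℝ) ^ n := by
  simpa [lcoef] using norm_inv_natCast_le (p := p) n

section

variable {𝔸 : Type*} [NormedRing 𝔸] [NormedAlgebra ℚ_[p] 𝔸]

variable (p) in
/-- The series `log (1 + x)`. -/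
noncomputable def logS (x : 𝔸) : 𝔸 := ∑' n, lcoef p n • x ^ n

theorem logS_zero : logS p (0 : 𝔸) = 0 := by
  unfold logS
  rw [tsum_eq_single 0]
  · simp [lcoef]
  · intro n hn
    simp [hn]

theorem analyticAt_logS [CompleteSpace 𝔸] : AnalyticAt ℚ_[p] (logS p : 𝔸 → 𝔸) 0 := by
  have h0 : 0 < (FormalMultilinearSeries.ofScalars 𝔸 (lcoef p)).radius := by
    refine lt_of_lt_of_le ?_ (ofScalars_radius_pos 𝔸 _ norm_lcoef_le)
    have : (0 : NNReal) < p := by exact_mod_cast hp.out.pos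
    exact_mod_cast inv_pos.mpr this
  have h := ((FormalMultilinearSeries.ofScalars 𝔸 (lcoef p)).hasFPowerSeriesOnBall h0).analyticAt
  have e : (logS p : 𝔸 → 𝔸) = (FormalMultilinearSeries.ofScalars 𝔸 (lcoef p)).sum :=
    (FormalMultilinearSeries.ofScalarsSum_eq_tsum (lcoef p)).symm
  rw [e]; exact h

omit [NormedAlgebra ℚ_[p] 𝔸] in
theorem norm_pow_mul_le (x w : 𝔸) (n : ℕ) : ‖x ^ n * w‖ ≤ ‖x‖ ^ n * ‖w‖ := by
  induction n with
  | zero => simp
  | succ n ih =>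
    rw [pow_succ', mul_assoc, pow_succ', mul_assoc]
    exact (norm_mul_le _ _).trans (mul_le_mul_of_nonneg_left ih (norm_nonneg _))

/-- The radius used for the logarithmic series. -/
noncomputable def lrad (p : ℕ) : ℝ := (2 * p : ℝ)⁻¹

theorem lrad_pos : 0 < lrad p := by
  have : (0 : ℝ) < p := by exact_mod_cast hp.out.pos
  unfold lrad; positivity

theorem lrad_mul : (p : ℝ) * lrad p = 1 / 2 := by
  have : (0 : ℝ) < p := by exact_mod_cast hp.out.pos
  unfold lrad; field_simp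

theorem lrad_lt_one : lrad p < 1 := by
  have : (1 : ℝ) ≤ p := by exact_mod_cast hp.out.one_le
  unfold lrad
  exact inv_lt_one_of_one_lt₀ (by linarith)

theorem hasSum_logS [CompleteSpace 𝔸] {x : 𝔸} (hx : ‖x‖ ≤ lrad p) :
    HasSum (fun n => lcoef p n • x ^ n) (logS p x) := by
  apply Summable.hasSum
  rw [← summable_nat_add_iff 1]
  refine Summable.of_norm_bounded (g := fun n => (1 / 2 : ℝ) ^ (n + 1)) ?_ fun n => ?_
  · exact (summable_nat_add_iff 1).mpr summable_geometric_two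
  · rw [norm_smul, ← lrad_mul (p := p), mul_pow]
    refine mul_le_mul (norm_lcoef_le _) ?_ (norm_nonneg _) (by positivity)
    exact (norm_pow_le' x (Nat.succ_pos n)).trans (pow_le_pow_left₀ (norm_nonneg _) hx _)

theorem map_logS {𝔹 : Type*} [NormedRing 𝔹] [NormedAlgebra ℚ_[p] 𝔹] [CompleteSpace 𝔸]
    (f : 𝔸 →ₐ[ℚ_[p]] 𝔹) (hf : Continuous f) {x : 𝔸} (hx : ‖x‖ ≤ lrad p) :
    f (logS p x) = logS p (f x) := by
  have := (hasSum_logS hx).map f hf
  rw [← this.tsum_eq, logS]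
  simp

theorem logS_conj (u : 𝔸ˣ) (x : 𝔸) : logS p ((u : 𝔸) * x * ↑u⁻¹) = u * logS p x * ↑u⁻¹ := by
  let e : 𝔸 ≃L[ℚ_[p]] 𝔸 :=
    { toFun := fun y => (u : 𝔸) * y * ↑u⁻¹
      invFun := fun y => (↑u⁻¹ : 𝔸) * y * u
      map_add' := fun a b => by simp [mul_add, add_mul]
      map_smul' := fun a b => by simp
      left_inv := fun y => by simp [mul_assoc]
      right_inv := fun y => by simp [mul_assoc]
      continuous_toFun := by fun_prop
      continuous_invFun := by fun_prop }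
  have : e (∑' n, lcoef p n • x ^ n) = ∑' n, e (lcoef p n • x ^ n) := e.map_tsum
  unfold logS
  refine Eq.trans ?_ this.symm
  congr 1
  ext n
  rw [map_smul, Units.conj_pow]
  rfl

/-- The first-order term of `(x + w) ^ n`. -/
def dpow (x w : 𝔸) : ℕ → 𝔸
  | 0 => 0
  | n + 1 => dpow x w n * x + x ^ n * w

variable [IsUltrametricDist 𝔸]

omit [NormedAlgebra ℚ_[p] 𝔸] in
theorem norm_add_pow_sub_le {x w : 𝔸} {ρ : ℝ} (hρ : 0 < ρ) (hx : ‖x‖ ≤ ρ) (hw : ‖w‖ ≤ ρ) (n : ℕ) :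
    ‖(x + w) ^ n - x ^ n‖ ≤ ‖w‖ * ρ ^ n / ρ := by
  induction n with
  | zero => simp; positivity
  | succ n ih =>
    have e : (x + w) ^ (n + 1) - x ^ (n + 1) = ((x + w) ^ n - x ^ n) * (x + w) + x ^ n * w := by
      rw [pow_succ, pow_succ]; noncomm_ring
    have hxw : ‖x + w‖ ≤ ρ := (IsUltrametricDist.norm_add_le_max x w).trans (max_le hx hw)
    rw [e]
    refine (IsUltrametricDist.norm_add_le_max _ _).trans (max_le ?_ ?_)
    · refine (norm_mul_le _ _).trans ((mul_le_mul ih hxw (norm_nonneg _) (by positivity)).trans_eq ?_)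
      field_simp
      ring
    · refine (norm_pow_mul_le x w n).trans ?_
      have := pow_le_pow_left₀ (norm_nonneg _) hx n
      rw [le_div_iff₀ hρ, pow_succ]
      have h2 := mul_le_mul_of_nonneg_right this (mul_nonneg (norm_nonneg w) hρ.le)
      nlinarith

omit [NormedAlgebra ℚ_[p] 𝔸] in
theorem norm_rem_le {x w : 𝔸} {ρ : ℝ} (hρ : 0 < ρ) (hx : ‖x‖ ≤ ρ) (hw : ‖w‖ ≤ ρ) (n : ℕ) :
    ‖(x + w) ^ n - x ^ n - dpow x w n‖ ≤ ‖w‖ ^ 2 * ρ ^ n / ρ ^ 2 := by
  induction n with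
  | zero => simp [dpow]; positivity
  | succ n ih =>
    have e : (x + w) ^ (n + 1) - x ^ (n + 1) - dpow x w (n + 1)
        = ((x + w) ^ n - x ^ n - dpow x w n) * x + ((x + w) ^ n - x ^ n) * w := by
      rw [pow_succ, pow_succ, dpow]; noncomm_ring
    rw [e]
    refine (IsUltrametricDist.norm_add_le_max _ _).trans (max_le ?_ ?_)
    · refine (norm_mul_le _ _).trans ((mul_le_mul ih hx (norm_nonneg _) (by positivity)).trans_eq ?_)
      field_simp
      ring
    · refine (norm_mul_le _ _).trans ((mul_le_mul_of_nonneg_right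
        (norm_add_pow_sub_le hρ hx hw n) (norm_nonneg _)).trans_eq ?_)
      field_simp
      ring

variable {E : Type*} [NormedAddCommGroup E] [NormedSpace ℚ_[p] E]

omit [IsUltrametricDist 𝔸] in
theorem trace_dpow (τ : 𝔸 →L[ℚ_[p]] E) (hτ : ∀ a b, τ (a * b) = τ (b * a)) (x w : 𝔸) (n j : ℕ) :
    τ (dpow x w (n + 1) * x ^ j) = ((n + 1 : ℕ) : ℚ_[p]) • τ (x ^ (n + j) * w) := by
  induction n generalizing j with
  | zero => simp [dpow, hτ w]
  | succ n ih =>
    rw [dpow, add_mul, mul_assoc, ← pow_succ', map_add, ih, hτ (x ^ (n + 1) * w), ← mul_assoc,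
      ← pow_add]
    have e1 : n + (j + 1) = n + 1 + j := by ring
    have e2 : j + (n + 1) = n + 1 + j := by ring
    rw [e1, e2, Nat.cast_succ (n + 1), add_smul, one_smul]

theorem hasFDerivAt_trace_logS [CompleteSpace 𝔸] (τ : 𝔸 →L[ℚ_[p]] E)
    (hτ : ∀ a b, τ (a * b) = τ (b * a)) {x : 𝔸} (hx : ‖x‖ ≤ lrad p) :
    HasFDerivAt (fun y => τ (logS p y))
      (τ.comp (ContinuousLinearMap.mul ℚ_[p] 𝔸 (Ring.inverse (1 + x)))) x := by
  have hρ := lrad_pos (p := p)
  rw [hasFDerivAt_iff_isLittleO_nhds_zero]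
  refine IsBigO.trans_isLittleO (g := fun w : 𝔸 => ‖w‖ ^ 2) ?_ (isLittleO_norm_pow_id one_lt_two)
  refine IsBigO.of_bound (‖τ‖ / lrad p ^ 2 * 2) ?_
  filter_upwards [closedBall_mem_nhds (0 : 𝔸) hρ] with w hw
  have hw' : ‖w‖ ≤ lrad p := by simpa using hw
  have hxw : ‖x + w‖ ≤ lrad p := (IsUltrametricDist.norm_add_le_max x w).trans (max_le hx hw')
  have s1 := (hasSum_logS hxw).map τ τ.continuous
  have s2 := (hasSum_logS hx).map τ τ.continuous
  have s3 : HasSum (fun n => lcoef p n • τ (dpow x w n)) (τ (Ring.inverse (1 + x) * w)) := by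
    have g1 := hasSum_geom_series_inverse (-x) (by rw [norm_neg]; exact hx.trans_lt lrad_lt_one)
    rw [sub_neg_eq_add] at g1
    have g2 := (g1.mul_right w).map τ τ.continuous
    rw [← hasSum_nat_add_iff' 1]
    have e : (fun n => lcoef p (n + 1) • τ (dpow x w (n + 1))) = τ ∘ fun i => (-x) ^ i * w := by
      ext n
      have := trace_dpow τ hτ x w n 0
      rw [pow_zero, mul_one, add_zero] at this
      have hn : ((n + 1 : ℕ) : ℚ_[p]) ≠ 0 := by exact_mod_cast Nat.succ_ne_zero n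
      rw [this, smul_smul, lcoef, mul_assoc, inv_mul_cancel₀ hn, mul_one, Function.comp_apply,
        ← neg_one_smul ℚ_[p] x, smul_pow, smul_mul_assoc, map_smul, pow_succ, pow_succ]
      simp
    rw [e]
    simpa [dpow] using g2
  have s4 := (s1.sub s2).sub s3
  have s5 : HasSum (fun n : ℕ => ‖τ‖ / lrad p ^ 2 * ‖w‖ ^ 2 * (1 / 2 : ℝ) ^ n)
      (‖τ‖ / lrad p ^ 2 * ‖w‖ ^ 2 * 2) := hasSum_geometric_two.mul_left _
  have := s4.norm_le_of_bounded s5 (fun n => by
    simp only [Function.comp_apply, map_smul]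
    rw [← smul_sub, ← smul_sub, ← map_sub, ← map_sub, norm_smul, ← lrad_mul (p := p), mul_pow]
    have b1 := τ.le_opNorm ((x + w) ^ n - x ^ n - dpow x w n)
    have b2 := norm_rem_le hρ hx hw' n
    have b3 := b1.trans (mul_le_mul_of_nonneg_left b2 (norm_nonneg τ))
    refine (mul_le_mul (norm_lcoef_le n) b3 (norm_nonneg _) (by positivity)).trans_eq ?_
    ring)
  simp only [ContinuousLinearMap.comp_apply, ContinuousLinearMap.mul_apply']
  refine this.trans_eq ?_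
  rw [Real.norm_of_nonneg (sq_nonneg _)]
  ring

/-- `τ ∘ log` is additive near the identity. -/
theorem eventually_trace_logS_mul [CompleteSpace 𝔸] [CompleteSpace E] (τ : 𝔸 →L[ℚ_[p]] E)
    (hτ : ∀ a b, τ (a * b) = τ (b * a)) :
    ∃ ε > 0, ∀ x y : 𝔸, ‖x‖ < ε → ‖y‖ < ε →
      τ (logS p (x + y + x * y)) = τ (logS p x) + τ (logS p y) := by
  have hρ := lrad_pos (p := p)
  let h : 𝔸 → E := fun y => τ (logS p y)
  have hh : AnalyticAt ℚ_[p] h 0 := (τ.analyticAt _).comp analyticAt_logS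
  let m : 𝔸 × 𝔸 → 𝔸 := fun z => z.1 + z.2 + z.1 * z.2
  let Ψ : 𝔸 × 𝔸 → E := fun z => h (m z) - h z.1 - h z.2
  have hm : AnalyticAt ℚ_[p] m 0 :=
    (analyticAt_fst.add analyticAt_snd).add (analyticAt_fst.mul analyticAt_snd)
  have hΨ : AnalyticAt ℚ_[p] Ψ 0 := by
    have a1 : AnalyticAt ℚ_[p] (h ∘ m) 0 := AnalyticAt.comp_of_eq hh hm (by simp [m])
    have a2 : AnalyticAt ℚ_[p] (h ∘ (Prod.fst : 𝔸 × 𝔸 → 𝔸)) 0 :=
      AnalyticAt.comp_of_eq hh analyticAt_fst rfl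
    have a3 : AnalyticAt ℚ_[p] (h ∘ (Prod.snd : 𝔸 × 𝔸 → 𝔸)) 0 :=
      AnalyticAt.comp_of_eq hh analyticAt_snd rfl
    exact (a1.sub a2).sub a3
  have hd : ∀ᶠ z in 𝓝 (0 : 𝔸 × 𝔸), HasFDerivAt Ψ (0 : 𝔸 × 𝔸 →L[ℚ_[p]] E) z := by
    filter_upwards [closedBall_mem_nhds (0 : 𝔸 × 𝔸) hρ] with z hz
    have hz' : ‖z‖ ≤ lrad p := by simpa using hz
    have h1 : ‖z.1‖ ≤ lrad p := (norm_fst_le z).trans hz'
    have h2 : ‖z.2‖ ≤ lrad p := (norm_snd_le z).trans hz'
    have h3 : ‖m z‖ ≤ lrad p := by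
      refine (IsUltrametricDist.norm_add_le_max _ _).trans (max_le
        ((IsUltrametricDist.norm_add_le_max _ _).trans (max_le h1 h2)) ?_)
      refine (norm_mul_le _ _).trans ?_
      have := lrad_lt_one (p := p)
      nlinarith [norm_nonneg z.1, norm_nonneg z.2]
    have dm := ((hasFDerivAt_fst (𝕜 := ℚ_[p]) (p := z)).add hasFDerivAt_snd).add
      ((hasFDerivAt_fst (𝕜 := ℚ_[p]) (p := z)).mul' hasFDerivAt_snd)
    have d1 := (hasFDerivAt_trace_logS τ hτ h3).comp z dm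
    have d2 := (hasFDerivAt_trace_logS τ hτ h1).comp z (hasFDerivAt_fst (𝕜 := ℚ_[p]) (p := z))
    have d3 := (hasFDerivAt_trace_logS τ hτ h2).comp z (hasFDerivAt_snd (𝕜 := ℚ_[p]) (p := z))
    refine HasFDerivAt.congr_fderiv ((d1.sub d2).sub d3) ?_
    obtain ⟨a, ha⟩ : IsUnit (1 + z.1) := by
      have := isUnit_one_sub_of_norm_lt_one (x := -z.1)
        (by rw [norm_neg]; exact h1.trans_lt lrad_lt_one)
      rwa [sub_neg_eq_add] at this
    obtain ⟨b, hb⟩ : IsUnit (1 + z.2) := by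
      have := isUnit_one_sub_of_norm_lt_one (x := -z.2)
        (by rw [norm_neg]; exact h2.trans_lt lrad_lt_one)
      rwa [sub_neg_eq_add] at this
    have hab : 1 + m z = ((a * b : 𝔸ˣ) : 𝔸) := by
      rw [Units.val_mul, ha, hb]; simp only [m]; noncomm_ring
    refine ContinuousLinearMap.ext fun v => ?_
    have e1 : v.1 + v.2 + (z.1 * v.2 + v.1 * z.2) = v.1 * b + a * v.2 := by
      rw [ha, hb]; noncomm_ring
    simp only [sub_apply, ContinuousLinearMap.comp_apply,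
      ContinuousLinearMap.mul_apply', add_apply, ContinuousLinearMap.coe_fst',
      ContinuousLinearMap.coe_snd', smul_apply, smul_eq_mul,
      MulOpposite.smul_eq_mul_unop, MulOpposite.unop_op, zero_apply]
    rw [e1, hab, ← ha, ← hb, Ring.inverse_unit, Ring.inverse_unit, Ring.inverse_unit, mul_inv_rev,
      Units.val_mul, mul_add, map_add]
    have t1 : τ ((↑b⁻¹ : 𝔸) * ↑a⁻¹ * (v.1 * b)) = τ (↑a⁻¹ * v.1) := by
      rw [mul_assoc, hτ]; simp [mul_assoc]
    have t2 : (↑b⁻¹ : 𝔸) * ↑a⁻¹ * (a * v.2) = ↑b⁻¹ * v.2 := by simp [mul_assoc]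
    rw [t1, t2]; abel
  have h0 := eventually_eq_of_fderiv_eq_zero hΨ hd
  have hΨ0 : Ψ 0 = 0 := by simp [Ψ, h, m, logS_zero]
  rw [hΨ0] at h0
  obtain ⟨ε, hε, hh⟩ := Metric.eventually_nhds_iff.mp h0
  refine ⟨ε, hε, fun x y hx hy => ?_⟩
  have := hh (y := (x, y)) (by simp [Prod.norm_def, hx, hy])
  simp only [Ψ, h, m] at this
  rw [sub_sub, sub_eq_zero] at this
  exact this

end

end Pool.Agent.Lib.MP_dd16b7_nt
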