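import Mathlib
import Pool.Agent.Lib.MP_dd16b7_nt.RigidGroup
import Pool.Agent.Lib.MP_dd16b7_nt.TraceLog
import Pool.Agent.Lib.MP_dd16b7_nt.Nil

/-!
For a generic automorphism, the Lie algebra of the image of an irreducible representation of the
Weil group, restricted to the free pro-`p` group, is semisimple.
-/

namespace Pool.Agent.Lib.MP_dd16b7_nt

open NormedSpace Filter Topology Set

variable {p : ℕ} [hp : Fact p.Prime]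
variable {F : Type} [Group F]
variable {𝔸 : Type*} [NormedRing 𝔸] [NormedAlgebra ℚ_[p] 𝔸] [FiniteDimensional ℚ_[p] 𝔸]

attribute [local instance 100] LieRing.ofAssociativeRing

/-- A centreless Lie algebra normalised by an irreducible set is semisimple. -/
theorem Nil.isKilling {τ : 𝔸 →L[ℚ_[p]] ℚ_[p]} (hτ : ∀ a b, τ (a * b) = τ (b * a))
    {𝓑 : Subalgebra ℚ_[p] 𝔸} {S : Set 𝔸ˣ} (hN : Nil τ 𝓑 S) (hS : ∀ γ ∈ S, γ⁻¹ ∈ S)
    {g : LieSubalgebra ℚ_[p] 𝔸} (hgB : ∀ X ∈ g, X ∈ 𝓑)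
    (hgS : ∀ γ ∈ S, ∀ X ∈ g, (γ : 𝔸) * X * ((γ⁻¹ : 𝔸ˣ) : 𝔸) ∈ g)
    (hz : ∀ Z ∈ g, (∀ X ∈ g, X * Z = Z * X) → Z = 0) : LieAlgebra.IsKilling ℚ_[p] g := by
  suffices h : LieAlgebra.HasTrivialRadical ℚ_[p] g from inferInstance
  by_contra h
  obtain ⟨a, ha0, hab, hchar⟩ := exists_char_abelian h
  have hcomm : ∀ A ∈ a, ∀ B ∈ a, Commute (A : 𝔸) B := by
    intro A hA B hB
    have : ⁅(⟨A, hA⟩ : a), (⟨B, hB⟩ : a)⁆ = 0 := trivial_lie_zero _ _ _ _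
    have h2 : (A : 𝔸) * B - B * A = 0 := congrArg (fun y : a => ((y : g) : 𝔸)) this
    exact sub_eq_zero.mp h2
  have key := hN {u | ∃ X : g, ∃ A ∈ a, u = (X : 𝔸) * A - A * X} ?_ ?_ ?_
  · refine ha0 ((LieSubmodule.eq_bot_iff _).mpr fun A hA => Subtype.ext ?_)
    exact hz A A.2 fun X hX => sub_eq_zero.mp (key _ ⟨⟨X, hX⟩, A, hA, rfl⟩)
  · rintro _ ⟨X, A, -, rfl⟩
    exact 𝓑.sub_mem (𝓑.mul_mem (hgB _ X.2) (hgB _ A.2)) (𝓑.mul_mem (hgB _ A.2) (hgB _ X.2))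
  · rintro γ hγ _ ⟨X, A, hA, rfl⟩
    let e : g ≃ₗ⁅ℚ_[p]⁆ g :=
      { toFun := fun X => ⟨_, hgS γ hγ X X.2⟩
        invFun := fun X => ⟨_, hgS γ⁻¹ (hS γ hγ) X X.2⟩
        map_add' := fun a b => Subtype.ext (by simp [mul_add, add_mul])
        map_smul' := fun a b => Subtype.ext (by simp)
        map_lie' := fun {a b} => Subtype.ext (by
          simp [Ring.lie_def, mul_sub, sub_mul, mul_assoc])
        left_inv := fun X => Subtype.ext (by simp [mul_assoc])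
        right_inv := fun X => Subtype.ext (by simp [mul_assoc]) }
    refine ⟨e X, e A, hchar e A hA, ?_⟩
    show _ = ((γ : 𝔸) * X * ((γ⁻¹ : 𝔸ˣ) : 𝔸)) * ((γ : 𝔸) * A * ((γ⁻¹ : 𝔸ˣ) : 𝔸)) -
      ((γ : 𝔸) * A * ((γ⁻¹ : 𝔸ˣ) : 𝔸)) * ((γ : 𝔸) * X * ((γ⁻¹ : 𝔸ˣ) : 𝔸))
    simp [mul_sub, sub_mul, mul_assoc]
  · intro l hl hlU
    obtain ⟨u, l', rfl⟩ := List.exists_cons_of_ne_nil hl
    obtain ⟨X, A, hA, rfl⟩ := hlU u (by simp)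
    have hc : Commute (A : 𝔸) l'.prod := by
      refine Commute.list_prod_right _ _ fun y hy => ?_
      obtain ⟨X', A', hA', rfl⟩ := hlU y (by simp [hy])
      exact hcomm A hA ⁅X', A'⁆ (a.lie_mem hA')
    rw [List.prod_cons, sub_mul, map_sub, mul_assoc (A : 𝔸), hτ (A : 𝔸), mul_assoc, mul_assoc,
      hc.eq, sub_self]

variable [TopologicalSpace F] [IsTopologicalGroup F] [CompactSpace F]
  [TotallyDisconnectedSpace F] {d : ℕ} {x : Fin d → F}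

theorem IsFreeProP.isKilling [IsUltrametricDist 𝔸] (hF : IsFreeProP p x)
    {τ : 𝔸 →L[ℚ_[p]] ℚ_[p]} (hτ : ∀ a b, τ (a * b) = τ (b * a))
    {𝓑 : Subalgebra ℚ_[p] 𝔸} {S : Set 𝔸ˣ} (hN : Nil τ 𝓑 S) (hS : ∀ γ ∈ S, γ⁻¹ ∈ S)
    {ρ : F →* 𝔸} (hρ : Continuous ρ) (hρB : ∀ a, ρ a ∈ 𝓑) (hSB : ∀ γ ∈ S, (γ : 𝔸) ∈ 𝓑)
    (hSρ : ∀ γ ∈ S, ∃ ψ : F →* F, Continuous ψ ∧ ∀ a, ρ (ψ a) = γ * ρ a * ((γ⁻¹ : 𝔸ˣ) : 𝔸))
    {φ : F → F} {M : 𝔸ˣ} (hM : M ∈ S) (hφ : ∀ a, ρ (φ a) = M * ρ a * ((M⁻¹ : 𝔸ˣ) : 𝔸))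
    (hgen : ∀ (m : ℕ) (c : F → 𝔸), ContinuousOn c (level F m) →
      (∀ a ∈ level F m, ∀ b ∈ level F m, c (a * b) = c a + c b) →
      (∀ n ∈ level F m, c (φ n) = M * c n * ((M⁻¹ : 𝔸ˣ) : 𝔸)) → ∀ l : List 𝔸, l ≠ [] →
      (∀ u ∈ l, ∃ n ∈ level F m, u = c n) → τ l.prod = 0)
    {g : LieSubalgebra ℚ_[p] 𝔸} (hg : IsLie (range ρ) g) : LieAlgebra.IsKilling ℚ_[p] g := by
  have : CompleteSpace 𝔸 := FiniteDimensional.complete ℚ_[p] 𝔸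
  have hgB : ∀ X ∈ g, X ∈ 𝓑 := fun X hX =>
    mem_of_mem_lieSet 𝓑.toSubmodule 𝓑.toSubmodule.closed_of_finiteDimensional
      (by rintro _ ⟨a, rfl⟩; exact hρB a) ((hg X).mp hX)
  have hgS : ∀ γ ∈ S, ∀ X ∈ g, (γ : 𝔸) * X * ((γ⁻¹ : 𝔸ˣ) : 𝔸) ∈ g := by
    intro γ hγ X hX
    obtain ⟨ψ, -, hψ⟩ := hSρ γ hγ
    exact (hg _).mpr (conj_mem_lieSet (p := p) γ (Γ := range ρ)
      (by rintro _ ⟨a, rfl⟩; exact ⟨ψ a, hψ a⟩) ((hg X).mp hX))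
  refine hN.isKilling hτ hS hgB hgS ?_
  let c : Subalgebra ℚ_[p] 𝔸 := Subalgebra.centralizer ℚ_[p] (g : Set 𝔸) ⊓ 𝓑
  have hcS : ∀ γ ∈ S, ∀ u ∈ c, (γ : 𝔸) * u * ((γ⁻¹ : 𝔸ˣ) : 𝔸) ∈ c := by
    intro γ hγ u hu
    refine ⟨(Subalgebra.mem_centralizer_iff _).mpr fun X hX => ?_,
      𝓑.mul_mem (𝓑.mul_mem (hSB γ hγ) hu.2) (hSB _ (hS γ hγ))⟩
    have h1 := (Subalgebra.mem_centralizer_iff _).mp hu.1 _ (hgS γ⁻¹ (hS γ hγ) X hX)
    rw [inv_inv] at h1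
    calc X * (γ * u * ((γ⁻¹ : 𝔸ˣ) : 𝔸))
        = γ * (((γ⁻¹ : 𝔸ˣ) : 𝔸) * X * γ * u) * ((γ⁻¹ : 𝔸ˣ) : 𝔸) := by simp [mul_assoc]
      _ = _ := by rw [h1]; simp [mul_assoc]
  obtain ⟨π, hπ1, hπ2, hπ3, hπ4⟩ := hN.exists_proj hτ hS (c := c) inf_le_right hcS
  let 𝒵 : Subalgebra ℚ_[p] 𝔸 := Subalgebra.centralizer ℚ_[p] (c : Set 𝔸)
  have : FiniteDimensional ℚ_[p] 𝒵 := inferInstanceAs (FiniteDimensional ℚ_[p] 𝒵.toSubmodule)
  have : CompleteSpace 𝒵 := FiniteDimensional.complete ℚ_[p] 𝒵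
  let τ' : 𝒵 →L[ℚ_[p]] 𝔸 := LinearMap.toContinuousLinearMap (π.toLinearMap ∘ₗ 𝒵.val.toLinearMap)
  have hτ' : ∀ a b, τ' (a * b) = τ' (b * a) := by
    intro a b
    refine hπ3 _ _ (hπ1 _) fun y hy => ?_
    have hb : y * b = b * y := (Subalgebra.mem_centralizer_iff _).mp b.2 y hy
    show τ (π (b * a) * y) = τ (a * b * y)
    rw [hπ2 _ _ hy, mul_assoc, hτ, mul_assoc, mul_assoc, hb]
  obtain ⟨ε, hε, hlog⟩ := eventually_trace_logS_mul τ' hτ'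
  obtain ⟨m, hm⟩ := hg.exists_level_comm hρ
    (Metric.ball_mem_nhds (1 : 𝔸) (lt_min hε (lrad_pos (p := p))))
  let z : level F m → 𝒵 := fun n => ⟨ρ n - 1, 𝒵.sub_mem
    ((Subalgebra.mem_centralizer_iff _).mpr fun y hy => ((hm n n.2).2 y hy.1).symm) 𝒵.one_mem⟩
  have hzn : ∀ n, ‖z n‖ < min ε (lrad p) := fun n => by
    have := (hm n n.2).1
    rwa [Metric.mem_ball, dist_eq_norm] at this
  let c₀ : F → 𝔸 := fun n => π (logS p (ρ n - 1))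
  have hval : ∀ y : 𝒵, ‖y‖ ≤ lrad p → τ' (logS p y) = π (logS p (y : 𝔸)) := fun y hy =>
    congrArg π (map_logS 𝒵.val continuous_subtype_val hy)
  have hc₀ : ∀ n : level F m, c₀ n = τ' (logS p (z n)) := fun n =>
    (hval _ ((hzn n).le.trans (min_le_right _ _))).symm
  have hequiv : ∀ γ ∈ S, ∀ a a', ρ a' = γ * ρ a * ((γ⁻¹ : 𝔸ˣ) : 𝔸) →
      c₀ a' = γ * c₀ a * ((γ⁻¹ : 𝔸ˣ) : 𝔸) := by
    intro γ hγ a a' h
    simp only [c₀]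
    rw [← hπ4 γ hγ, ← logS_conj, h]
    simp [mul_sub, sub_mul]
  have hzero : ∀ n ∈ level F m, c₀ n = 0 := by
    have := hN (c₀ '' level F m) (by rintro _ ⟨n, -, rfl⟩; exact (hπ1 _).2) ?_ ?_
    · exact fun n hn => this _ ⟨n, hn, rfl⟩
    · rintro γ hγ _ ⟨n, hn, rfl⟩
      obtain ⟨ψ, hψc, hψ⟩ := hSρ γ hγ
      exact ⟨ψ n, map_mem_level ψ hψc hn, hequiv γ hγ _ _ (hψ n)⟩
    · intro l hl hlU
      refine hgen m c₀ ?_ (fun a ha b hb => ?_) (fun n _ => hequiv M hM _ _ (hφ n)) l hl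
        fun u hu => ?_
      · rw [continuousOn_iff_continuous_domRestrict]
        have : (level F m : Set F).domRestrict c₀ = (fun y => τ' (logS p y)) ∘ z := funext hc₀
        rw [this, continuous_iff_continuousAt]
        intro n
        have hzc : Continuous z := by
          refine Continuous.subtype_mk ?_ _
          fun_prop
        exact (hasFDerivAt_trace_logS τ' hτ'
          ((hzn n).le.trans (min_le_right _ _))).continuousAt.comp hzc.continuousAt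
      · rw [hc₀ ⟨a, ha⟩, hc₀ ⟨b, hb⟩, ← hlog _ _ ((hzn _).trans_le (min_le_left _ _))
          ((hzn _).trans_le (min_le_left _ _))]
        refine (hc₀ (⟨a, ha⟩ * ⟨b, hb⟩)).trans ?_
        congr 2
        refine Subtype.ext ?_
        show ρ (a * b) - 1 = ρ a - 1 + (ρ b - 1) + (ρ a - 1) * (ρ b - 1)
        rw [map_mul]
        noncomm_ring
      · obtain ⟨n, hn, rfl⟩ := hlU u hu
        exact ⟨n, hn, rfl⟩
  intro Z hZ hZc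
  have hZc' : Z ∈ c := ⟨(Subalgebra.mem_centralizer_iff _).mpr hZc, hgB Z hZ⟩
  rw [← hπ3 Z Z hZc' fun _ _ => rfl]
  let Z' : 𝒵 := ⟨Z, (Subalgebra.mem_centralizer_iff _).mpr fun y hy =>
    ((Subalgebra.mem_centralizer_iff _).mp hy.1 Z hZ).symm⟩
  have hd : HasDerivAt (fun t : ℚ_[p] => exp (t • Z') - 1) Z' 0 :=
    (hasDerivAt_exp_smul Z').sub_const 1
  have hd1 := hasFDerivAt_trace_logS τ' hτ' (x := 0) (by simpa using lrad_pos.le)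
  have hd2 := hd1.comp_hasDerivAt_of_eq (0 : ℚ_[p]) hd (by simp)
  have h0 := deriv_eq_zero_of_eventually_eq hd2 (c := 0) ?_
  · have h1 : τ' Z' = 0 := by simpa using h0
    exact h1
  obtain ⟨r, hr⟩ := exists_expBall p 𝒵
  have t0 : Tendsto (fun t : ℚ_[p] => exp (t • Z)) (𝓝 0) (𝓝 1) := by
    simpa using (hasDerivAt_exp_smul (p := p) Z).continuousAt.tendsto
  filter_upwards [(hg Z).mp hZ, eventually_norm_smul_lt (p := p) Z' hr.pos,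
    t0.eventually (eventually_mem_image hρ _ (hF.isOpen_level m))] with t h1 h2 h3
  obtain ⟨n, hn, hn'⟩ := h3 h1
  have : exp (t • Z') - 1 = z ⟨n, hn⟩ := by
    refine Subtype.ext ?_
    show 𝒵.val (exp (t • Z')) - 1 = ρ n - 1
    rw [map_exp_of_mem_ball 𝒵.val continuous_subtype_val _ (hr.mem _ h2), hn']
    rfl
  show τ' (logS p (exp (t • Z') - 1)) = 0
  rw [this, ← hc₀, hzero n hn]

end Pool.Agent.Lib.MP_dd16b7_nt
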