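import Mathlib
import Pool.Agent.Lib.MP_dd16b7_nt.Semisimple
import Pool.Agent.Lib.MP_dd16b7_nt.Apply

/-!
Cohomological rigidity for random Weil groups.
-/

namespace Pool.Agent.Lib.MP_dd16b7_nt

open MeasureTheory Filter Topology Set

variable {p : ℕ} [hp : Fact p.Prime]
variable {F : Type} [Group F] [TopologicalSpace F] [IsTopologicalGroup F] [CompactSpace F]
  [TotallyDisconnectedSpace F] {d : ℕ} {x : Fin d → F}

attribute [local instance 100] LieRing.ofAssociativeRing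

theorem IsFreeProP.ae_abstract {𝔸 : Type*} [NormedRing 𝔸] [NormedAlgebra ℚ_[p] 𝔸]
    [FiniteDimensional ℚ_[p] 𝔸] [IsUltrametricDist 𝔸] (hF : IsFreeProP p x)
    {τ : 𝔸 →L[ℚ_[p]] ℚ_[p]} (hτ : ∀ a b, τ (a * b) = τ (b * a))
    [MeasurableSpace (ContAut F)] [BorelSpace (ContAut F)]
    (μ : Measure (ContAut F)) [IsProbabilityMeasure μ] [μ.IsMulLeftInvariant] :
    ∀ᵐ φ ∂μ, ∀ (ρ : F →* 𝔸) (M : 𝔸ˣ) (𝓑 : Subalgebra ℚ_[p] 𝔸), Continuous ρ → (∀ a, ρ a ∈ 𝓑) →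
      (M : 𝔸) ∈ 𝓑 → ((M⁻¹ : 𝔸ˣ) : 𝔸) ∈ 𝓑 → (∀ a, ρ (φ.1 a) = M * ρ a * ((M⁻¹ : 𝔸ˣ) : 𝔸)) →
      Nil τ 𝓑 (range ρ.toHomUnits ∪ {M, M⁻¹}) → ∀ c : F → 𝔸, Continuous c → (∀ a, c a ∈ 𝓑) →
      IsCocycle (adAct p ρ) c → (∀ n ∈ ρ.ker, c (φ.1 n) = M * c n * ((M⁻¹ : 𝔸ˣ) : 𝔸)) →
      ∃ b ∈ 𝓑, ∀ a, c a = ρ a * b * ρ a⁻¹ - b := by
  obtain ⟨𝓡, h𝓡c, h𝓡1, h𝓡2⟩ := hF.exists_countable_rep (𝔸 := 𝔸)
  have hA := (ae_ball_iff h𝓡c).mpr fun ρ₀ (h : ρ₀ ∈ 𝓡) => hF.ae_cocycle hτ μ (h𝓡1 ρ₀ h).1 (by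
    obtain ⟨h1, g, hg, hk⟩ := h𝓡1 ρ₀ h
    exact h1Vanish_ker h1 hg)
  have hB := ae_all_iff.mpr fun m => hF.ae_hom hτ μ m
  filter_upwards [hA, hB] with φ hA hB ρ M 𝓑 hρ hρB hMB hMB' hφ hN c hc hcB hcoc hcM
  set S : Set 𝔸ˣ := range ρ.toHomUnits ∪ {M, M⁻¹} with hSdef
  have hφ' : ∀ a, ρ (φ.1.symm a) = ((M⁻¹ : 𝔸ˣ) : 𝔸) * ρ a * ((M⁻¹⁻¹ : 𝔸ˣ) : 𝔸) := by
    intro a
    have := hφ (φ.1.symm a)
    rw [MulEquiv.apply_symm_apply] at this
    rw [this]
    simp [mul_assoc]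
  have hS : ∀ γ ∈ S, γ⁻¹ ∈ S := by
    rintro γ (⟨a, rfl⟩ | rfl | rfl)
    · exact Or.inl ⟨a⁻¹, map_inv _ _⟩
    · exact Or.inr (Or.inr rfl)
    · exact Or.inr (Or.inl (inv_inv _))
  have hSB : ∀ γ ∈ S, (γ : 𝔸) ∈ 𝓑 := by
    rintro γ (⟨a, rfl⟩ | rfl | rfl)
    exacts [hρB a, hMB, hMB']
  have hSρ : ∀ γ ∈ S, ∃ ψ : F →* F, Continuous ψ ∧
      ∀ a, ρ (ψ a) = γ * ρ a * ((γ⁻¹ : 𝔸ˣ) : 𝔸) := by
    rintro γ (⟨a, rfl⟩ | rfl | rfl)
    · refine ⟨(MulAut.conj a).toMonoidHom, ?_, fun b => ?_⟩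
      · show Continuous fun b => a * b * a⁻¹
        fun_prop
      · show ρ (a * b * a⁻¹) = _
        rw [map_mul, map_mul]
        rfl
    · exact ⟨φ.1.toMonoidHom, φ.2.1, hφ⟩
    · exact ⟨φ.1.symm.toMonoidHom, φ.2.2, hφ'⟩
  obtain ⟨g, hg⟩ := exists_isLie (p := p) (Γ := MonoidHom.mrange ρ) (isClosed_mrange hρ)
  have hk := hF.isKilling hτ hN hS hρ hρB hSB hSρ (φ := φ.1) (Or.inr (Or.inl rfl)) hφ
    (fun m c h1 h2 => hB m c h1 h2 M) hg
  obtain ⟨ρ₀, hρ₀, α, b, hb⟩ := h𝓡2 ρ hρ g hg hk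
  have hzero : ∀ n ∈ ρ.ker, c n = 0 := by
    have := hN (c '' ρ.ker) (by rintro _ ⟨n, -, rfl⟩; exact hcB n) ?_ ?_
    · exact fun n hn => this _ ⟨n, hn, rfl⟩
    · rintro γ (⟨a, rfl⟩ | rfl | rfl) _ ⟨n, hn, rfl⟩
      · exact ⟨a * n * a⁻¹, (inferInstance : ρ.ker.Normal).conj_mem n hn a,
          hcoc.conj a (adAct_ker ρ hn)⟩
      · refine ⟨φ.1 n, ?_, hcM n hn⟩
        rw [SetLike.mem_coe, MonoidHom.mem_ker, hφ, MonoidHom.mem_ker.mp hn]
        simp
      · have hn' : φ.1.symm n ∈ ρ.ker := by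
          rw [MonoidHom.mem_ker, hφ', MonoidHom.mem_ker.mp hn]
          simp
        refine ⟨φ.1.symm n, hn', ?_⟩
        have := hcM _ hn'
        rw [MulEquiv.apply_symm_apply] at this
        rw [this]
        simp [mul_assoc]
    · intro l hl hlU
      refine hA ρ₀ hρ₀ ρ α b hb M hφ c hc hcoc hcM l hl fun u hu => ?_
      obtain ⟨n, hn, rfl⟩ := hlU u hu
      exact ⟨n, hn, rfl⟩
  obtain ⟨b₀, hb₀⟩ := (h1Vanish_ker hρ hg).exists_eq (continuous_adAct hρ)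
    (fun n hn => adAct_ker ρ hn) hc hcoc hzero
  obtain ⟨π, hπ1, -, hπ3, hπ4⟩ := hN.exists_proj hτ hS le_rfl fun γ hγ u hu =>
    𝓑.mul_mem (𝓑.mul_mem (hSB γ hγ) hu) (hSB _ (hS γ hγ))
  refine ⟨π b₀, hπ1 _, fun a => ?_⟩
  rw [← hπ3 (c a) (c a) (hcB a) fun _ _ => rfl, hb₀, map_sub]
  congr 1
  exact hπ4 (ρ.toHomUnits a) (Or.inl ⟨a, rfl⟩) b₀

instance isUltrametricDist_clm (N : ℕ) :
    IsUltrametricDist ((Fin N → ℚ_[p]) →L[ℚ_[p]] (Fin N → ℚ_[p])) := by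
  refine IsUltrametricDist.isUltrametricDist_of_forall_norm_add_le_max_norm fun f g => ?_
  refine ContinuousLinearMap.opNorm_le_bound _ (by positivity) fun v => ?_
  refine (IsUltrametricDist.norm_add_le_max _ _).trans (max_le ?_ ?_)
  · exact (f.le_opNorm v).trans (by gcongr; exact le_max_left _ _)
  · exact (g.le_opNorm v).trans (by gcongr; exact le_max_right _ _)

variable (p) in
/-- The trace on the operator algebra. -/
noncomputable def trCLM (N : ℕ) :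
    ((Fin N → ℚ_[p]) →L[ℚ_[p]] (Fin N → ℚ_[p])) →L[ℚ_[p]] ℚ_[p] :=
  LinearMap.toContinuousLinearMap
    (LinearMap.trace ℚ_[p] (Fin N → ℚ_[p]) ∘ₗ ContinuousLinearMap.coeLM ℚ_[p])

theorem trCLM_apply (N : ℕ) (f : (Fin N → ℚ_[p]) →L[ℚ_[p]] (Fin N → ℚ_[p])) :
    trCLM p N f = LinearMap.trace ℚ_[p] (Fin N → ℚ_[p]) f.toLinearMap := rfl

theorem trCLM_comm (N : ℕ) (f g : (Fin N → ℚ_[p]) →L[ℚ_[p]] (Fin N → ℚ_[p])) :
    trCLM p N (f * g) = trCLM p N (g * f) :=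
  LinearMap.trace_mul_comm ℚ_[p] f.toLinearMap g.toLinearMap

open Matrix in
theorem IsFreeProP.ae_rigid (hF : IsFreeProP p x)
    [MeasurableSpace (ContAut F)] [BorelSpace (ContAut F)]
    (μ : Measure (ContAut F)) [IsProbabilityMeasure μ] [μ.IsMulLeftInvariant] :
    ∀ᵐ φ ∂μ, ∀ (L : Type) [Field L] [Algebra ℚ_[p] L] [FiniteDimensional ℚ_[p] L]
      [TopologicalSpace L] [IsModuleTopology ℚ_[p] L] (n : ℕ), 1 ≤ n →
      ∀ ρ : Weil φ →* Matrix (Fin n) (Fin n) L,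
      (Continuous fun a : F => ρ (SemidirectProduct.inl a)) →
      (∀ U : Submodule L (Fin n → L), (∀ w, ∀ v ∈ U, ρ w *ᵥ v ∈ U) → U = ⊥ ∨ U = ⊤) →
      ∀ c : F → Matrix (Fin n) (Fin n) L, Continuous c →
      (∀ a b, c (a * b) =
        c a + ρ (SemidirectProduct.inl a) * c b * ρ (SemidirectProduct.inl a)⁻¹) →
      (∀ a, ρ (SemidirectProduct.inl a) = 1 →
        c (φ.1 a) = ρ (SemidirectProduct.inr (Multiplicative.ofAdd 1)) * c a *
          ρ (SemidirectProduct.inr (Multiplicative.ofAdd 1))⁻¹) →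
      ∃ b, ∀ a, c a = ρ (SemidirectProduct.inl a) * b * ρ (SemidirectProduct.inl a)⁻¹ - b := by
  have hN := ae_all_iff.mpr fun N : ℕ => hF.ae_abstract (trCLM_comm (p := p) N) μ
  filter_upwards [hN] with φ hφ L _ _ _ _ _ n hn ρ hρ hirr c hc hcoc hinv
  let N := Module.finrank ℚ_[p] (Fin n → L)
  let e : (Fin n → L) ≃ₗ[ℚ_[p]] (Fin N → ℚ_[p]) := (Module.finBasis ℚ_[p] (Fin n → L)).equivFun
  let ι : Matrix (Fin n) (Fin n) L →ₐ[ℚ_[p]] ((Fin N → ℚ_[p]) →L[ℚ_[p]] (Fin N → ℚ_[p])) :=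
    { toFun := fun A => LinearMap.toContinuousLinearMap
        (e.toLinearMap ∘ₗ (Matrix.toLin' A).restrictScalars ℚ_[p] ∘ₗ e.symm.toLinearMap)
      map_one' := by ext1 v; simp
      map_mul' := fun A B => by ext1 v; simp
      map_zero' := by ext1 v; simp
      map_add' := fun A B => by ext1 v; simp
      commutes' := fun r => by
        ext1 v
        simp [Algebra.algebraMap_eq_smul_one, smul_mulVec] }
  have hι : ∀ A v, ι A (e v) = e (A *ᵥ v) := fun A v => by simp [ι]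
  have hinj : Function.Injective ι := by
    rw [injective_iff_map_eq_zero]
    intro A hA
    refine Matrix.toLin'.injective (LinearMap.ext fun v => e.injective ?_)
    rw [toLin'_apply, ← hι, hA]
    simp
  have : IsModuleTopology ℚ_[p] (Matrix (Fin n) (Fin n) L) :=
    inferInstanceAs (IsModuleTopology ℚ_[p] (Fin n → Fin n → L))
  have hιc : Continuous ι := IsModuleTopology.continuous_of_linearMap ι.toLinearMap
  let R := ι.toMonoidHom.comp ρ
  let t : Weil φ := SemidirectProduct.inr (Multiplicative.ofAdd 1)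
  let ρ' := R.comp SemidirectProduct.inl
  let M := R.toHomUnits t
  have ht : ∀ a : F,
      (SemidirectProduct.inl (φ.1 a) : Weil φ) = t * SemidirectProduct.inl a * t⁻¹ := by
    intro a
    have := SemidirectProduct.inl_aut (φ := zpowersHom (MulAut F) φ.1) (Multiplicative.ofAdd 1) a
    simpa [t] using this
  obtain ⟨b, ⟨b', rfl⟩, hb⟩ := hφ N ρ' M ι.range (hιc.comp hρ) (fun a => ⟨_, rfl⟩) ⟨_, rfl⟩ ⟨_, rfl⟩
    (fun a => by
      show R (SemidirectProduct.inl (φ.1 a)) = R t * R (SemidirectProduct.inl a) * R t⁻¹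
      rw [ht, map_mul, map_mul])
    (by
      intro U hU hS htr
      have : Nonempty (Fin n) := ⟨⟨0, hn⟩⟩
      have : Nontrivial (Fin N → ℚ_[p]) := e.symm.toEquiv.nontrivial
      obtain ⟨v, hv0, hv⟩ := exists_common_ker
        ((fun f : (Fin N → ℚ_[p]) →L[ℚ_[p]] (Fin N → ℚ_[p]) => f.toLinearMap) '' U) (by
          intro l hl hlU
          obtain ⟨l', rfl, hl'⟩ : ∃ l' : List ((Fin N → ℚ_[p]) →L[ℚ_[p]] (Fin N → ℚ_[p])),
              l = l'.map ContinuousLinearMap.toLinearMapRingHom ∧ ∀ u ∈ l', u ∈ U := by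
            refine ⟨l.map LinearMap.toContinuousLinearMap, by simp [Function.comp_def], ?_⟩
            intro u hu
            obtain ⟨u', hu', rfl⟩ := List.mem_map.mp hu
            obtain ⟨w, hw, rfl⟩ := hlU u' hu'
            exact hw
          rw [← map_list_prod]
          exact htr l' (by simpa using hl) hl')
      let V₀ : Submodule L (Fin n → L) :=
        ⨅ A : {A : Matrix (Fin n) (Fin n) L // ι A ∈ U}, LinearMap.ker (Matrix.toLin' A.1)
      have hV₀ : ∀ v, v ∈ V₀ ↔ ∀ A, ι A ∈ U → A *ᵥ v = 0 := fun v => by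
        simp [V₀, Submodule.mem_iInf]
      have hstep : ∀ w : Weil φ, R.toHomUnits w⁻¹ ∈ range ρ'.toHomUnits ∪ {M, M⁻¹} →
          ∀ v ∈ V₀, ρ w *ᵥ v ∈ V₀ := by
        intro w hw v hv
        rw [hV₀] at hv ⊢
        intro A hA
        have h1 : ι (ρ w⁻¹ * A * ρ w) ∈ U := by
          have := hS _ hw _ hA
          rw [← map_inv, inv_inv] at this
          rw [map_mul, map_mul]
          exact this
        have h2 := congrArg (fun y => ρ w *ᵥ y) (hv _ h1)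
        simpa [← mul_assoc, ← map_mul] using h2
      have hall : ∀ w : Weil φ, ∀ v ∈ V₀, ρ w *ᵥ v ∈ V₀ := by
        have hz : ∀ k : ℤ, ∀ v ∈ V₀, ρ (t ^ k) *ᵥ v ∈ V₀ := by
          intro k
          induction k using Int.induction_on with
          | zero => simp
          | succ k ih =>
            intro v hv
            rw [_root_.zpow_add_one, map_mul, ← mulVec_mulVec]
            exact ih _ (hstep t (Or.inr (Or.inr (map_inv _ _))) v hv)
          | pred k ih =>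
            intro v hv
            rw [_root_.zpow_sub_one, map_mul, ← mulVec_mulVec]
            exact ih _ (hstep t⁻¹ (Or.inr (Or.inl (by rw [inv_inv]))) v hv)
        intro w v hv
        have : w = SemidirectProduct.inl w.left * t ^ w.right.toAdd := by
          rw [← map_zpow, ← ofAdd_zsmul]
          simp
        rw [this, map_mul, ← mulVec_mulVec]
        exact hstep _ (Or.inl ⟨w.left⁻¹, by rw [map_inv, map_inv]; rfl⟩) _ (hz _ v hv)
      have htop : V₀ = ⊤ := by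
        refine (hirr V₀ hall).resolve_left fun h => hv0 ?_
        have : e.symm v ∈ V₀ := by
          rw [hV₀]
          intro A hA
          refine e.injective ?_
          rw [← hι, map_zero, e.apply_symm_apply]
          exact hv _ ⟨_, hA, rfl⟩
        rw [h, Submodule.mem_bot] at this
        simpa using this
      intro u hu
      obtain ⟨A, rfl⟩ := hU hu
      have : A = 0 := Matrix.toLin'.injective (LinearMap.ext fun v => by
        simpa using (hV₀ v).mp (by rw [htop]; trivial) A hu)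
      rw [this]
      exact map_zero ι)
    (fun a => ι (c a)) (hιc.comp hc) (fun a => ⟨_, rfl⟩)
    (fun a b => by
      beta_reduce
      rw [hcoc, map_add, map_mul, map_mul, adAct_apply, ← map_inv]
      rfl)
    (fun a ha => by
      rw [hinv a (hinj (by rw [map_one]; exact ha)), map_mul, map_mul]
      rfl)
  refine ⟨b', fun a => hinj ?_⟩
  rw [map_sub, map_mul, map_mul, ← map_inv]
  exact hb a

end Pool.Agent.Lib.MP_dd16b7_nt
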