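import Mathlib
import Pool.Agent.Lib.MP_dd16b7_nt.Apply

/-!
For almost every automorphism `φ` of a free pro-`p` group, no conjugate of `φ` satisfies a given
polynomial relation on a nonzero multilinear form in the values of a given cocycle.
-/

namespace Pool.Agent.Lib.MP_dd16b7_nt

open Filter Topology Set MeasureTheory Polynomial

theorem card_le_of_aeval_smul {K V : Type*} [Field K] [AddCommGroup V] [Module K V]
    [FiniteDimensional K V] (A : Module.End K V) {f : K[X]} (hf : f.coeff 0 ≠ 0) (W : Finset K)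
    (hW : ∀ w ∈ W, ∃ v, v ≠ 0 ∧ aeval (w • A) f v = 0) :
    W.card ≤ f.natDegree * Module.finrank K V := by
  classical
  let K' := AlgebraicClosure K
  have hf0 : f ≠ 0 := fun h => hf (by simp [h])
  have hχ0 : A.charpoly ≠ 0 := A.charpoly_monic.ne_zero
  have key : ∀ w ∈ W, ∃ z ∈ (f.aroots K').toFinset ×ˢ (A.charpoly.aroots K').toFinset,
      z.1 / z.2 = algebraMap K K' w := by
    intro w hw
    obtain ⟨v, hv0, hv⟩ := hW w hw
    have h1 : ¬ IsCoprime (f.comp (C w * X)) A.charpoly := by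
      rintro ⟨a, b, hab⟩
      have h2 := congrArg (fun q => aeval A q v) hab
      have h3 : aeval A (f.comp (C w * X)) = aeval (w • A) f := by
        rw [aeval_comp]; simp [Algebra.smul_def]
      simp only [map_add, map_mul, LinearMap.aeval_self_charpoly, mul_zero, add_zero, h3,
        Module.End.mul_apply, hv, map_zero, map_one, Module.End.one_apply] at h2
      exact hv0 h2.symm
    rw [isCoprime_iff_aeval_ne_zero_of_isAlgClosed K K'] at h1
    push Not at h1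
    obtain ⟨l, h2, h3⟩ := h1
    rw [aeval_comp] at h2
    simp only [map_mul, aeval_C, aeval_X] at h2
    have hl : l ≠ 0 := by
      rintro rfl
      rw [mul_zero, ← coeff_zero_eq_aeval_zero', map_eq_zero] at h2
      exact hf h2
    refine ⟨(algebraMap K K' w * l, l), Finset.mem_product.mpr ⟨?_, ?_⟩,
      mul_div_cancel_right₀ _ hl⟩
    · exact Multiset.mem_toFinset.mpr (mem_aroots.mpr ⟨hf0, h2⟩)
    · exact Multiset.mem_toFinset.mpr (mem_aroots.mpr ⟨hχ0, h3⟩)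
  choose! z hz hz' using key
  refine (Finset.card_le_card_of_injOn z (fun w hw => hz w hw) fun w hw w' hw' h => ?_).trans ?_
  · exact (algebraMap K K').injective (by rw [← hz' w hw, ← hz' w' hw', h])
  · rw [Finset.card_product, ← A.charpoly_natDegree]
    refine Nat.mul_le_mul ((Multiset.toFinset_card_le _).trans ?_)
      ((Multiset.toFinset_card_le _).trans ?_)
    · exact (card_roots' _).trans natDegree_map_le
    · exact (card_roots' _).trans natDegree_map_le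

variable {p : ℕ} [hp : Fact p.Prime]
variable {F : Type} [Group F] [TopologicalSpace F]
variable {E : Type*} [NormedAddCommGroup E] [NormedSpace ℚ_[p] E]

variable (p) in
/-- The bad set attached to a polynomial relation. -/
def badA (N : Subgroup F) (C : F → E) (k : ℕ) (f : ℚ_[p][X]) : Set (ContAut F) :=
  {φ | φ ∈ stabC p N C ∧ ∃ Λ : MultilinearMap ℚ_[p] (fun _ : Fin k => E) ℚ_[p],
    (∃ n : Fin k → F, (∀ j, n j ∈ N) ∧ Λ (fun j => C (n j)) ≠ 0) ∧
    ∀ n : Fin k → F, (∀ j, n j ∈ N) →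
      ∑ i ∈ Finset.range (f.natDegree + 1), f.coeff i * Λ (fun j => C ((φ ^ i).1 (n j))) = 0}

theorem conj_mem_badA {N : Subgroup F} {C : F → E} {k : ℕ} {f : ℚ_[p][X]} {s φ : ContAut F}
    (hs : s ∈ stabC p N C) (hφ : φ ∈ badA p N C k f) : s * φ * s⁻¹ ∈ badA p N C k f := by
  obtain ⟨hφS, Λ, ⟨n₀, hn₀, hne⟩, hΛ⟩ := hφ
  have hS := (stabC p N C).mul_mem ((stabC p N C).mul_mem hs hφS) ((stabC p N C).inv_mem hs)
  have hsi := ((stabC p N C).inv_mem hs).1
  obtain ⟨h1, -, L', hL'⟩ := hs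
  refine ⟨hS, Λ.compLinearMap fun _ => L', ⟨fun j => s.1 (n₀ j), fun j => (h1 _).mp (hn₀ j), ?_⟩,
    fun n hn => ?_⟩
  · rw [MultilinearMap.compLinearMap_apply]
    have : ∀ j, L' (C (s.1 (n₀ j))) = C (n₀ j) := fun j => by
      rw [← hL' _ ((h1 _).mp (hn₀ j))]; simp
    simpa only [this] using hne
  · have e1 : ∀ (i : ℕ) j, L' (C (((s * φ * s⁻¹) ^ i).1 (n j))) =
        C ((φ ^ i).1 ((s⁻¹).1 (n j))) := fun i j => by
      rw [← hL' _ ((((stabC p N C).pow_mem hS i).1 _).mp (hn j)), conj_pow]; simp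
    simp only [MultilinearMap.compLinearMap_apply, e1]
    exact hΛ _ fun j => (hsi _).mp (hn j)

variable [IsTopologicalGroup F] [CompactSpace F] [TotallyDisconnectedSpace F] {d : ℕ}
  {x : Fin d → F}

theorem IsFreeProP.measure_badA (hF : IsFreeProP p x) [FiniteDimensional ℚ_[p] E]
    {N : Subgroup F} [N.Normal] (hNc : IsClosed (N : Set F)) (hN : H1Vanish p N)
    {σ : F →* (E →L[ℚ_[p]] E)} (hσ : Continuous σ) (h1 : ∀ n ∈ N, σ n = 1) {C : F → E}
    (hC : Continuous C) (hcoc : IsCocycle σ C) {k : ℕ} (hk : k ≠ 0) {f : ℚ_[p][X]}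
    (hf : f.coeff 0 ≠ 0)
    [MeasurableSpace (ContAut F)] [BorelSpace (ContAut F)] (μ : Measure (ContAut F))
    [IsProbabilityMeasure μ] [μ.IsMulLeftInvariant] :
    μ {φ | ∃ α, α⁻¹ * φ * α ∈ badA p N C k f} = 0 := by
  classical
  have := hF.compactSpace_aut
  have := hF.isTopologicalGroup_aut
  obtain ⟨j₀, hj₀⟩ := hF.exists_scaling hNc hN hσ h1 hC hcoc
  choose ψ hψN hψ using fun i : ℕ => hj₀ (j₀ + i) (Nat.le_add_right _ _)
  let u : ℕ → ℚ_[p] := fun i => 1 + (p : ℚ_[p]) ^ (j₀ + i + 1)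
  have hu : ∀ i, u i = ((1 + p ^ (j₀ + i + 1) : ℕ) : ℚ_[p]) := fun i => by simp [u]
  have hu0 : ∀ i, u i ≠ 0 := fun i => by
    rw [hu]; exact_mod_cast (by positivity : 1 + p ^ (j₀ + i + 1) ≠ 0)
  have huinj : Function.Injective fun i => u i ^ k := by
    intro i i' h
    simp only [hu] at h
    have h2 : (1 + p ^ (j₀ + i + 1)) ^ k = (1 + p ^ (j₀ + i' + 1)) ^ k := by exact_mod_cast h
    have h3 := Nat.pow_left_injective hk h2
    have h4 := Nat.pow_right_injective hp.out.two_le (Nat.add_left_cancel h3)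
    omega
  have hψS : ∀ i, ψ i ∈ stabC p N C := by
    intro i
    refine ⟨hψN i, ⟨u i • LinearMap.id, fun n hn => hψ i n hn⟩,
      ⟨(u i)⁻¹ • LinearMap.id, fun n hn => ?_⟩⟩
    have h2 := hψ i (((ψ i)⁻¹).1 n) ((hψN i _).mpr (by simpa using hn))
    have h3 : (ψ i).1 (((ψ i)⁻¹).1 n) = n := by simp
    rw [h3] at h2
    rw [h2]
    show _ = (u i)⁻¹ • u i • C (((ψ i)⁻¹).1 n)
    rw [smul_smul, inv_mul_cancel₀ (hu0 i), one_smul]
  let res : MultilinearMap ℚ_[p] (fun _ : Fin k => E) ℚ_[p] →ₗ[ℚ_[p]] ((Fin k → N) → ℚ_[p]) :=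
    { toFun := fun Λ n => Λ fun j => C (n j)
      map_add' := fun _ _ => rfl
      map_smul' := fun _ _ => rfl }
  let T := LinearMap.range res
  let b := Module.finBasis ℚ_[p] T
  choose Λ hΛ using fun l => (b l).2
  let comb : (Fin (Module.finrank ℚ_[p] T) → ℚ_[p]) →
      MultilinearMap ℚ_[p] (fun _ : Fin k => E) ℚ_[p] := fun a => ∑ l, a l • Λ l
  have hcomb : ∀ a v, comb a v = ∑ l, a l * Λ l v := fun a v => by simp [comb]
  have hres : ∀ a, res (comb a) = (b.equivFun.symm a : T) := by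
    intro a
    simp [comb, hΛ, Module.Basis.equivFun_symm_apply]
  obtain ⟨c, hc⟩ := NormedField.exists_one_lt_norm ℚ_[p]
  let K : Set (Fin (Module.finrank ℚ_[p] T) → ℚ_[p]) := {a | 1 / ‖c‖ ≤ ‖a‖ ∧ ‖a‖ ≤ 1}
  have hK : IsCompact K := by
    refine (isCompact_closedBall (0 : Fin (Module.finrank ℚ_[p] T) → ℚ_[p]) 1).of_isClosed_subset
      ((isClosed_le continuous_const continuous_norm).inter
        (isClosed_le continuous_norm continuous_const)) fun a ha => ?_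
    simpa using ha.2
  let B' : Set (ContAut F) := {φ | ((∀ a ∈ N, φ.1 a ∈ N) ∧
    ∀ l, (fun n : Fin k → N => Λ l fun j => C (φ.1 (n j))) ∈ T) ∧ ∃ a ∈ K, ∀ n : Fin k → N,
    ∑ i ∈ Finset.range (f.natDegree + 1), f.coeff i * comb a (fun j => C ((φ ^ i).1 (n j))) = 0}
  have hB' : IsClosed B' := by
    have c1 : IsClosed {φ : ContAut F | ∀ a ∈ N, φ.1 a ∈ N} := by
      simp only [ofPred_forall]
      exact isClosed_iInter fun a => isClosed_iInter fun _ =>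
        hNc.preimage (continuous_aut_eval_const a)
    have c1' : IsClosed {φ : ContAut F |
        ∀ l, (fun n : Fin k → N => Λ l fun j => C (φ.1 (n j))) ∈ T} := by
      simp only [ofPred_forall]
      exact isClosed_iInter fun l => T.closed_of_finiteDimensional.preimage
        (continuous_pi fun n => (continuous_multilinear _).comp (continuous_pi fun j =>
          hC.comp (continuous_aut_eval_const _)))
    have : CompactSpace K := isCompact_iff_compactSpace.mp hK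
    have c2 : IsClosed {z : ContAut F × K | ∀ n : Fin k → N,
        ∑ i ∈ Finset.range (f.natDegree + 1),
          f.coeff i * comb z.2 (fun j => C ((z.1 ^ i).1 (n j))) = 0} := by
      simp only [ofPred_forall, hcomb]
      refine isClosed_iInter fun n => isClosed_eq ?_ continuous_const
      refine continuous_finsetSum _ fun i _ => continuous_const.mul ?_
      refine continuous_finsetSum _ fun l _ => Continuous.mul
        ((continuous_apply l).comp (continuous_subtype_val.comp continuous_snd)) ?_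
      exact (continuous_multilinear _).comp (continuous_pi fun j =>
        hC.comp ((continuous_aut_eval_const _).comp (continuous_fst.pow i)))
    have c3 := isClosedMap_fst_of_compactSpace _ c2
    have c4 : B' = ({φ : ContAut F | ∀ a ∈ N, φ.1 a ∈ N} ∩ {φ : ContAut F |
        ∀ l, (fun n : Fin k → N => Λ l fun j => C (φ.1 (n j))) ∈ T}) ∩
        Prod.fst '' {z : ContAut F × K | ∀ n : Fin k → N,
        ∑ i ∈ Finset.range (f.natDegree + 1),
          f.coeff i * comb z.2 (fun j => C ((z.1 ^ i).1 (n j))) = 0} := by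
      ext φ
      constructor
      · rintro ⟨h2, a, ha, h3⟩
        exact ⟨h2, (φ, ⟨a, ha⟩), h3, rfl⟩
      · rintro ⟨h2, ⟨φ', a⟩, h3, rfl⟩
        exact ⟨h2, a, a.2, h3⟩
    rw [c4]
    exact (c1.inter c1').inter c3
  refine measure_conj_eq_zero μ (stabC p N C) (B' := B') (fun b hb => hb.1)
    (fun s hs b hb => conj_mem_badA hs hb) ?_ hB' ψ hψS
    (f.natDegree * Module.finrank ℚ_[p] T) ?_
  · rintro φ ⟨hφS, Λ₀, ⟨n₀, hn₀, hne⟩, hΛ₀⟩
    refine ⟨⟨fun a ha => (hφS.1 a).mp ha, fun l => ?_⟩, ?_⟩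
    · obtain ⟨L, hL⟩ := hφS.2.1
      refine ⟨(Λ l).compLinearMap fun _ => L, funext fun n => ?_⟩
      show Λ l (fun j => L (C (n j))) = _
      simp only [← hL _ (n _).2]
    let τ : T := ⟨res Λ₀, Λ₀, rfl⟩
    have hτ : b.equivFun τ ≠ 0 := by
      rw [Ne, LinearEquiv.map_eq_zero_iff]
      intro h
      exact hne (congrFun (congrArg Subtype.val h) fun j => ⟨n₀ j, hn₀ j⟩)
    obtain ⟨t, -, ht1, ht2, -⟩ := rescale_to_shell hc one_pos hτ
    refine ⟨t • b.equivFun τ, ⟨ht2, ht1.le⟩, fun n => ?_⟩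
    have h2 : res (comb (t • b.equivFun τ)) = t • res Λ₀ := by
      rw [hres, map_smul, LinearEquiv.symm_apply_apply]; rfl
    have h4 : ∀ i : ℕ, comb (t • b.equivFun τ) (fun j => C ((φ ^ i).1 (n j))) =
        t * Λ₀ (fun j => C ((φ ^ i).1 (n j))) := fun i =>
      congrFun h2 fun j => ⟨(φ ^ i).1 (n j), (((stabC p N C).pow_mem hφS i).1 _).mp (n j).2⟩
    have h5 := congrArg (t * ·) (hΛ₀ (fun j => n j) fun j => (n j).2)
    simp only [Finset.mul_sum, mul_zero] at h5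
    rw [← h5]
    refine Finset.sum_congr rfl fun i _ => ?_
    rw [h4]; ring
  · intro s I hI
    rcases I.eq_empty_or_nonempty with rfl | ⟨i₀, hi₀⟩
    · simp
    let 𝒮 : ∀ φ : ContAut F, (∀ a ∈ N, φ.1 a ∈ N) → Module.End ℚ_[p] ((Fin k → N) → ℚ_[p]) :=
      fun φ h => LinearMap.funLeft ℚ_[p] ℚ_[p] fun n j => ⟨φ.1 (n j), h _ (n j).2⟩
    have hs : ∀ i a, s.1 a = (s * (ψ i)⁻¹).1 ((ψ i).1 a) := fun i a => by simp
    have hsN : ∀ a ∈ N, s.1 a ∈ N := fun a ha => by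
      rw [hs i₀]; exact (hI i₀ hi₀).1.1 _ ((hψN i₀ a).mp ha)
    have hT : ∀ i (hi : i ∈ I), ∀ g ∈ T, 𝒮 _ (hI i hi).1.1 g ∈ T := by
      intro i hi g hg
      have h2 : g = ∑ l, b.repr ⟨g, hg⟩ l • (b l : (Fin k → N) → ℚ_[p]) := by
        have := congrArg T.subtype (b.sum_repr ⟨g, hg⟩)
        rw [map_sum] at this
        simpa using this.symm
      rw [h2, map_sum]
      refine T.sum_mem fun l _ => ?_
      rw [map_smul, ← hΛ]
      exact T.smul_mem _ ((hI i hi).1.2 l)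
    have hrel : ∀ i (hi : i ∈ I), ∀ g ∈ T, 𝒮 s hsN g = u i ^ k • 𝒮 _ (hI i hi).1.1 g := by
      intro i hi g hg
      obtain ⟨Λ', hΛ'⟩ := hT i hi g hg
      ext n
      have h2 := congrFun hΛ' fun j => ⟨(ψ i).1 (n j), (hψN i _).mp (n j).2⟩
      have h3 : ∀ j, C ((ψ i).1 (n j)) = u i • C (n j) := fun j => hψ i _ (n j).2
      have h4 : 𝒮 s hsN g n = Λ' fun j => C ((ψ i).1 (n j)) := by
        refine Eq.trans ?_ h2.symm
        show g _ = g _
        congr 1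
        funext j
        exact Subtype.ext (hs i _)
      rw [h4, ← hΛ']
      simp only [h3]
      rw [MultilinearMap.map_smul_univ]
      simp [res]
    have hsT : ∀ g ∈ T, 𝒮 s hsN g ∈ T := fun g hg => by
      rw [hrel i₀ hi₀ g hg]; exact T.smul_mem _ (hT i₀ hi₀ g hg)
    let A : Module.End ℚ_[p] T := (𝒮 s hsN).restrict hsT
    rw [← Finset.card_image_of_injective I (inv_injective.comp huinj)]
    refine card_le_of_aeval_smul A hf _ fun w hw => ?_
    obtain ⟨i, hi, rfl⟩ := Finset.mem_image.mp hw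
    obtain ⟨a, ha, ha'⟩ := (hI i hi).2
    have hNi : ∀ j : ℕ, ∀ y ∈ N, ((s * (ψ i)⁻¹) ^ j).1 y ∈ N := by
      intro j
      induction j with
      | zero => intro y hy; simpa using hy
      | succ j ih =>
        intro y hy
        rw [pow_succ]
        exact ih _ ((hI i hi).1.1 y hy)
    have hpow : ∀ (j : ℕ) (g : T), ((((u i ^ k)⁻¹ • A) ^ j) g : (Fin k → N) → ℚ_[p]) =
        𝒮 _ (hNi j) g := by
      intro j g
      induction j with
      | zero => rfl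
      | succ j ih =>
        rw [pow_succ', Module.End.mul_apply]
        show (u i ^ k)⁻¹ • 𝒮 s hsN _ = _
        rw [hrel i hi _ (Subtype.property _), smul_smul, inv_mul_cancel₀ (pow_ne_zero _ (hu0 i)),
          one_smul, ih]
        ext n
        show (g : (Fin k → N) → ℚ_[p]) _ = (g : (Fin k → N) → ℚ_[p]) _
        congr 1
    refine ⟨b.equivFun.symm a, fun h2 => ?_, Subtype.ext (funext fun n => ?_)⟩
    · have h3 : a = 0 := b.equivFun.symm.map_eq_zero_iff.mp h2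
      have h4 := ha.1
      rw [h3, norm_zero] at h4
      have : 0 < 1 / ‖c‖ := by positivity
      linarith
    · rw [aeval_eq_sum_range, LinearMap.sum_apply, Submodule.coe_sum, Finset.sum_apply]
      refine Eq.trans (Finset.sum_congr rfl fun j _ => ?_) (ha' n)
      rw [LinearMap.smul_apply, Submodule.coe_smul, Pi.smul_apply, smul_eq_mul]
      congr 1
      refine (congrFun (hpow j _) n).trans ?_
      rw [← hres]
      rfl

theorem IsFreeProP.ae_form (hF : IsFreeProP p x) [FiniteDimensional ℚ_[p] E]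
    [MeasurableSpace (ContAut F)] [BorelSpace (ContAut F)]
    (μ : Measure (ContAut F)) [IsProbabilityMeasure μ] [μ.IsMulLeftInvariant]
    {ρ₀ : F →* (E →L[ℚ_[p]] E)} (hρ₀ : Continuous ρ₀) (hH : H1Vanish p ρ₀.ker) {k : ℕ}
    (hk : k ≠ 0) {f : ℚ_[p][X]} (hf : f.coeff 0 ≠ 0) :
    ∀ᵐ φ ∂μ, ∀ (ρ : F →* (E →L[ℚ_[p]] E)) (α : ContAut F) (b : (E →L[ℚ_[p]] E)ˣ),
      (∀ a, ρ a = b * ρ₀ (α.1 a) * ((b⁻¹ : (E →L[ℚ_[p]] E)ˣ) : E →L[ℚ_[p]] E)) →
      ∀ M : (E →L[ℚ_[p]] E)ˣ,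
      (∀ a, ρ (φ.1 a) = M * ρ a * ((M⁻¹ : (E →L[ℚ_[p]] E)ˣ) : E →L[ℚ_[p]] E)) →
      ∀ c : F → E, Continuous c → IsCocycle ρ c →
      ∀ Λ : MultilinearMap ℚ_[p] (fun _ : Fin k => E) ℚ_[p],
      (∀ n : Fin k → F, (∀ j, n j ∈ ρ.ker) → ∑ i ∈ Finset.range (f.natDegree + 1),
        f.coeff i * Λ (fun j => c ((φ ^ i).1 (n j))) = 0) →
      ∀ n : Fin k → F, (∀ j, n j ∈ ρ.ker) → Λ (fun j => c (n j)) = 0 := by
  obtain ⟨r, C, hC, hcoc, huniv⟩ := hF.exists_universal ρ₀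
  have hσ : ∀ n ∈ ρ₀.ker, piAct ρ₀ r n = 1 := by
    intro n hn
    ext v j
    simp [piAct, MonoidHom.mem_ker.mp hn]
  have hcl : IsClosed (ρ₀.ker : Set F) := isClosed_singleton.preimage hρ₀
  have hae := hF.measure_badA hcl hH (continuous_piAct hρ₀ r) hσ hC hcoc hk hf μ
  have hinv : ∀ (u : (E →L[ℚ_[p]] E)ˣ) (v : E),
      (u : E →L[ℚ_[p]] E) (((u⁻¹ : (E →L[ℚ_[p]] E)ˣ) : E →L[ℚ_[p]] E) v) = v := fun u v => by
    exact congrArg (fun g : E →L[ℚ_[p]] E => g v) u.mul_inv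
  have htw : ∀ (ψ : ContAut F) (u : (E →L[ℚ_[p]] E)ˣ) (ρ : F →* (E →L[ℚ_[p]] E)),
      (∀ a, ρ (ψ.1 a) = u * ρ₀ a * ((u⁻¹ : (E →L[ℚ_[p]] E)ˣ) : E →L[ℚ_[p]] E)) →
      ∀ c : F → E, Continuous c →
      IsCocycle ρ c → ∃ L : _ →ₗ[ℚ_[p]] E, ∀ a, c (ψ.1 a) = L (C a) := by
    intro ψ u ρ hu c hc hcc
    obtain ⟨L, hL⟩ := huniv (fun a => ((u⁻¹ : (E →L[ℚ_[p]] E)ˣ) : E →L[ℚ_[p]] E) (c (ψ.1 a)))
      ((ContinuousLinearMap.continuous _).comp (hc.comp ψ.2.1)) (fun a b => by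
        beta_reduce
        rw [map_mul ψ.1, hcc, hu, map_add]
        congr 1
        exact hinv u⁻¹ _)
    refine ⟨(u : E →L[ℚ_[p]] E).toLinearMap ∘ₗ L, fun a => ?_⟩
    show _ = (u : E →L[ℚ_[p]] E) (L (C a))
    rw [← hL, hinv]
  have hst : ∀ (ψ : ContAut F) (u : (E →L[ℚ_[p]] E)ˣ),
      (∀ a, ρ₀ (ψ.1 a) = u * ρ₀ a * ((u⁻¹ : (E →L[ℚ_[p]] E)ˣ) : E →L[ℚ_[p]] E)) →
      ∃ L : _ →ₗ[ℚ_[p]] _, ∀ n ∈ ρ₀.ker, C (ψ.1 n) = L (C n) := by
    intro ψ u hu
    choose L hL using fun j => htw ψ u ρ₀ hu (fun a => C a j) ((continuous_apply j).comp hC)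
      fun a b => congrFun (hcoc a b) j
    exact ⟨LinearMap.pi L, fun n _ => funext fun j => hL j n⟩
  have hker : ∀ (u : (E →L[ℚ_[p]] E)ˣ) (y : E →L[ℚ_[p]] E),
      (u : E →L[ℚ_[p]] E) * y * ((u⁻¹ : (E →L[ℚ_[p]] E)ˣ) : E →L[ℚ_[p]] E) = 1 ↔ y = 1 := by
    intro u y
    rw [Units.mul_inv_eq_iff_eq_mul, one_mul]
    exact ⟨fun h => u.mul_right_inj.mp (by rw [h, mul_one]), fun h => by rw [h, mul_one]⟩
  filter_upwards [measure_eq_zero_iff_ae_notMem.mp hae] with φ hφ ρ α b hb M hM c hc hcc Λ hΛ n hn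
  have hb' : ∀ a, ρ ((α⁻¹).1 a) =
      b * ρ₀ a * ((b⁻¹ : (E →L[ℚ_[p]] E)ˣ) : E →L[ℚ_[p]] E) := fun a => by
    rw [hb]; simp
  have hb'' : ∀ a, ρ₀ a =
      ((b⁻¹ : (E →L[ℚ_[p]] E)ˣ) : E →L[ℚ_[p]] E) * ρ ((α⁻¹).1 a) * b := fun a => by
    rw [hb']; simp [mul_assoc]
  have hψ : ∀ a, ρ₀ ((α * φ * α⁻¹).1 a) =
      ((b⁻¹ * M * b : (E →L[ℚ_[p]] E)ˣ) : E →L[ℚ_[p]] E) * ρ₀ a *
        (((b⁻¹ * M * b)⁻¹ : (E →L[ℚ_[p]] E)ˣ) : E →L[ℚ_[p]] E) := by
    intro a
    have : (α⁻¹).1 ((α * φ * α⁻¹).1 a) = φ.1 ((α⁻¹).1 a) := by simp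
    rw [hb'', this, hM, hb']
    simp [mul_assoc]
  have hψ' : ∀ a, ρ₀ (((α * φ * α⁻¹)⁻¹).1 a) =
      (((b⁻¹ * M * b)⁻¹ : (E →L[ℚ_[p]] E)ˣ) : E →L[ℚ_[p]] E) * ρ₀ a *
        ((((b⁻¹ * M * b)⁻¹)⁻¹ : (E →L[ℚ_[p]] E)ˣ) : E →L[ℚ_[p]] E) := by
    intro a
    have := hψ (((α * φ * α⁻¹)⁻¹).1 a)
    rw [show (α * φ * α⁻¹).1 (((α * φ * α⁻¹)⁻¹).1 a) = a by simp] at this
    rw [this]
    simp [mul_assoc]
  have hstab : α * φ * α⁻¹ ∈ stabC p ρ₀.ker C :=
    ⟨fun a => by rw [MonoidHom.mem_ker, MonoidHom.mem_ker, hψ, hker], hst _ _ hψ, hst _ _ hψ'⟩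
  obtain ⟨L, hL⟩ := htw α⁻¹ b ρ hb' c hc hcc
  by_contra hne
  refine hφ ⟨α⁻¹, ?_⟩
  rw [inv_inv]
  refine ⟨hstab, Λ.compLinearMap fun _ => L, ⟨fun j => α.1 (n j), fun j => ?_, ?_⟩,
    fun m hm => ?_⟩
  · have := hn j
    rw [MonoidHom.mem_ker, hb, hker] at this
    exact this
  · simpa [← hL] using hne
  · have e1 : ∀ (i : ℕ) j, L (C (((α * φ * α⁻¹) ^ i).1 (m j))) =
        c ((φ ^ i).1 ((α⁻¹).1 (m j))) := fun i j => by
      rw [← hL, conj_pow]; simp
    simp only [MultilinearMap.compLinearMap_apply, e1]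
    exact hΛ _ fun j => by rw [MonoidHom.mem_ker, hb', hker]; exact hm j

end Pool.Agent.Lib.MP_dd16b7_nt
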