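import Mathlib
import Pool.Agent.Lib.MP_dd16b7_nt.Main
import Pool.Agent.Lib.MP_dd16b7_nt.WeightGeneric

/-!
Vanishing of the invariants of the first cohomology with coefficients in an irreducible
representation of algebraic determinant.
-/

namespace Pool.Agent.Lib.MP_dd16b7_nt

open MeasureTheory Filter Topology Set Polynomial SemidirectProduct

variable {p : ℕ} [hp : Fact p.Prime]
variable {F : Type} [Group F] [TopologicalSpace F]

variable (p) in
/-- Weak continuity of a map to a `ℚ_p`-vector space. -/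
def WCont {V : Type} [AddCommGroup V] [Module ℚ_[p] V] (c : F → V) : Prop :=
  ∀ l : V →ₗ[ℚ_[p]] ℚ_[p], Continuous fun a => l (c a)

/-- The generator of the cyclic factor of the Weil group. -/
def frob (φ : ContAut F) : Weil φ := inr (Multiplicative.ofAdd 1)

theorem inl_frob (φ : ContAut F) (a : F) :
    (inl (φ.1 a) : Weil φ) = frob φ * inl a * (frob φ)⁻¹ := by
  have := inl_aut (φ := zpowersHom (MulAut F) φ.1) (Multiplicative.ofAdd 1) a
  simpa [frob] using this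

theorem weil_induction (φ : ContAut F) {P : Weil φ → Prop} (hmul : ∀ a b, P a → P b → P (a * b))
    (h1 : ∀ a, P (inl a)) (h2 : P (frob φ)) (h3 : P (frob φ)⁻¹) (w : Weil φ) : P w := by
  have hz : ∀ k : ℤ, P (frob φ ^ k) := by
    intro k
    induction k using Int.induction_on with
    | zero => simpa using h1 1
    | succ k ih => rw [zpow_add_one]; exact hmul _ _ ih h2
    | pred k ih => rw [zpow_sub_one]; exact hmul _ _ ih h3
  have : w = inl w.left * frob φ ^ w.right.toAdd := by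
    rw [frob, ← map_zpow, ← ofAdd_zsmul]
    simp
  rw [this]
  exact hmul _ _ (h1 _) (hz _)

variable (p) in
/-- Vanishing of the invariants of the first cohomology. -/
def Van {L V : Type} [Field L] [AddCommGroup V] [Module L V] [Module ℚ_[p] V] (φ : ContAut F)
    (ρ : Representation L (Weil φ) V) : Prop :=
  ∀ c : F → V, WCont p c → (∀ a b, c (a * b) = c a + ρ (inl a) (c b)) →
    (∃ B, ∀ a, ρ (frob φ) (c (φ.1⁻¹ a)) - c a = ρ (inl a) B - B) →
    ∃ B, ∀ a, c a = ρ (inl a) B - B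

variable [IsTopologicalGroup F] [CompactSpace F] [TotallyDisconnectedSpace F] {d : ℕ}
  {x : Fin d → F}

attribute [local instance 100] LieRing.ofAssociativeRing

theorem IsFreeProP.ae_abstract_form (hF : IsFreeProP p x) (N : ℕ)
    [MeasurableSpace (ContAut F)] [BorelSpace (ContAut F)]
    (μ : Measure (ContAut F)) [IsProbabilityMeasure μ] [μ.IsMulLeftInvariant] :
    ∀ᵐ φ ∂μ, ∀ (ρ : F →* ((Fin N → ℚ_[p]) →L[ℚ_[p]] (Fin N → ℚ_[p])))
      (M : ((Fin N → ℚ_[p]) →L[ℚ_[p]] (Fin N → ℚ_[p]))ˣ)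
      (𝓑 : Subalgebra ℚ_[p] ((Fin N → ℚ_[p]) →L[ℚ_[p]] (Fin N → ℚ_[p]))), Continuous ρ →
      (∀ a, ρ a ∈ 𝓑) → M.val ∈ 𝓑 → (M⁻¹).val ∈ 𝓑 → (∀ a, ρ (φ.1 a) = M * ρ a * (M⁻¹).val) →
      Nil (trCLM p N) 𝓑 (range ρ.toHomUnits ∪ {M, M⁻¹}) → H1Vanish p ρ.ker ∧
      ∀ (k : ℕ) (f : ℤ[X]), k ≠ 0 → f.coeff 0 ≠ 0 →
      ∀ c : F → Fin N → ℚ_[p], Continuous c → IsCocycle ρ c →
      ∀ Λ : MultilinearMap ℚ_[p] (fun _ : Fin k => Fin N → ℚ_[p]) ℚ_[p],
      (∀ n : Fin k → F, (∀ j, n j ∈ ρ.ker) → ∑ i ∈ Finset.range (f.natDegree + 1),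
        (f.coeff i : ℚ_[p]) * Λ (fun j => c ((φ ^ i).1 (n j))) = 0) →
      ∀ n : Fin k → F, (∀ j, n j ∈ ρ.ker) → Λ (fun j => c (n j)) = 0 := by
  have : Countable ℤ[X] := Cardinal.mk_le_aleph0_iff.mp (by simp)
  have hτ := trCLM_comm (p := p) N
  obtain ⟨𝓡, h𝓡c, h𝓡1, h𝓡2⟩ := hF.exists_countable_rep
    (𝔸 := (Fin N → ℚ_[p]) →L[ℚ_[p]] (Fin N → ℚ_[p]))
  have hA := (ae_ball_iff h𝓡c).mpr fun ρ₀ (h : ρ₀ ∈ 𝓡) =>
    ae_all_iff.mpr fun k : {k : ℕ // k ≠ 0} => ae_all_iff.mpr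
      fun f : {f : ℤ[X] // f.coeff 0 ≠ 0} => hF.ae_form μ (h𝓡1 ρ₀ h).1 (by
        obtain ⟨h1, g, hg, hk⟩ := h𝓡1 ρ₀ h
        exact h1Vanish_ker h1 hg) k.2 (f := f.1.map (Int.castRingHom ℚ_[p])) (by simpa using f.2)
  have hB := ae_all_iff.mpr fun m => hF.ae_hom hτ μ m
  filter_upwards [hA, hB] with φ hA hB ρ M 𝓑 hρ hρB hMB hMB' hφ hN
  set S := range ρ.toHomUnits ∪ {M, M⁻¹} with hSdef
  have hφ' : ∀ a, ρ (φ.1.symm a) = (M⁻¹).val * ρ a * (M⁻¹⁻¹).val := by
    intro a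
    have := hφ (φ.1.symm a)
    rw [MulEquiv.apply_symm_apply] at this
    rw [this]
    simp [mul_assoc]
  have hS : ∀ γ ∈ S, γ⁻¹ ∈ S := by
    rintro γ (⟨a, rfl⟩ | rfl | rfl)
    · exact Or.inl ⟨a⁻¹, map_inv _ _⟩
    · exact Or.inr (Or.inr rfl)
    · exact Or.inr (Or.inl (inv_inv _))
  have hSB : ∀ γ ∈ S, γ.val ∈ 𝓑 := by
    rintro γ (⟨a, rfl⟩ | rfl | rfl)
    exacts [hρB a, hMB, hMB']
  have hSρ : ∀ γ ∈ S, ∃ ψ : F →* F, Continuous ψ ∧ ∀ a, ρ (ψ a) = γ * ρ a * (γ⁻¹).val := by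
    rintro γ (⟨a, rfl⟩ | rfl | rfl)
    · refine ⟨(MulAut.conj a).toMonoidHom, ?_, fun b => ?_⟩
      · show Continuous fun b => a * b * a⁻¹
        fun_prop
      · show ρ (a * b * a⁻¹) = _
        rw [map_mul, map_mul]
        rfl
    · exact ⟨φ.1.toMonoidHom, φ.2.1, hφ⟩
    · exact ⟨φ.1.symm.toMonoidHom, φ.2.2, hφ'⟩
  obtain ⟨g, hg⟩ := exists_isLie (p := p) (Γ := MonoidHom.mrange ρ) (isClosed_mrange hρ)
  have hk := hF.isKilling hτ hN hS hρ hρB hSB hSρ (φ := φ.1) (Or.inr (Or.inl rfl)) hφ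
    (fun m c h1 h2 => hB m c h1 h2 M) hg
  obtain ⟨ρ₀, hρ₀, α, b, hb⟩ := h𝓡2 ρ hρ g hg hk
  refine ⟨h1Vanish_ker hρ hg, fun k f hk hf c hc hcoc Λ hΛ => ?_⟩
  refine hA ρ₀ hρ₀ ⟨k, hk⟩ ⟨f, hf⟩ ρ α b hb M hφ c hc hcoc Λ fun n hn => ?_
  rw [natDegree_map_eq_of_injective Int.cast_injective]
  simpa using hΛ n hn

theorem IsFreeProP.ae_irred (hF : IsFreeProP p x)
    [MeasurableSpace (ContAut F)] [BorelSpace (ContAut F)]
    (μ : Measure (ContAut F)) [IsProbabilityMeasure μ] [μ.IsMulLeftInvariant] :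
    ∀ᵐ φ ∂μ, ∀ (L V : Type) [Field L] [Algebra ℚ_[p] L] [FiniteDimensional ℚ_[p] L]
      [AddCommGroup V] [Module L V] [Module ℚ_[p] V] [IsScalarTower ℚ_[p] L V]
      [FiniteDimensional L V] [Nontrivial V] (ρ : Representation L (Weil φ) V),
      (∀ v, WCont p fun a : F => ρ (inl a) v) →
      (∀ U : Submodule L V, (∀ w, U ≤ U.comap (ρ w)) → U = ⊥ ∨ U = ⊤) →
      IsAlgebraic ℤ (LinearMap.det (ρ (frob φ))) → Van p φ ρ := by
  have hN := ae_all_iff.mpr fun N : ℕ => hF.ae_abstract_form N μ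
  filter_upwards [hN] with φ hφ L V _ _ _ _ _ _ _ _ _ ρ hρ hirr halg c hc hcoc ⟨B, hB⟩
  have : FiniteDimensional ℚ_[p] V := Module.Finite.trans L V
  let N := Module.finrank ℚ_[p] V
  let e : V ≃ₗ[ℚ_[p]] (Fin N → ℚ_[p]) := (Module.finBasis ℚ_[p] V).equivFun
  let ι : Module.End L V →ₐ[ℚ_[p]] ((Fin N → ℚ_[p]) →L[ℚ_[p]] (Fin N → ℚ_[p])) :=
    { toFun := fun A => LinearMap.toContinuousLinearMap
        (e.toLinearMap ∘ₗ A.restrictScalars ℚ_[p] ∘ₗ e.symm.toLinearMap)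
      map_one' := by ext1 v; simp
      map_mul' := fun A B => by ext1 v; simp
      map_zero' := by ext1 v; simp
      map_add' := fun A B => by ext1 v; simp
      commutes' := fun r => by
        ext1 v
        simp [Algebra.algebraMap_eq_smul_one] }
  have hι : ∀ A v, ι A (e v) = e (A v) := fun A v => by simp [ι]
  have hinj : Function.Injective ι := by
    rw [injective_iff_map_eq_zero]
    intro A hA
    refine LinearMap.ext fun v => e.injective ?_
    rw [← hι, hA]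
    simp
  have hwc : ∀ c : F → V, WCont p c → Continuous fun a => e (c a) := fun c hc =>
    continuous_pi fun i => hc ((LinearMap.proj i).comp e.toLinearMap)
  let R := ι.toMonoidHom.comp ρ
  let ρ' := R.comp inl
  let M := R.toHomUnits (frob φ)
  have hρ'c : Continuous ρ' := by
    rw [continuous_clm_apply]
    intro v
    exact hwc _ (hρ (e.symm v))
  obtain ⟨hH, hform⟩ := hφ N ρ' M ι.range hρ'c (fun a => ⟨_, rfl⟩) ⟨_, rfl⟩ ⟨_, rfl⟩
    (fun a => by
      show R (inl (φ.1 a)) = R (frob φ) * R (inl a) * R (frob φ)⁻¹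
      rw [inl_frob, map_mul, map_mul])
    (by
      intro U hU hS htr
      have : Nontrivial (Fin N → ℚ_[p]) := e.symm.toEquiv.nontrivial
      obtain ⟨v, hv0, hv⟩ := exists_common_ker
        ((fun f : (Fin N → ℚ_[p]) →L[ℚ_[p]] (Fin N → ℚ_[p]) => f.toLinearMap) '' U) (by
          intro l hl hlU
          obtain ⟨l', rfl, hl'⟩ : ∃ l' : List ((Fin N → ℚ_[p]) →L[ℚ_[p]] (Fin N → ℚ_[p])),
              l = l'.map ContinuousLinearMap.toLinearMapRingHom ∧ ∀ u ∈ l', u ∈ U := by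
            refine ⟨l.map LinearMap.toContinuousLinearMap, by simp [Function.comp_def], ?_⟩
            intro u hu
            obtain ⟨u', hu', rfl⟩ := List.mem_map.mp hu
            obtain ⟨w, hw, rfl⟩ := hlU u' hu'
            exact hw
          rw [← map_list_prod]
          exact htr l' (by simpa using hl) hl')
      let V₀ : Submodule L V := ⨅ A : {A : Module.End L V // ι A ∈ U}, LinearMap.ker A.1
      have hV₀ : ∀ v, v ∈ V₀ ↔ ∀ A, ι A ∈ U → A v = 0 := fun v => by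
        simp [V₀, Submodule.mem_iInf]
      have hstep : ∀ w : Weil φ, R.toHomUnits w⁻¹ ∈ range ρ'.toHomUnits ∪ {M, M⁻¹} →
          V₀ ≤ V₀.comap (ρ w) := by
        intro w hw v hv
        rw [Submodule.mem_comap]
        rw [hV₀] at hv ⊢
        intro A hA
        have h1 : ι (ρ w⁻¹ * A * ρ w) ∈ U := by
          have := hS _ hw _ hA
          rw [← map_inv, inv_inv] at this
          rw [map_mul, map_mul]
          exact this
        have h2 := congrArg (fun y => ρ w y) (hv _ h1)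
        simpa using h2
      have hall : ∀ w : Weil φ, V₀ ≤ V₀.comap (ρ w) := weil_induction φ
        (fun a b ha hb v hv => by rw [map_mul]; exact ha (hb hv))
        (fun a => hstep _ (Or.inl ⟨a⁻¹, by rw [map_inv, map_inv]; rfl⟩))
        (hstep _ (Or.inr (Or.inr (map_inv _ _)))) (hstep _ (Or.inr (Or.inl (by rw [inv_inv]))))
      have htop : V₀ = ⊤ := by
        refine (hirr V₀ hall).resolve_left fun h => hv0 ?_
        have : e.symm v ∈ V₀ := by
          rw [hV₀]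
          intro A hA
          refine e.injective ?_
          rw [← hι, map_zero, e.apply_symm_apply]
          exact hv _ ⟨_, hA, rfl⟩
        rw [h, Submodule.mem_bot] at this
        simpa using this
      intro u hu
      obtain ⟨A, rfl⟩ := hU hu
      have : A = 0 := LinearMap.ext fun v => (hV₀ v).mp (by rw [htop]; trivial) A hu
      rw [this]
      exact map_zero ι)
  have hker : ∀ a, a ∈ ρ'.ker ↔ ρ (inl a) = 1 := fun a =>
    ⟨fun h => hinj (by rw [map_one]; exact h), fun h => by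
      show ι (ρ (inl a)) = 1
      rw [h, map_one]⟩
  have hcoc' : IsCocycle ρ' fun a => e (c a) := fun a b => by
    beta_reduce
    rw [hcoc, map_add, ← hι]
    rfl
  have hφN : ∀ a ∈ ρ'.ker, φ.1 a ∈ ρ'.ker := fun a ha => by
    rw [hker] at ha ⊢
    rw [inl_frob, map_mul, map_mul, ha, mul_one, ← map_mul, mul_inv_cancel, map_one]
  have hφN' : ∀ a ∈ ρ'.ker, φ.1⁻¹ a ∈ ρ'.ker := fun a ha => by
    rw [hker] at ha ⊢
    have h1 := inl_frob φ (φ.1⁻¹ a)
    rw [show φ.1 (φ.1⁻¹ a) = a by simp] at h1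
    have h2 : (inl (φ.1⁻¹ a) : Weil φ) = (frob φ)⁻¹ * inl a * frob φ := by rw [h1]; group
    rw [h2, map_mul, map_mul, ha, mul_one, ← map_mul, inv_mul_cancel, map_one]
  have hM : ∀ a ∈ ρ'.ker, c (φ.1 a) = ρ (frob φ) (c a) := fun a ha => by
    have h3 := hB (φ.1 a)
    rw [(hker _).mp (hφN a ha), show φ.1⁻¹ (φ.1 a) = a by simp] at h3
    simp only [Module.End.one_apply, sub_self, sub_eq_zero] at h3
    exact h3.symm
  have hMi : ∀ i : ℕ, ∀ a ∈ ρ'.ker,
      (φ ^ i).1 a ∈ ρ'.ker ∧ c ((φ ^ i).1 a) = (ρ (frob φ) ^ i) (c a) := by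
    intro i a ha
    induction i with
    | zero => exact ⟨ha, rfl⟩
    | succ i ih =>
      rw [pow_succ', pow_succ']
      exact ⟨hφN _ ih.1, by rw [Module.End.mul_apply, ← ih.2]; exact hM _ ih.1⟩
  have hzero : ∀ a ∈ ρ'.ker, e (c a) = 0 := by
    let U := Submodule.span L (c '' ρ'.ker)
    have hstep : ∀ w : Weil φ, (∀ a ∈ ρ'.ker, ∃ b ∈ ρ'.ker, c b = ρ w (c a)) →
        U ≤ U.comap (ρ w) := fun w hw => Submodule.span_le.mpr (by
      rintro _ ⟨a, ha, rfl⟩
      exact Submodule.subset_span (hw a ha))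
    have hall : ∀ w : Weil φ, U ≤ U.comap (ρ w) := weil_induction φ
      (fun a b ha hb v hv => by rw [map_mul]; exact ha (hb hv))
      (fun a => hstep _ fun b hb => ⟨a * b * a⁻¹, (inferInstance : ρ'.ker.Normal).conj_mem b hb a,
        e.injective ((hcoc'.conj a hb).trans (hι _ _))⟩)
      (hstep _ fun a ha => ⟨_, hφN a ha, hM a ha⟩)
      (hstep _ fun a ha => ⟨_, hφN' a ha, by
        have h1 := hM _ (hφN' a ha)
        rw [show φ.1 (φ.1⁻¹ a) = a by simp] at h1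
        rw [h1]
        simp⟩)
    rcases hirr U hall with h | h
    · intro a ha
      have : c a ∈ U := Submodule.subset_span ⟨a, ha, rfl⟩
      rw [h, Submodule.mem_bot] at this
      rw [this, map_zero]
    exfalso
    obtain ⟨v, hv1, hv2, hv3⟩ := Submodule.exists_fun_fin_finrank_span_eq L (c '' ρ'.ker)
    have hk : Module.finrank L U ≠ 0 := by
      rw [h, finrank_top]
      exact Module.finrank_pos.ne'
    let bs := Module.Basis.mk hv3 (hv2.trans h).ge
    choose n hn hnv using hv1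
    have hd0 : LinearMap.det (ρ (frob φ)) ≠ 0 :=
      ((ρ.toHomUnits (frob φ)).isUnit.map LinearMap.det).ne_zero
    obtain ⟨f, hf0, hf⟩ := halg.exists_nonzero_coeff_and_aeval_eq_zero
      (mem_nonZeroDivisors_of_ne_zero hd0)
    obtain ⟨ℓ, hℓ⟩ := Module.Projective.exists_dual_ne_zero ℚ_[p] (one_ne_zero (α := L))
    let Λ : MultilinearMap ℚ_[p] (fun _ : Fin (Module.finrank L U) => Fin N → ℚ_[p]) ℚ_[p] :=
      ℓ.compMultilinearMap ((bs.det.toMultilinearMap.restrictScalars ℚ_[p]).compLinearMap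
        fun _ => e.symm.toLinearMap)
    have hΛ : ∀ y : Fin (Module.finrank L U) → V, Λ (fun j => e (y j)) = ℓ (bs.det y) :=
      fun y => by simp [Λ]
    have h2 := hform _ f hk hf0 _ (hwc c hc) hcoc' Λ (fun m hm => ?_) n hn
    · rw [hΛ, show (fun j => c (n j)) = bs from funext fun j => by rw [hnv]; simp [bs],
        Module.Basis.det_self] at h2
      exact hℓ h2
    · have h3 : ∀ i : ℕ, (f.coeff i : ℚ_[p]) * Λ (fun j => e (c ((φ ^ i).1 (m j)))) =
          ℓ ((f.coeff i • LinearMap.det (ρ (frob φ)) ^ i) * bs.det fun j => c (m j)) := by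
        intro i
        rw [hΛ, show (fun j => c ((φ ^ i).1 (m j))) = (ρ (frob φ) ^ i) ∘ fun j => c (m j) from
          funext fun j => (hMi i _ (hm j)).2, Module.Basis.det_comp, map_pow, smul_mul_assoc,
          map_zsmul, zsmul_eq_mul]
      simp only [h3]
      rw [← map_sum, ← Finset.sum_mul, ← aeval_eq_sum_range, hf, zero_mul, map_zero]
  obtain ⟨b, hb⟩ := hH.exists_eq hρ'c (fun n hn => hn) (hwc c hc) hcoc' hzero
  refine ⟨e.symm b, fun a => e.injective ?_⟩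
  rw [map_sub, ← hι, e.apply_symm_apply]
  exact hb a

end Pool.Agent.Lib.MP_dd16b7_nt
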