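import Mathlib
import Pool.Agent.Lib.MP_dd16b7_nt.WeightIrred

/-!
Devissage from irreducible representations to all representations whose constituents have
algebraic determinant.
-/

namespace Pool.Agent.Lib.MP_dd16b7_nt

open MeasureTheory Polynomial SemidirectProduct

theorem exists_sub_mem {K V : Type*} [Field K] [AddCommGroup V] [Module K V]
    [FiniteDimensional K V] (T : Module.End K V) {Y Y₀ : Submodule K V} (hY : ∀ y ∈ Y, T y ∈ Y)
    (hY₀ : ∀ y ∈ Y₀, T y ∈ Y₀) (hinj : ∀ y ∈ Y, T y ∈ Y₀ → y ∈ Y₀) {z : V} (hz : z ∈ Y) :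
    ∃ y ∈ Y, z - T y ∈ Y₀ := by
  let Z := Y₀.comap Y.subtype
  let T' := Z.mapQ Z (T.restrict hY) fun y hy => hY₀ _ hy
  have h1 : Function.Injective T' := by
    rw [injective_iff_map_eq_zero]
    intro q hq
    obtain ⟨y, rfl⟩ := Z.mkQ_surjective q
    exact (Submodule.Quotient.mk_eq_zero Z).mpr
      (hinj y y.2 ((Submodule.Quotient.mk_eq_zero Z).mp hq))
  obtain ⟨q, hq⟩ := LinearMap.injective_iff_surjective.mp h1 (Z.mkQ ⟨z, hz⟩)
  obtain ⟨y, rfl⟩ := Z.mkQ_surjective q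
  exact ⟨y, y.2, (Submodule.Quotient.eq Z).mp hq.symm⟩

theorem det_eq_of_equiv {K X Y : Type*} [Field K] [AddCommGroup X] [Module K X] [AddCommGroup Y]
    [Module K Y] (e : X ≃ₗ[K] Y) {f : Module.End K X} {g : Module.End K Y}
    (h : ∀ v, e (f v) = g (e v)) : LinearMap.det f = LinearMap.det g := by
  rw [← LinearMap.det_conj f e]
  congr 1
  ext v
  simp [h]

theorem isAlgebraic_det {K V : Type*} [Field K] [AddCommGroup V] [Module K V]
    [FiniteDimensional K V] {A : Module.End K V} {f : ℤ[X]} (hf : f ≠ 0) (hA : aeval A f = 0) :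
    IsAlgebraic ℤ (LinearMap.det A) := by
  classical
  let K' := AlgebraicClosure K
  let b := Module.finBasis K V
  let B := (LinearMap.toMatrix b b A).map (algebraMap K K')
  have hB : aeval B f = 0 := by
    have h1 := aeval_algHom_apply ((((Algebra.ofId K K').mapMatrix.comp
      (LinearMap.toMatrixAlgEquiv b).toAlgHom).toRingHom).toIntAlgHom) A f
    rw [hA, map_zero] at h1
    exact h1
  rw [← isAlgebraic_algebraMap_iff (S := K) (A := K') (algebraMap K K').injective,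
    ← LinearMap.det_toMatrix b, RingHom.map_det, RingHom.mapMatrix_apply,
    Matrix.det_eq_prod_roots_charpoly]
  refine Multiset.prod_induction _ _ (fun _ _ => IsAlgebraic.mul) isAlgebraic_one fun r hr => ?_
  have h2 : r ∈ spectrum K' B := Matrix.mem_spectrum_iff_isRoot_charpoly.mpr (isRoot_of_mem_roots hr)
  have h3 := spectrum.subset_polynomial_aeval B (f.map (algebraMap ℤ K')) ⟨r, h2, rfl⟩
  rw [aeval_map_algebraMap, hB] at h3
  refine ⟨f, hf, ?_⟩
  have : Nontrivial (Matrix (Fin (Module.finrank K V)) (Fin (Module.finrank K V)) K') :=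
    nontrivial_of_ne _ _ fun h : (1 : Matrix _ _ K') = 0 => by
      have := subsingleton_of_zero_eq_one h.symm
      rw [spectrum.of_subsingleton] at h2
      exact h2
  rw [spectrum.zero_eq, Set.mem_singleton_iff] at h3
  simpa [eval_map_algebraMap] using h3

variable {p : ℕ} [hp : Fact p.Prime]
variable {F : Type} [Group F] [TopologicalSpace F]

theorem van_of_irred (φ : ContAut F) (L : Type) [Field L] [Algebra ℚ_[p] L]
    (H : ∀ (V : Type) [AddCommGroup V] [Module L V] [Module ℚ_[p] V] [IsScalarTower ℚ_[p] L V]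
      [FiniteDimensional L V] [Nontrivial V] (ρ : Representation L (Weil φ) V),
      (∀ v, WCont p fun a : F => ρ (inl a) v) →
      (∀ U : Submodule L V, (∀ w, U ≤ U.comap (ρ w)) → U = ⊥ ∨ U = ⊤) →
      IsAlgebraic ℤ (LinearMap.det (ρ (frob φ))) → Van p φ ρ) (n : ℕ) :
    ∀ (V : Type) [AddCommGroup V] [Module L V] [Module ℚ_[p] V] [IsScalarTower ℚ_[p] L V]
      [FiniteDimensional L V] (ρ : Representation L (Weil φ) V), Module.finrank L V = n →
      (∀ v, WCont p fun a : F => ρ (inl a) v) →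
      (∀ (U : Submodule L V) (hU : ∀ w, U ≤ U.comap (ρ w)),
        IsAlgebraic ℤ (LinearMap.det ((ρ (frob φ)).restrict (hU (frob φ))))) → Van p φ ρ := by
  induction n using Nat.strong_induction_on with
  | _ n ih =>
  intro V _ _ _ _ _ ρ hn hρ halg c hc hcoc ⟨B, hB⟩
  rcases subsingleton_or_nontrivial V with hV | hV
  · exact ⟨0, fun a => Subsingleton.elim _ _⟩
  obtain ⟨U, ⟨hU0, hU⟩, hmax⟩ := (wellFounded_gt (α := Submodule L V)).has_min
    {U | U ≠ ⊤ ∧ ∀ w, U ≤ U.comap (ρ w)} ⟨⊥, bot_ne_top, fun w => bot_le⟩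
  have hid : ∀ y a, ρ (frob φ) (ρ (inl (φ.1⁻¹ a)) y) = ρ (inl a) (ρ (frob φ) y) := by
    intro y a
    have h1 := inl_frob φ (φ.1⁻¹ a)
    rw [show φ.1 (φ.1⁻¹ a) = a by simp] at h1
    rw [h1, ← Module.End.mul_apply, ← Module.End.mul_apply, ← map_mul, ← map_mul]
    simp
  have hcb : ∀ y, WCont p fun a : F => ρ (inl a) y - y := fun y l => by
    simp only [map_sub]
    exact (hρ y l).sub continuous_const
  have hsub : ∀ {c c' : F → V}, WCont p c → WCont p c' → WCont p fun a => c a - c' a :=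
    fun h h' l => by
      simp only [map_sub]
      exact (h l).sub (h' l)
  have hQ : Van p φ (ρ.quotient U hU) := by
    have : Nontrivial (V ⧸ U) := Submodule.Quotient.nontrivial_iff.mpr hU0
    refine H _ _ (fun v l => ?_) (fun U' hU' => ?_) ?_
    · obtain ⟨v, rfl⟩ := U.mkQ_surjective v
      exact hρ v (l ∘ₗ U.mkQ.restrictScalars ℚ_[p])
    · by_cases h : U'.comap U.mkQ = ⊤
      · right
        rw [eq_top_iff]
        intro v _
        obtain ⟨v, rfl⟩ := U.mkQ_surjective v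
        exact h.ge (Submodule.mem_top (x := v))
      · left
        have h2 := hmax (U'.comap U.mkQ) ⟨h, fun w v hv => hU' w hv⟩
        have h3 := ((U.le_comap_mkQ U').lt_or_eq.resolve_left h2).ge
        rw [eq_bot_iff]
        intro v hv
        obtain ⟨v, rfl⟩ := U.mkQ_surjective v
        exact (Submodule.Quotient.mk_eq_zero U).mpr (h3 hv)
    · have h1 := halg ⊤ fun w => le_top
      rw [det_eq_of_equiv Submodule.topEquiv (g := ρ (frob φ)) fun v => rfl,
        LinearMap.det_eq_det_mul_det U _ (hU (frob φ))] at h1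
      refine IsAlgebraic.of_mul (mem_nonZeroDivisors_of_ne_zero ?_) (halg U hU) h1
      exact (((ρ.subrepresentation U hU).toHomUnits (frob φ)).isUnit.map LinearMap.det).ne_zero
  obtain ⟨r, hr⟩ := U.subtype.exists_leftInverse_of_injective U.ker_subtype
  have hr' : ∀ u : U, r u = u := fun u => LinearMap.congr_fun hr u
  have hS : Van p φ (ρ.subrepresentation U hU) := by
    refine ih _ (hn ▸ Submodule.finrank_lt hU0) _ _ rfl (fun v l => ?_) fun U' hU' => ?_
    · have := hρ v (l ∘ₗ r.restrictScalars ℚ_[p])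
      refine this.congr fun a => ?_
      exact congrArg l (hr' (ρ.subrepresentation U hU (inl a) v))
    · have h1 := halg (U'.map U.subtype) (by
        rintro w _ ⟨v, hv, rfl⟩
        exact ⟨_, hU' w hv, rfl⟩)
      rwa [← det_eq_of_equiv (Submodule.equivMapOfInjective _ U.injective_subtype U')
        (f := (ρ.subrepresentation U hU (frob φ)).restrict (hU' (frob φ))) fun v => rfl] at h1
  have hS' : ∀ c : F → V, WCont p c → (∀ a b, c (a * b) = c a + ρ (inl a) (c b)) →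
      (∀ a, c a ∈ U) → (∃ u ∈ U, ∀ a, ρ (frob φ) (c (φ.1⁻¹ a)) - c a = ρ (inl a) u - u) →
      ∃ u ∈ U, ∀ a, c a = ρ (inl a) u - u := by
    intro c hc hcoc hcU ⟨u, hu, hcu⟩
    obtain ⟨u', hu'⟩ := hS (fun a => ⟨c a, hcU a⟩) (fun l =>
      (hc (l ∘ₗ r.restrictScalars ℚ_[p])).congr fun a => congrArg l (hr' ⟨c a, hcU a⟩))
      (fun a b => Subtype.ext (hcoc a b)) ⟨⟨u, hu⟩, fun a => Subtype.ext (hcu a)⟩
    exact ⟨u', u'.2, fun a => congrArg Subtype.val (hu' a)⟩
  obtain ⟨b₁, hb₁⟩ := hQ (fun a => U.mkQ (c a)) (fun l => hc (l ∘ₗ U.mkQ.restrictScalars ℚ_[p]))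
    (fun a b => by rw [hcoc, map_add]; rfl)
    ⟨U.mkQ B, fun a => by
      have := congrArg U.mkQ (hB a)
      rw [map_sub, map_sub] at this
      exact this⟩
  obtain ⟨b₁, rfl⟩ := U.mkQ_surjective b₁
  have hb₁' : ∀ a, c a - (ρ (inl a) b₁ - b₁) ∈ U := fun a => by
    rw [← Submodule.Quotient.eq]
    exact hb₁ a
  let Y : Submodule L V := ⨅ a : F, U.comap (ρ (inl a) - 1)
  let Y₀ : Submodule L V := U ⊔ ⨅ a : F, LinearMap.ker (ρ (inl a) - 1)
  have hY : ∀ y, y ∈ Y ↔ ∀ a, ρ (inl a) y - y ∈ U := fun y => by simp [Y, Submodule.mem_iInf]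
  have hY₀ : ∀ y, y ∈ Y₀ ↔ ∃ u ∈ U, ∀ a, ρ (inl a) y - y = ρ (inl a) u - u := by
    intro y
    simp only [Y₀, Submodule.mem_sup, Submodule.mem_iInf, LinearMap.mem_ker, LinearMap.sub_apply,
      Module.End.one_apply]
    constructor
    · rintro ⟨u, hu, z, hz, rfl⟩
      exact ⟨u, hu, fun a => by rw [map_add, sub_eq_zero.mp (hz a)]; abel⟩
    · rintro ⟨u, hu, h⟩
      exact ⟨u, hu, y - u, fun a => by rw [map_sub, eq_add_of_sub_eq (h a)]; abel, by abel⟩
  have hT : ∀ y a, ρ (inl a) ((ρ (frob φ) - 1) y) - (ρ (frob φ) - 1) y =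
      ρ (frob φ) (ρ (inl (φ.1⁻¹ a)) y - y) - (ρ (inl a) y - y) := fun y a => by
    simp only [LinearMap.sub_apply, Module.End.one_apply, map_sub, hid]
    abel
  obtain ⟨y, hy, hy'⟩ := exists_sub_mem (ρ (frob φ) - 1) (Y := Y) (Y₀ := Y₀)
    (fun y hy => by
      rw [hY] at hy ⊢
      intro a
      rw [hT]
      exact U.sub_mem (hU _ (hy _)) (hy _))
    (fun y hy => by
      rw [hY₀] at hy ⊢
      obtain ⟨u, hu, h⟩ := hy
      exact ⟨(ρ (frob φ) - 1) u, U.sub_mem (hU _ hu) hu, fun a => by rw [hT, hT, h, h]⟩)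
    (fun y hy h => by
      rw [hY₀] at h ⊢
      obtain ⟨u, hu, h⟩ := h
      exact hS' _ (hcb y) (fun a b => by simp only [map_mul, Module.End.mul_apply, map_sub]; abel)
        ((hY y).mp hy) ⟨u, hu, fun a => by rw [← hT, h]⟩)
    (z := B - (ρ (frob φ) - 1) b₁) (by
      rw [hY]
      intro a
      have h1 := U.sub_mem (hU (frob φ) (hb₁' (φ.1⁻¹ a))) (hb₁' a)
      have h2 : ρ (inl a) (B - (ρ (frob φ) - 1) b₁) - (B - (ρ (frob φ) - 1) b₁) =
          (ρ (inl a) B - B) - (ρ (inl a) ((ρ (frob φ) - 1) b₁) - (ρ (frob φ) - 1) b₁) := by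
        rw [map_sub]; abel
      rw [h2, hT, ← hB]
      refine (congrArg (· ∈ U) ?_).mp h1
      simp only [map_sub]
      abel)
  obtain ⟨u, hu, hu'⟩ := (hY₀ _).mp hy'
  obtain ⟨u', -, hu''⟩ := hS' (fun a => c a - (ρ (inl a) b₁ - b₁) - (ρ (inl a) y - y))
    (hsub (hsub hc (hcb b₁)) (hcb y))
    (fun a b => by simp only [hcoc, map_mul, Module.End.mul_apply, map_sub]; abel)
    (fun a => U.sub_mem (hb₁' a) ((hY y).mp hy a))
    ⟨u, hu, fun a => by
      rw [← hu']
      have h2 : ρ (inl a) (B - (ρ (frob φ) - 1) b₁ - (ρ (frob φ) - 1) y) -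
          (B - (ρ (frob φ) - 1) b₁ - (ρ (frob φ) - 1) y) = (ρ (inl a) B - B) -
          (ρ (inl a) ((ρ (frob φ) - 1) b₁) - (ρ (frob φ) - 1) b₁) -
          (ρ (inl a) ((ρ (frob φ) - 1) y) - (ρ (frob φ) - 1) y) := by
        rw [map_sub, map_sub]; abel
      rw [h2, hT, hT, ← hB]
      simp only [map_sub]
      abel⟩
  refine ⟨b₁ + y + u', fun a => ?_⟩
  have := hu'' a
  rw [sub_sub, sub_eq_iff_eq_add] at this
  rw [this, map_add, map_add]
  abel

variable [IsTopologicalGroup F] [CompactSpace F] [TotallyDisconnectedSpace F] {d : ℕ}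
  {x : Fin d → F}

theorem IsFreeProP.ae_van (hF : IsFreeProP p x)
    [MeasurableSpace (ContAut F)] [BorelSpace (ContAut F)]
    (μ : Measure (ContAut F)) [IsProbabilityMeasure μ] [μ.IsMulLeftInvariant] :
    ∀ᵐ φ ∂μ, ∀ (L V : Type) [Field L] [Algebra ℚ_[p] L] [FiniteDimensional ℚ_[p] L]
      [AddCommGroup V] [Module L V] [Module ℚ_[p] V] [IsScalarTower ℚ_[p] L V]
      [FiniteDimensional L V] (ρ : Representation L (Weil φ) V),
      (∀ v, WCont p fun a : F => ρ (inl a) v) →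
      (∀ (U : Submodule L V) (hU : ∀ w, U ≤ U.comap (ρ w)),
        IsAlgebraic ℤ (LinearMap.det ((ρ (frob φ)).restrict (hU (frob φ))))) →
      ∀ z : L, IsAlgebraic ℤ z → ∀ c : F → V, WCont p c →
      (∀ a b, c (a * b) = c a + ρ (inl a) (c b)) →
      (∃ B, ∀ a, ρ (frob φ) (c (φ.1⁻¹ a)) - z • c a = ρ (inl a) B - B) →
      ∃ B, ∀ a, c a = ρ (inl a) B - B := by
  filter_upwards [hF.ae_irred μ] with φ hφ L V _ _ _ _ _ _ _ _ ρ hρ halg z hz c hc hcoc ⟨B, hB⟩
  rcases eq_or_ne z 0 with rfl | hz0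
  · refine ⟨ρ (frob φ)⁻¹ B, fun a => ?_⟩
    have h1 := congrArg (ρ (frob φ)⁻¹) (hB (φ.1 a))
    rw [show φ.1⁻¹ (φ.1 a) = a by simp, inl_frob] at h1
    simpa [map_mul] using h1
  let χ : Weil φ →* Lˣ := (zpowersHom Lˣ (Units.mk0 z hz0)⁻¹).comp rightHom
  let ρ' : Representation L (Weil φ) V :=
    { toFun := fun w => (χ w : L) • ρ w
      map_one' := by simp
      map_mul' := fun a b => by simp only [map_mul, Units.val_mul, smul_mul_smul_comm] }
  have h1 : ∀ a, ρ' (inl a) = ρ (inl a) := fun a => by simp [ρ', χ]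
  have h2 : ρ' (frob φ) = z⁻¹ • ρ (frob φ) := by simp [ρ', χ, frob]
  have h3 := van_of_irred φ L (fun V => hφ L V) _ V ρ' rfl (by simpa only [h1] using hρ)
    (fun U hU => by
      have hU' : ∀ w, U ≤ U.comap (ρ w) := fun w v hv =>
        (U.smul_mem_iff (χ w).ne_zero).mp (hU w hv)
      have h4 : (ρ' (frob φ)).restrict (hU (frob φ)) =
          z⁻¹ • (ρ (frob φ)).restrict (hU' (frob φ)) :=
        LinearMap.ext fun v => Subtype.ext (LinearMap.congr_fun h2 v)
      rw [h4, LinearMap.det_smul]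
      exact (hz.inv.pow _).mul (halg U hU'))
    c hc (by simpa only [h1] using hcoc) ⟨z⁻¹ • B, fun a => by
      rw [h1, h2, map_smul, ← smul_sub, ← hB, smul_sub, smul_smul, inv_mul_cancel₀ hz0, one_smul]
      rfl⟩
  simpa only [h1] using h3

end Pool.Agent.Lib.MP_dd16b7_nt
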